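import Mathlib
import Pool.Agent.Lib.MP_7ab245_nt.L1.Defs

/-! Definitions for the lower bound of the Mahler measure in terms of the traces of the powers. -/

set_option autoImplicit false

open Polynomial Finset

namespace Pool.Agent.Lib.MP_7ab245_nt.TrE

open Pool.Agent.Lib.MP_7ab245_nt.Len
open Pool.Agent.Lib.MP_7ab245_nt.L1

/-- the harmonic polynomial `Re ∑_{1 ≤ k < N} c_k z^k / k` -/
noncomputable def LL (c : ℕ → ℂ) (N : ℕ) (z : ℂ) : ℝ :=
  (∑ k ∈ Finset.Ico 1 N, c k * z ^ k / k).re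

/-- its energy `∑_{1 ≤ k < N} |c_k|^2 / k` -/
noncomputable def DL (c : ℕ → ℂ) (N : ℕ) : ℝ := ∑ k ∈ Finset.Ico 1 N, ‖c k‖ ^ 2 / k

/-- mean over the unit circle of `|V - L|`, `V` the potential of the points `y l` -/
noncomputable def kapL {m : ℕ} (y : Fin m → ℂ) (c : ℕ → ℂ) (N : ℕ) : ℝ :=
  Real.circleAverage (fun ζ => |VV y 0 ζ - LL c N ζ|) 0 1

/-- mean over the unit circle of `|log |f| + L|` -/
noncomputable def mlogL (f : ℤ[X]) (c : ℕ → ℂ) (N : ℕ) : ℝ :=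
  Real.circleAverage (fun z => |Real.log ‖(f.map (Int.castRingHom ℂ)).eval z‖ + LL c N z|) 0 1

/-- the power sums of the conjugates of the points `α l` -/
noncomputable def pw {n : ℕ} (α : Fin n → ℂ) (k : ℕ) : ℂ := ∑ l, (starRingEnd ℂ (α l)) ^ k

/-- `∑_l (conj α_l)^m / (1 - z conj α_l)` -/
noncomputable def QQ {n : ℕ} (α : Fin n → ℂ) (m : ℕ) (z : ℂ) : ℂ :=
  ∑ l, (starRingEnd ℂ (α l)) ^ m / (1 - z * starRingEnd ℂ (α l))

/-- minus the logarithm of the modulus of the Blaschke product of the reflected outer points -/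
noncomputable def Lam {n : ℕ} (α : Fin n → ℂ) (z : ℂ) : ℝ :=
  hh α + VV α 0 z - VV (fun l => Len.refl (α l)) 0 z

/-- the mean `(1/n) ∑_l 1 / (1 - z conj y_l)` -/
noncomputable def RR {n : ℕ} (y : Fin n → ℂ) (z : ℂ) : ℂ :=
  (∑ l, 1 / (1 - z * starRingEnd ℂ (y l))) / n

/-- the Poisson kernels of the reflected outer points -/
noncomputable def PN {n : ℕ} (α : Fin n → ℂ) (w : Fin n → ℝ) (ζ : ℂ) : ℝ :=
  ∑ l ∈ univ.filter (fun l => 1 < ‖α l‖), w l * poissonKernel 0 (Len.refl (α l)) ζ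

/-- majorant of the Green function near its pole, as a function of the angle -/
noncomputable def gst (δ ψ : ℝ) : ℝ :=
  1 / 2 * Real.log ((Real.cosh (3 * δ) - Real.cos ψ) / (1 - Real.cos ψ))

/-- sum of these majorants for the outer points at distance comparable with `t` -/
noncomputable def SS {n : ℕ} (α : Fin n → ℂ) (t θ : ℝ) : ℝ :=
  ∑ l ∈ univ.filter (fun l => 1 < ‖α l‖ ∧ Real.log ‖α l‖ < 4 * t ∧ t < 2 * Real.log ‖α l‖),
    gst (Real.log ‖α l‖) (θ - (α l).arg)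

/-- the quantity `n / m + (1 / n) ∑_{1 ≤ k < m} |p_k|^2 / k` -/
noncomputable def EN {n : ℕ} (α : Fin n → ℂ) (m : ℕ) : ℝ := n / m + DL (pw α) m / n

/-- majorant of `log (|QQ| / (m * EN))` on the unit circle -/
noncomputable def WA {n : ℕ} (α : Fin n → ℂ) (m : ℕ) (ζ : ℂ) : ℝ :=
  Real.log (5 * max ‖RR (fun l => Len.refl (α l)) ζ‖ (1 / 2)) +
    PN α (fun _ => 1) ζ / (m * EN α m) +
    ‖∑ k ∈ Finset.Ico 1 m, pw α k * ζ ^ k‖ / (m * EN α m)

/-- the function whose Poisson integral controls `QQ` and `Lam` -/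
noncomputable def WW {n : ℕ} (α : Fin n → ℂ) (m : ℕ) (ζ : ℂ) : ℝ :=
  WA α m ζ + 21 * PN α (fun l => Real.log ‖α l‖) ζ

/-- no point `α l` outside the unit disc lies on the ray at the angle `θ`, and `e^{iθ}` is not
one of the points -/
def Gen {n : ℕ} (α : Fin n → ℂ) (θ : ℝ) : Prop := ∀ l, Real.cos (θ - (α l).arg) ≠ 1

/-- bad scales above the angle `θ` -/
def Bad {n : ℕ} (α : Fin n → ℂ) (m : ℕ) (i : ℕ) (θ : ℝ) : Prop :=
  (2 : ℝ) ^ i / 8 ≤ PP (WW α m) (pt ((2 : ℝ) ^ i / m) θ) ∨ (2 : ℝ) ^ i / 4 < SS α ((2 : ℝ) ^ i / m) θ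

end Pool.Agent.Lib.MP_7ab245_nt.TrE
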