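import Mathlib
import Pool.Agent.Lib.MP_7ab245_nt.TrE.Defs
import Pool.Agent.Lib.MP_7ab245_nt.L1.Poi1
import Pool.Agent.Lib.MP_7ab245_nt.L1.Poi2
import Pool.Agent.Lib.MP_7ab245_nt.L1.Poi3
import Pool.Agent.Lib.MP_7ab245_nt.L1.Rep

/-! Elementary facts on the harmonic polynomials `LL c N`. -/

set_option autoImplicit false

open Polynomial Finset

namespace Pool.Agent.Lib.MP_7ab245_nt.TrE

open Pool.Agent.Lib.MP_7ab245_nt.Len
open Pool.Agent.Lib.MP_7ab245_nt.L1

theorem continuous_LL (c : ℕ → ℂ) (N : ℕ) : Continuous (LL c N) := by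
  unfold LL
  fun_prop

theorem circleIntegrable_LL (c : ℕ → ℂ) (N : ℕ) : CircleIntegrable (LL c N) 0 1 :=
  (continuous_LL c N).continuousOn.circleIntegrable (by norm_num)

theorem DL_nonneg (c : ℕ → ℂ) (N : ℕ) : 0 ≤ DL c N := by
  unfold DL
  exact sum_nonneg fun k _ => by positivity

theorem LL_zero (c : ℕ → ℂ) (N : ℕ) : LL c N 0 = 0 := by
  unfold LL
  have h : ∑ k ∈ Finset.Ico 1 N, c k * (0 : ℂ) ^ k / k = 0 := by
    refine sum_eq_zero fun k hk => ?_
    have : k ≠ 0 := by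
      have := (mem_Ico.1 hk).1
      omega
    rw [zero_pow this, mul_zero, zero_div]
  rw [h, Complex.zero_re]

private theorem basic_harmonic (c : ℕ → ℂ) (N : ℕ) (z : ℂ) :
    InnerProductSpace.HarmonicAt (LL c N) z := by
  have h1 : AnalyticAt ℂ (fun z : ℂ => ∑ k ∈ Finset.Ico 1 N, c k * z ^ k / k) z := by
    fun_prop
  exact h1.harmonicAt_re

theorem LL_eq_PP (c : ℕ → ℂ) (N : ℕ) (z : ℂ) (hz : ‖z‖ < 1) : LL c N z = PP (LL c N) z := by
  have hh : InnerProductSpace.HarmonicOnNhd (LL c N) (Metric.closedBall 0 1) :=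
    fun ζ _ => basic_harmonic c N ζ
  have hz' : z ∈ Metric.ball (0 : ℂ) 1 := by simpa using hz
  exact (hh.circleAverage_poissonKernel_smul hz').symm

private theorem basic_PP_zero (W : ℂ → ℝ) : PP W 0 = Real.circleAverage W 0 1 := by
  unfold PP
  refine Real.circleAverage_congr_sphere ?_
  intro ζ hζ
  have h : ‖ζ‖ = 1 := norm_of_mem_sphere hζ
  show poissonKernel 0 0 ζ * W ζ = W ζ
  rw [poissonKernel_zero_eq, norm_zero, sub_zero, h]
  norm_num

theorem circleAverage_LL (c : ℕ → ℂ) (N : ℕ) : Real.circleAverage (LL c N) 0 1 = 0 := by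
  rw [← basic_PP_zero, ← LL_eq_PP c N 0 (by simp), LL_zero]

/-- the mean of `VV y 0` over the unit circle is zero -/
theorem circleAverage_VV {m : ℕ} (y : Fin m → ℂ) (hy : ∀ l, ‖y l‖ ≤ 1) :
    Real.circleAverage (VV y 0) 0 1 = 0 := by
  rw [← basic_PP_zero, ← VV_eq_PP y hy 0 (by simp)]
  simp [VV]

theorem circleIntegrable_sub_LL {m : ℕ} (y : Fin m → ℂ) (c : ℕ → ℂ) (N : ℕ) :
    CircleIntegrable (fun ζ => VV y 0 ζ - LL c N ζ) 0 1 :=
  (circleIntegrable_VV y).sub (circleIntegrable_LL c N)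

/-- domination on the circle gives domination by the Poisson integral in the disc -/
theorem abs_sub_le_PP {m : ℕ} (y : Fin m → ℂ) (hy : ∀ l, ‖y l‖ ≤ 1) (c : ℕ → ℂ) (N : ℕ)
    (W : ℂ → ℝ) (hWi : CircleIntegrable W 0 1)
    (hWV : ∀ ζ : ℂ, ‖ζ‖ = 1 → |VV y 0 ζ - LL c N ζ| ≤ W ζ) (z : ℂ) (hz : ‖z‖ < 1) :
    |VV y 0 z - LL c N z| ≤ PP W z := by
  have hV := circleIntegrable_VV y
  have hL := circleIntegrable_LL c N
  have h1 : VV y 0 z ≤ PP W z + LL c N z := by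
    have h2 := PP_mono (VV y 0) (fun ζ => W ζ + LL c N ζ) hV (hWi.add hL)
      (fun ζ hζ => by
        have := (abs_le.1 (hWV ζ hζ)).2
        linarith) z hz
    rw [PP_add W (LL c N) hWi hL z hz, ← VV_eq_PP y hy z hz, ← LL_eq_PP c N z hz] at h2
    exact h2
  have h3 : LL c N z ≤ PP W z + VV y 0 z := by
    have h2 := PP_mono (LL c N) (fun ζ => W ζ + VV y 0 ζ) hL (hWi.add hV)
      (fun ζ hζ => by
        have := (abs_le.1 (hWV ζ hζ)).1
        linarith) z hz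
    rw [PP_add W (VV y 0) hWi hV z hz, ← VV_eq_PP y hy z hz, ← LL_eq_PP c N z hz] at h2
    exact h2
  rw [abs_le]
  constructor <;> linarith

theorem kapL_nonneg {m : ℕ} (y : Fin m → ℂ) (c : ℕ → ℂ) (N : ℕ) : 0 ≤ kapL y c N := by
  unfold kapL Real.circleAverage
  rw [smul_eq_mul]
  refine mul_nonneg (by positivity) ?_
  exact intervalIntegral.integral_nonneg (by positivity) fun θ _ => abs_nonneg _

end Pool.Agent.Lib.MP_7ab245_nt.TrE
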