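import Mathlib
import Pool.Agent.Lib.MP_7ab245_nt.TrE.Basic
import Pool.Agent.Lib.MP_7ab245_nt.Len.Refl

/-! Algebraic identities for `QQ`. -/

set_option autoImplicit false

open Polynomial Finset

namespace Pool.Agent.Lib.MP_7ab245_nt.TrE

open Pool.Agent.Lib.MP_7ab245_nt.Len
open Pool.Agent.Lib.MP_7ab245_nt.L1

private lemma psiAlg_geom (w : ℂ) (m : ℕ) (hm : 1 ≤ m) (h : 1 - w ≠ 0) :
    w ^ m / (1 - w) = w / (1 - w) - ∑ k ∈ Finset.Ico 1 m, w ^ k := by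
  induction m, hm using Nat.le_induction with
  | base => simp
  | succ m hm ih =>
    rw [Finset.sum_Ico_succ_top hm, ← sub_sub, ← ih]
    field_simp
    ring

theorem geom_ident {n : ℕ} (α : Fin n → ℂ) (m : ℕ) (hm : 1 ≤ m) (z : ℂ)
    (h : ∀ l, 1 - z * starRingEnd ℂ (α l) ≠ 0) :
    z ^ m * QQ α m z = ∑ l, z * starRingEnd ℂ (α l) / (1 - z * starRingEnd ℂ (α l)) -
      ∑ k ∈ Finset.Ico 1 m, pw α k * z ^ k := by
  have h1 : ∑ k ∈ Finset.Ico 1 m, pw α k * z ^ k =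
      ∑ l, ∑ k ∈ Finset.Ico 1 m, (z * starRingEnd ℂ (α l)) ^ k := by
    rw [Finset.sum_comm]
    apply Finset.sum_congr rfl
    intro k _
    rw [pw, Finset.sum_mul]
    apply Finset.sum_congr rfl
    intro l _
    rw [mul_pow, mul_comm]
  rw [h1, QQ, Finset.mul_sum, ← Finset.sum_sub_distrib]
  apply Finset.sum_congr rfl
  intro l _
  rw [← psiAlg_geom _ m hm (h l), mul_pow, mul_div_assoc]

private lemma psiAlg_ne_zero_of_one_lt {a : ℂ} (ha : 1 < ‖a‖) : a ≠ 0 := by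
  rintro rfl
  rw [norm_zero] at ha
  exact absurd ha (by norm_num)

/-- on the circle the factor of an outer point and of its reflection vanish together -/
private lemma psiAlg_refl_ne {a ζ : ℂ} (hζ : ‖ζ‖ = 1) (h : 1 - ζ * starRingEnd ℂ a ≠ 0) :
    1 - ζ * starRingEnd ℂ (Len.refl a) ≠ 0 := by
  rcases le_or_gt ‖a‖ 1 with h1 | h1
  · rwa [refl_of_le h1]
  · rw [refl_of_lt h1, map_inv₀, Complex.conj_conj]
    have ha := psiAlg_ne_zero_of_one_lt h1
    intro h2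
    have h3 : ζ * a⁻¹ = 1 := (sub_eq_zero.mp h2).symm
    have h4 := congrArg norm h3
    rw [norm_mul, hζ, one_mul, norm_inv, norm_one, inv_eq_one] at h4
    linarith

private lemma psiAlg_term {a ζ : ℂ} (hζ : ‖ζ‖ = 1) (h : 1 - ζ * starRingEnd ℂ a ≠ 0) :
    ζ * starRingEnd ℂ a / (1 - ζ * starRingEnd ℂ a) =
      (1 / (1 - ζ * starRingEnd ℂ (Len.refl a)) - 1) -
        (if 1 < ‖a‖ then ((poissonKernel 0 (Len.refl a) ζ : ℝ) : ℂ) else 0) := by
  rcases le_or_gt ‖a‖ 1 with h1 | h1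
  · rw [refl_of_le h1, if_neg (not_lt.mpr h1)]
    field_simp
    ring
  · rw [if_pos h1]
    have hr := psiAlg_refl_ne hζ h
    have ha := psiAlg_ne_zero_of_one_lt h1
    have hca : starRingEnd ℂ a ≠ 0 := (_root_.map_ne_zero _).mpr ha
    have hz1 : ζ * starRingEnd ℂ ζ = 1 := by
      rw [Complex.mul_conj, Complex.normSq_eq_norm_sq, hζ]; norm_num
    have hz0 : ζ ≠ 0 := by
      rintro rfl
      rw [norm_zero] at hζ
      exact zero_ne_one hζ
    have hcz : starRingEnd ℂ ζ = ζ⁻¹ := (inv_eq_of_mul_eq_one_right hz1).symm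
    have hrefl : Len.refl a = (starRingEnd ℂ a)⁻¹ := refl_of_lt h1
    rw [hrefl, map_inv₀, Complex.conj_conj] at hr ⊢
    -- the Poisson kernel
    have hP : ((poissonKernel 0 (starRingEnd ℂ a)⁻¹ ζ : ℝ) : ℂ) =
        (1 - (starRingEnd ℂ a)⁻¹ * a⁻¹) / ((ζ - (starRingEnd ℂ a)⁻¹) * (ζ⁻¹ - a⁻¹)) := by
      rw [poissonKernel_def]
      push_cast
      have e1 : ((‖ζ - 0‖ : ℝ) : ℂ) ^ 2 = 1 := by rw [sub_zero, hζ]; norm_num
      have e2 : ((‖(starRingEnd ℂ a)⁻¹ - 0‖ : ℝ) : ℂ) ^ 2 = (starRingEnd ℂ a)⁻¹ * a⁻¹ := by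
        rw [sub_zero, ← Complex.ofReal_pow, ← Complex.normSq_eq_norm_sq, ← Complex.mul_conj,
          map_inv₀, Complex.conj_conj]
      have e3 : ((‖ζ - 0 - ((starRingEnd ℂ a)⁻¹ - 0)‖ : ℝ) : ℂ) ^ 2 =
          (ζ - (starRingEnd ℂ a)⁻¹) * (ζ⁻¹ - a⁻¹) := by
        rw [sub_zero, sub_zero, ← Complex.ofReal_pow, ← Complex.normSq_eq_norm_sq,
          ← Complex.mul_conj, map_sub, map_inv₀, Complex.conj_conj, hcz]
      rw [e1, e2, e3]
    rw [hP]
    have hd1 : ζ - (starRingEnd ℂ a)⁻¹ ≠ 0 := by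
      intro h2
      apply h
      rw [sub_eq_zero.mp h2, inv_mul_cancel₀ hca, sub_self]
    have hd2 : ζ⁻¹ - a⁻¹ ≠ 0 := by
      intro h2
      apply hr
      rw [← sub_eq_zero.mp h2, mul_inv_cancel₀ hz0, sub_self]
    have hd3 : a - ζ ≠ 0 := by
      intro h2
      apply hr
      rw [← sub_eq_zero.mp h2, mul_inv_cancel₀ ha, sub_self]
    have hd4 : ζ * starRingEnd ℂ a - 1 ≠ 0 := by
      intro h2
      apply h
      rw [← neg_eq_zero, neg_sub]; exact h2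
    field_simp
    ring

theorem QQ_circle {n : ℕ} (hn : 0 < n) (α : Fin n → ℂ) (m : ℕ) (hm : 1 ≤ m) (ζ : ℂ)
    (hζ : ‖ζ‖ = 1) (h : ∀ l, 1 - ζ * starRingEnd ℂ (α l) ≠ 0) :
    ‖QQ α m ζ‖ ≤ n * ‖RR (fun l => Len.refl (α l)) ζ - 1‖ + PN α (fun _ => 1) ζ +
      ‖∑ k ∈ Finset.Ico 1 m, pw α k * ζ ^ k‖ := by
  have h1 := geom_ident α m hm ζ h
  have h2 : ‖QQ α m ζ‖ = ‖ζ ^ m * QQ α m ζ‖ := by
    rw [norm_mul, norm_pow, hζ, one_pow, one_mul]
  have hn0 : (n : ℂ) ≠ 0 := Nat.cast_ne_zero.mpr hn.ne'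
  have h3 : ∑ l, ζ * starRingEnd ℂ (α l) / (1 - ζ * starRingEnd ℂ (α l)) =
      n * (RR (fun l => Len.refl (α l)) ζ - 1) - ((PN α (fun _ => 1) ζ : ℝ) : ℂ) := by
    rw [Finset.sum_congr rfl fun l _ => psiAlg_term hζ (h l), Finset.sum_sub_distrib,
      Finset.sum_sub_distrib, RR, PN, mul_sub, mul_div_cancel₀ _ hn0]
    simp only [Finset.sum_const, Finset.card_univ, Fintype.card_fin, nsmul_eq_mul, mul_one, one_mul]
    congr 1
    rw [Finset.sum_filter]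
    push_cast
    apply Finset.sum_congr rfl
    intro l _
    split_ifs <;> simp
  have hPN : 0 ≤ PN α (fun _ => 1) ζ := by
    rw [PN]
    apply Finset.sum_nonneg
    intro l hl
    rw [Finset.mem_filter] at hl
    rw [one_mul, poissonKernel_def]
    apply div_nonneg _ (sq_nonneg _)
    rw [sub_zero, sub_zero, hζ]
    have := norm_refl_le (α l)
    nlinarith [norm_nonneg (Len.refl (α l))]
  rw [h2, h1, h3]
  refine (norm_sub_le _ _).trans ?_
  gcongr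
  refine (norm_sub_le _ _).trans ?_
  rw [norm_mul, Complex.norm_natCast, Complex.norm_real, Real.norm_of_nonneg hPN]

theorem Lam_circle {n : ℕ} (α : Fin n → ℂ) (ζ : ℂ) (hζ : ‖ζ‖ = 1)
    (h : ∀ l, 1 - ζ * starRingEnd ℂ (α l) ≠ 0) : Lam α ζ = 0 := by
  rw [Lam, hh, VV, VV]
  rw [show (∑ i, Real.posLog ‖α i‖) + (0 - ∑ j, Real.log ‖1 - ζ * starRingEnd ℂ (α j)‖) -
      (0 - ∑ j, Real.log ‖1 - ζ * starRingEnd ℂ (Len.refl (α j))‖) =
      ∑ i, (Real.posLog ‖α i‖ - Real.log ‖1 - ζ * starRingEnd ℂ (α i)‖ +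
        Real.log ‖1 - ζ * starRingEnd ℂ (Len.refl (α i))‖) by
    rw [Finset.sum_add_distrib, Finset.sum_sub_distrib]; ring]
  apply Finset.sum_eq_zero
  intro l _
  have h1 := norm_F_eq (α l) ζ hζ
  have h2 : ‖1 - ζ * starRingEnd ℂ (α l)‖ = ‖ζ - α l‖ := by
    have hz1 : ζ * starRingEnd ℂ ζ = 1 := by
      rw [Complex.mul_conj, Complex.normSq_eq_norm_sq, hζ]; norm_num
    have : 1 - ζ * starRingEnd ℂ (α l) = ζ * starRingEnd ℂ (ζ - α l) := by
      rw [map_sub, mul_sub, hz1]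
    rw [this, norm_mul, RCLike.norm_conj, hζ, one_mul]
  have h3 : 0 < ‖1 - ζ * starRingEnd ℂ (Len.refl (α l))‖ :=
    norm_pos_iff.mpr (psiAlg_refl_ne hζ (h l))
  have hmx : (0:ℝ) < max 1 ‖α l‖ := lt_of_lt_of_le one_pos (le_max_left _ _)
  rw [h2, ← h1, Real.log_mul h3.ne' hmx.ne', ← Real.posLog_eq_log_max_one (norm_nonneg _)]
  ring

/-- the real part of `1 / (1 - w)` is at least `1 / 2` for `|w| ≤ 1`, `w ≠ 1` -/
theorem half_le_norm_RR {n : ℕ} (hn : 0 < n) (y : Fin n → ℂ) (hy : ∀ l, ‖y l‖ ≤ 1) (z : ℂ)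
    (hz : ‖z‖ ≤ 1) (h : ∀ l, 1 - z * starRingEnd ℂ (y l) ≠ 0) : 1 / 2 ≤ ‖RR y z‖ := by
  have hterm : ∀ l, 1 / 2 ≤ (1 / (1 - z * starRingEnd ℂ (y l))).re := by
    intro l
    set w := z * starRingEnd ℂ (y l) with hw
    have hw1 : ‖w‖ ≤ 1 := by
      rw [hw, norm_mul, RCLike.norm_conj]
      exact mul_le_one₀ hz (norm_nonneg _) (hy l)
    have hpos : 0 < Complex.normSq (1 - w) := Complex.normSq_pos.mpr (h l)
    rw [one_div (1 - w), Complex.inv_re, le_div_iff₀ hpos]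
    have h2 : Complex.normSq w ≤ 1 := by
      rw [Complex.normSq_eq_norm_sq]; nlinarith [norm_nonneg w]
    rw [Complex.normSq_apply] at h2 ⊢
    simp only [Complex.sub_re, Complex.sub_im, Complex.one_re, Complex.one_im]
    nlinarith
  have hn0 : (0 : ℝ) < n := Nat.cast_pos.mpr hn
  refine le_trans ?_ (Complex.re_le_norm _)
  have h1 : (RR y z).re = (∑ l, (1 / (1 - z * starRingEnd ℂ (y l))).re) / n := by
    rw [RR, Complex.div_natCast_re, Complex.re_sum]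
  rw [h1, le_div_iff₀ hn0]
  have h2 : ∑ _l : Fin n, (1 / 2 : ℝ) ≤ ∑ l, (1 / (1 - z * starRingEnd ℂ (y l))).re :=
    Finset.sum_le_sum fun l _ => hterm l
  simp only [Finset.sum_const, Finset.card_univ, Fintype.card_fin, nsmul_eq_mul] at h2
  linarith

private lemma psiAlg_polar {a : ℂ} (ha : a ≠ 0) :
    a = Complex.exp ((Real.log ‖a‖ : ℝ) + (a.arg : ℂ) * Complex.I) := by
  rw [Complex.exp_add, ← Complex.ofReal_exp, Real.exp_log (norm_pos_iff.mpr ha)]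
  exact (Complex.norm_mul_exp_arg_mul_I a).symm

private lemma psiAlg_exp_ne (a ψ : ℝ) (h : Real.cos ψ ≠ 1) :
    1 - Complex.exp ((a : ℂ) + (ψ : ℂ) * Complex.I) ≠ 0 := by
  intro h1
  have h2 : Complex.exp ((a : ℂ) + (ψ : ℂ) * Complex.I) = 1 := (sub_eq_zero.mp h1).symm
  have h3 := congrArg norm h2
  rw [Complex.norm_exp, norm_one] at h3
  have h4 : ((a : ℂ) + (ψ : ℂ) * Complex.I).re = a := by simp
  rw [h4] at h3
  have h5 := congrArg Complex.re h2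
  rw [Complex.exp_re] at h5
  have h6 : ((a : ℂ) + (ψ : ℂ) * Complex.I).im = ψ := by simp
  rw [h4, h6, h3, one_mul, Complex.one_re] at h5
  exact h h5

/-- generic angles: the factors do not vanish on the ray -/
theorem Gen_ne {n : ℕ} (α : Fin n → ℂ) (hα : ∀ l, α l ≠ 0) (θ : ℝ) (hθ : Gen α θ) (s : ℝ) (l : Fin n) :
    1 - pt s θ * starRingEnd ℂ (α l) ≠ 0 := by
  have h1 : pt s θ * starRingEnd ℂ (α l) =
      Complex.exp (((Real.log ‖α l‖ - s : ℝ) : ℂ) + ((θ - (α l).arg : ℝ) : ℂ) * Complex.I) := by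
    conv_lhs => rw [psiAlg_polar (hα l)]
    rw [pt, ← Complex.exp_conj, ← Complex.exp_add]
    congr 1
    simp only [map_add, map_mul, Complex.conj_ofReal, Complex.conj_I]
    push_cast
    ring
  rw [h1]
  exact psiAlg_exp_ne _ _ (hθ l)

theorem Gen_ne_refl {n : ℕ} (α : Fin n → ℂ) (hα : ∀ l, α l ≠ 0) (θ : ℝ) (hθ : Gen α θ) (s : ℝ)
    (l : Fin n) : 1 - pt s θ * starRingEnd ℂ (Len.refl (α l)) ≠ 0 := by
  rcases le_or_gt ‖α l‖ 1 with h1 | h1
  · rw [refl_of_le h1]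
    exact Gen_ne α hα θ hθ s l
  · have h2 : pt s θ * starRingEnd ℂ (Len.refl (α l)) =
      Complex.exp (((-(s + Real.log ‖α l‖) : ℝ) : ℂ) + ((θ - (α l).arg : ℝ) : ℂ) * Complex.I) := by
      rw [refl_of_lt h1, map_inv₀, Complex.conj_conj]
      conv_lhs => rw [psiAlg_polar (hα l)]
      rw [pt, ← Complex.exp_neg, ← Complex.exp_add]
      congr 1
      push_cast
      ring
    rw [h2]
    exact psiAlg_exp_ne _ _ (hθ l)

/-- all but finitely many angles of a period are generic -/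
theorem Gen_cofinite {n : ℕ} (α : Fin n → ℂ) :
    {θ : ℝ | θ ∈ Set.Icc 0 (2 * Real.pi) ∧ ¬ Gen α θ}.Finite := by
  have h1 : {θ : ℝ | θ ∈ Set.Icc 0 (2 * Real.pi) ∧ ¬ Gen α θ} ⊆
      ⋃ l : Fin n, ⋃ k ∈ Finset.Icc (-2 : ℤ) 2, {(k : ℝ) * (2 * Real.pi) + (α l).arg} := by
    intro θ hθ
    obtain ⟨⟨h0, h1⟩, h2⟩ := hθ
    rw [Gen] at h2
    push Not at h2
    obtain ⟨l, hl⟩ := h2
    rw [Real.cos_eq_one_iff] at hl
    obtain ⟨k, hk⟩ := hl
    have hπ := Real.pi_pos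
    have ha := Complex.neg_pi_lt_arg (α l)
    have hb := Complex.arg_le_pi (α l)
    simp only [Set.mem_iUnion, Set.mem_singleton_iff]
    refine ⟨l, k, ?_, by linarith⟩
    rw [Finset.mem_Icc]
    constructor
    · by_contra h3
      push Not at h3
      have h4 : (k : ℝ) ≤ -3 := by exact_mod_cast (by omega : k ≤ -3)
      nlinarith
    · by_contra h3
      push Not at h3
      have h4 : (3 : ℝ) ≤ k := by exact_mod_cast (by omega : 3 ≤ k)
      nlinarith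
  apply Set.Finite.subset _ h1
  apply Set.finite_iUnion
  intro l
  exact (Finset.finite_toSet _).biUnion fun k _ => Set.finite_singleton _

end Pool.Agent.Lib.MP_7ab245_nt.TrE
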