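import Mathlib
import Pool.Agent.Lib.MP_7ab245_nt.TrE.Basic

/-! Mean squares of differences of `LL` at two heights. -/

set_option autoImplicit false

open Polynomial Finset

namespace Pool.Agent.Lib.MP_7ab245_nt.TrE

open Pool.Agent.Lib.MP_7ab245_nt.Len
open Pool.Agent.Lib.MP_7ab245_nt.L1

private theorem pv_pt (θ : ℝ) : pt 0 θ = circleMap 0 1 θ := by
  unfold pt circleMap
  simp

private theorem pv_cont (s : ℝ) : Continuous (pt s) := by
  unfold pt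
  fun_prop

/-- mean square of a trigonometric polynomial with positive frequencies -/
theorem avg_normSq (a : ℕ → ℂ) (N : ℕ) :
    (2 * Real.pi)⁻¹ * ∫ θ in (0 : ℝ)..(2 * Real.pi),
      ‖∑ k ∈ Finset.Ico 1 N, a k * (pt 0 θ) ^ k‖ ^ 2 = ∑ k ∈ Finset.Ico 1 N, ‖a k‖ ^ 2 := by
  set P : ℂ[X] := ∑ k ∈ Finset.Ico 1 N, C (a k) * X ^ k with hP
  have hev : ∀ z : ℂ, P.eval z = ∑ k ∈ Finset.Ico 1 N, a k * z ^ k := by
    intro z
    rw [hP, eval_finsetSum]
    simp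
  have hco : ∀ i, P.coeff i = if i ∈ Finset.Ico 1 N then a i else 0 := by
    intro i
    rw [hP, finsetSum_coeff]
    simp only [coeff_C_mul, coeff_X_pow, mul_ite, mul_one, mul_zero]
    rw [Finset.sum_ite_eq]
  have h1 := P.sum_sq_norm_coeff_eq_circleAverage
  have h2 : ∑ i ∈ P.support, ‖P.coeff i‖ ^ 2 = ∑ k ∈ Finset.Ico 1 N, ‖a k‖ ^ 2 := by
    have hsub : P.support ⊆ Finset.Ico 1 N := by
      intro i hi
      rw [mem_support_iff, hco] at hi
      by_contra h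
      rw [if_neg h] at hi
      exact hi rfl
    rw [Finset.sum_subset hsub (fun i _ hi => by
      rw [notMem_support_iff] at hi
      rw [hi]; simp)]
    refine Finset.sum_congr rfl fun i hi => ?_
    rw [hco, if_pos hi]
  rw [← h2, h1, Real.circleAverage, smul_eq_mul]
  congr 1
  refine intervalIntegral.integral_congr fun θ _ => ?_
  show _ = ‖P.eval (circleMap 0 1 θ)‖ ^ 2
  rw [hev, ← pv_pt]

private theorem pv_pt_pow (s θ : ℝ) (k : ℕ) :
    (pt s θ) ^ k = (Real.exp (-(k * s)) : ℂ) * (pt 0 θ) ^ k := by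
  unfold pt
  rw [← Complex.exp_nat_mul, ← Complex.exp_nat_mul, Complex.ofReal_exp, ← Complex.exp_add]
  congr 1
  push_cast
  ring

/-- mean square of the difference of `LL` at the heights `s` and `t` -/
theorem avg_LL_sub_sq (c : ℕ → ℂ) (N : ℕ) (s t : ℝ) :
    (2 * Real.pi)⁻¹ * ∫ θ in (0 : ℝ)..(2 * Real.pi),
      (LL c N (pt s θ) - LL c N (pt t θ)) ^ 2 ≤
      ∑ k ∈ Finset.Ico 1 N, ‖c k‖ ^ 2 / (k : ℝ) ^ 2 *
        (Real.exp (-(k * s)) - Real.exp (-(k * t))) ^ 2 := by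
  set a : ℕ → ℂ := fun k => c k / k * ((Real.exp (-(k * s)) : ℂ) - (Real.exp (-(k * t)) : ℂ))
    with ha
  have h1 : ∀ θ : ℝ, LL c N (pt s θ) - LL c N (pt t θ) =
      (∑ k ∈ Finset.Ico 1 N, a k * (pt 0 θ) ^ k).re := by
    intro θ
    unfold LL
    rw [← Complex.sub_re, ← Finset.sum_sub_distrib]
    congr 1
    refine Finset.sum_congr rfl fun k _ => ?_
    rw [pv_pt_pow s, pv_pt_pow t]
    simp only [ha]
    ring
  have h2 : ∑ k ∈ Finset.Ico 1 N, ‖c k‖ ^ 2 / (k : ℝ) ^ 2 *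
        (Real.exp (-(k * s)) - Real.exp (-(k * t))) ^ 2 = ∑ k ∈ Finset.Ico 1 N, ‖a k‖ ^ 2 := by
    refine Finset.sum_congr rfl fun k _ => ?_
    simp only [ha]
    rw [norm_mul, norm_div, Complex.norm_natCast, ← Complex.ofReal_sub, Complex.norm_real,
      mul_pow, div_pow, Real.norm_eq_abs, sq_abs]
  rw [h2, ← avg_normSq]
  refine mul_le_mul_of_nonneg_left ?_ (by positivity)
  have hc1 : Continuous fun θ : ℝ => (LL c N (pt s θ) - LL c N (pt t θ)) ^ 2 :=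
    (((continuous_LL c N).comp (pv_cont s)).sub ((continuous_LL c N).comp (pv_cont t))).pow 2
  have hc2 : Continuous fun θ : ℝ => ‖∑ k ∈ Finset.Ico 1 N, a k * (pt 0 θ) ^ k‖ ^ 2 := by
    have := pv_cont 0
    fun_prop
  refine intervalIntegral.integral_mono_on (by positivity) (hc1.intervalIntegrable _ _)
    (hc2.intervalIntegrable _ _) fun θ _ => ?_
  rw [h1 θ, ← sq_abs]
  exact pow_le_pow_left₀ (abs_nonneg _) (Complex.abs_re_le_norm _) 2

private theorem pv_elem (x : ℝ) (hx : 0 < x) :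
    (Real.exp (-x) - Real.exp (-(2 * x))) ^ 2 / x ≤ Real.exp (-x) - Real.exp (-(2 * x)) := by
  have h1 : Real.exp (-(2 * x)) = Real.exp (-x) * Real.exp (-x) := by
    rw [← Real.exp_add]; congr 1; ring
  have h2 : 1 - x ≤ Real.exp (-x) := by
    have := Real.add_one_le_exp (-x)
    linarith
  have h3 : Real.exp (-x) ≤ 1 := Real.exp_le_one_iff.2 (by linarith)
  have h4 : 0 < Real.exp (-x) := Real.exp_pos _
  rw [div_le_iff₀ hx, h1, sq]
  have h5 : 0 ≤ Real.exp (-x) - Real.exp (-x) * Real.exp (-x) := by nlinarith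
  refine mul_le_mul_of_nonneg_left ?_ h5
  nlinarith

/-- the sum over the dyadic heights `2^i / m` -/
theorem dyadic_sum (c : ℕ → ℂ) (N m I : ℕ) (hm : 0 < m) :
    ∑ i ∈ Finset.range I, ((2 : ℝ) ^ i)⁻¹ * ((2 * Real.pi)⁻¹ *
      ∫ θ in (0 : ℝ)..(2 * Real.pi),
        (LL c N (pt ((2 : ℝ) ^ i / m) θ) - LL c N (pt (2 * ((2 : ℝ) ^ i / m)) θ)) ^ 2) ≤
      DL c N / m := by
  have hmR : (0 : ℝ) < m := by exact_mod_cast hm
  have h1 : ∀ i ∈ Finset.range I, ((2 : ℝ) ^ i)⁻¹ * ((2 * Real.pi)⁻¹ *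
      ∫ θ in (0 : ℝ)..(2 * Real.pi),
        (LL c N (pt ((2 : ℝ) ^ i / m) θ) - LL c N (pt (2 * ((2 : ℝ) ^ i / m)) θ)) ^ 2) ≤
      ∑ k ∈ Finset.Ico 1 N, ‖c k‖ ^ 2 / (k : ℝ) / m *
        (Real.exp (-(k * ((2 : ℝ) ^ i / m))) - Real.exp (-(k * ((2 : ℝ) ^ (i + 1) / m)))) := by
    intro i _
    refine (mul_le_mul_of_nonneg_left (avg_LL_sub_sq c N _ _) (by positivity)).trans ?_
    rw [Finset.mul_sum]
    refine Finset.sum_le_sum fun k hk => ?_
    have hk1 : 1 ≤ k := (Finset.mem_Ico.1 hk).1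
    have hkR : (0 : ℝ) < k := by exact_mod_cast hk1
    set x : ℝ := k * ((2 : ℝ) ^ i / m) with hx
    have hx0 : 0 < x := by positivity
    have e1 : (k : ℝ) * (2 * ((2 : ℝ) ^ i / m)) = 2 * x := by rw [hx]; ring
    have e2 : (k : ℝ) * ((2 : ℝ) ^ (i + 1) / m) = 2 * x := by rw [hx, pow_succ]; ring
    rw [e1, e2]
    have h2 := pv_elem x hx0
    have e3 : ((2 : ℝ) ^ i)⁻¹ * (‖c k‖ ^ 2 / (k : ℝ) ^ 2 *
        (Real.exp (-x) - Real.exp (-(2 * x))) ^ 2) = ‖c k‖ ^ 2 / (k : ℝ) / m *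
        ((Real.exp (-x) - Real.exp (-(2 * x))) ^ 2 / x) := by
      rw [hx]
      field_simp
    rw [e3]
    exact mul_le_mul_of_nonneg_left h2 (by positivity)
  refine (Finset.sum_le_sum h1).trans ?_
  rw [Finset.sum_comm]
  unfold DL
  rw [Finset.sum_div]
  refine Finset.sum_le_sum fun k hk => ?_
  rw [← Finset.mul_sum,
    Finset.sum_range_sub' (fun i => Real.exp (-(k * ((2 : ℝ) ^ i / m))))]
  have h3 : Real.exp (-(k * ((2 : ℝ) ^ 0 / m))) - Real.exp (-(k * ((2 : ℝ) ^ I / m))) ≤ 1 := by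
    have h4 : Real.exp (-(k * ((2 : ℝ) ^ 0 / m))) ≤ 1 := by
      rw [Real.exp_le_one_iff]
      have : (0 : ℝ) ≤ k * ((2 : ℝ) ^ 0 / m) := by positivity
      linarith
    have h5 := Real.exp_pos (-(k * ((2 : ℝ) ^ I / m)))
    linarith
  calc ‖c k‖ ^ 2 / (k : ℝ) / m * _ ≤ ‖c k‖ ^ 2 / (k : ℝ) / m * 1 :=
        mul_le_mul_of_nonneg_left h3 (by positivity)
    _ = _ := mul_one _

/-- the lowest height -/
theorem base_sq (c : ℕ → ℂ) (N m : ℕ) (hm : 0 < m) :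
    (2 * Real.pi)⁻¹ * ∫ θ in (0 : ℝ)..(2 * Real.pi),
      (LL c N (pt 0 θ) - LL c N (pt (1 / m) θ)) ^ 2 ≤ DL c N / m := by
  have hmR : (0 : ℝ) < m := by exact_mod_cast hm
  refine (avg_LL_sub_sq c N 0 (1 / m)).trans ?_
  unfold DL
  rw [Finset.sum_div]
  refine Finset.sum_le_sum fun k hk => ?_
  have hk1 : 1 ≤ k := (Finset.mem_Ico.1 hk).1
  have hkR : (0 : ℝ) < k := by exact_mod_cast hk1
  set x : ℝ := k * (1 / m) with hx
  have hx0 : 0 < x := by positivity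
  rw [mul_zero, neg_zero, Real.exp_zero]
  have h2 : 1 - x ≤ Real.exp (-x) := by
    have := Real.add_one_le_exp (-x)
    linarith
  have h3 : Real.exp (-x) ≤ 1 := Real.exp_le_one_iff.2 (by linarith)
  have h4 : 0 < Real.exp (-x) := Real.exp_pos _
  have h5 : (1 - Real.exp (-x)) ^ 2 ≤ x := by nlinarith
  calc ‖c k‖ ^ 2 / (k : ℝ) ^ 2 * (1 - Real.exp (-x)) ^ 2 ≤ ‖c k‖ ^ 2 / (k : ℝ) ^ 2 * x :=
        mul_le_mul_of_nonneg_left h5 (by positivity)
    _ = ‖c k‖ ^ 2 / (k : ℝ) / m := by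
        rw [hx]
        field_simp

end Pool.Agent.Lib.MP_7ab245_nt.TrE
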