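import Mathlib
import Pool.Agent.Lib.MP_7ab245_nt.TrE.Basic
import Pool.Agent.Lib.MP_7ab245_nt.L1.Ker0

/-! The Cauchy-Schwarz inequality between a harmonic polynomial and a family of points. -/

set_option autoImplicit false

open Polynomial Finset

namespace Pool.Agent.Lib.MP_7ab245_nt.TrE

open Pool.Agent.Lib.MP_7ab245_nt.Len
open Pool.Agent.Lib.MP_7ab245_nt.L1

private theorem csl_hasSum (a b : ℂ) (ha : ‖a‖ < 1) (hb : ‖b‖ < 1) :
    HasSum (fun n : ℕ => ((a ^ n * starRingEnd ℂ (b ^ n)) / n).re) (ker 0 a b) := by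
  have hab : ‖a * starRingEnd ℂ b‖ < 1 := by
    rw [norm_mul, RCLike.norm_conj]
    nlinarith [norm_nonneg a, norm_nonneg b]
  have h1 := Complex.hasSum_re (Complex.hasSum_taylorSeries_neg_log hab)
  have h2 : (-Complex.log (1 - a * starRingEnd ℂ b)).re = ker 0 a b := by
    rw [ker_zero_eq, Complex.neg_re, Complex.log_re]
  rw [h2] at h1
  convert h1 using 3
  rw [mul_pow, map_pow]

theorem sum_LL_sq_le {ι : Type} [Fintype ι] (x : ι → ℂ) (hx : ∀ i, ‖x i‖ < 1) (c : ℕ → ℂ)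
    (N : ℕ) : (∑ i, LL c N (x i)) ^ 2 ≤ DL c N * IE x x := by
  set S : ℕ → ℂ := fun n => ∑ i, x i ^ n with hS
  have hsum : HasSum (fun n : ℕ => ‖S n‖ ^ 2 / (n : ℝ)) (IE x x) := by
    have h1 : HasSum (fun n : ℕ => ∑ i, ∑ j, ((x i ^ n * starRingEnd ℂ (x j ^ n)) / n).re)
        (IE x x) := by
      unfold IE
      exact hasSum_sum fun i _ => hasSum_sum fun j _ => csl_hasSum (x i) (x j) (hx i) (hx j)
    convert h1 using 1
    funext n
    have h2 : ∑ i, ∑ j, ((x i ^ n * starRingEnd ℂ (x j ^ n)) / (n : ℂ)).re =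
        ((S n * starRingEnd ℂ (S n)) / (n : ℂ)).re := by
      simp only [← Complex.re_sum]
      congr 1
      simp only [hS, map_sum, Finset.sum_mul_sum, Finset.sum_div]
    rw [h2, Complex.mul_conj, Complex.normSq_eq_norm_sq]
    have h3 : (((‖S n‖ ^ 2 : ℝ) : ℂ) / (n : ℂ)) = (((‖S n‖ ^ 2 / (n : ℝ)) : ℝ) : ℂ) := by
      push_cast
      rfl
    rw [h3, Complex.ofReal_re]
  have hle : ∑ k ∈ Finset.Ico 1 N, ‖S k‖ ^ 2 / (k : ℝ) ≤ IE x x :=
    sum_le_hasSum _ (fun k _ => by positivity) hsum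
  have h1 : ∑ i, LL c N (x i) = (∑ k ∈ Finset.Ico 1 N, c k * S k / k).re := by
    unfold LL
    rw [← Complex.re_sum, Finset.sum_comm]
    congr 1
    refine Finset.sum_congr rfl fun k _ => ?_
    rw [← Finset.sum_div, ← Finset.mul_sum]
  have h2 : |∑ i, LL c N (x i)| ≤ ∑ k ∈ Finset.Ico 1 N, ‖c k‖ * ‖S k‖ / k := by
    rw [h1]
    refine (Complex.abs_re_le_norm _).trans ((norm_sum_le _ _).trans (le_of_eq ?_))
    refine Finset.sum_congr rfl fun k _ => ?_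
    rw [norm_div, norm_mul, Complex.norm_natCast]
  have h3 : (∑ k ∈ Finset.Ico 1 N, ‖c k‖ * ‖S k‖ / (k : ℝ)) ^ 2 ≤
      (∑ k ∈ Finset.Ico 1 N, ‖c k‖ ^ 2 / (k : ℝ)) *
        ∑ k ∈ Finset.Ico 1 N, ‖S k‖ ^ 2 / (k : ℝ) := by
    refine Finset.sum_sq_le_sum_mul_sum_of_sq_le_mul _ (fun k _ => by positivity)
      (fun k _ => by positivity) fun k _ => le_of_eq ?_
    ring
  calc (∑ i, LL c N (x i)) ^ 2 = |∑ i, LL c N (x i)| ^ 2 := (sq_abs _).symm
    _ ≤ (∑ k ∈ Finset.Ico 1 N, ‖c k‖ * ‖S k‖ / (k : ℝ)) ^ 2 :=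
        pow_le_pow_left₀ (abs_nonneg _) h2 2
    _ ≤ _ := h3
    _ ≤ DL c N * IE x x := mul_le_mul_of_nonneg_left hle (DL_nonneg c N)

end Pool.Agent.Lib.MP_7ab245_nt.TrE
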