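import Mathlib
import Pool.Agent.Lib.MP_7ab245_nt.TrE.CountL2
import Pool.Agent.Lib.MP_7ab245_nt.TrE.EnergyL
import Pool.Agent.Lib.MP_7ab245_nt.L1.Ana

/-! Choice of the smoothing of the points. -/

set_option autoImplicit false

open Polynomial Finset

namespace Pool.Agent.Lib.MP_7ab245_nt.TrE

open Pool.Agent.Lib.MP_7ab245_nt.Len
open Pool.Agent.Lib.MP_7ab245_nt.L1

/-- `|V - L|` summed over the rotations by the fourth roots of unity -/
noncomputable def anaL_W {m : ℕ} (y : Fin m → ℂ) (c : ℕ → ℂ) (N : ℕ) (ζ : ℂ) : ℝ :=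
  ∑ k ∈ Finset.range 4, |VV y 0 (Complex.I ^ k * ζ) - LL c N (Complex.I ^ k * ζ)|

private theorem anaL_W_rot {m : ℕ} (y : Fin m → ℂ) (c : ℕ → ℂ) (N : ℕ) (ζ : ℂ) :
    anaL_W y c N (Complex.I * ζ) = anaL_W y c N ζ := by
  unfold anaL_W
  simp only [Finset.sum_range_succ, Finset.sum_range_zero, zero_add]
  have h0 : Complex.I ^ 0 * (Complex.I * ζ) = Complex.I ^ 1 * ζ := by ring
  have h1 : Complex.I ^ 1 * (Complex.I * ζ) = Complex.I ^ 2 * ζ := by ring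
  have h2 : Complex.I ^ 2 * (Complex.I * ζ) = Complex.I ^ 3 * ζ := by ring
  have h3 : Complex.I ^ 3 * (Complex.I * ζ) = Complex.I ^ 0 * ζ := by
    have : Complex.I ^ 3 * (Complex.I * ζ) = Complex.I ^ 4 * ζ := by ring
    rw [this, Complex.I_pow_four, pow_zero]
  rw [h0, h1, h2, h3]
  ring

private theorem anaL_W_neg {m : ℕ} (y : Fin m → ℂ) (c : ℕ → ℂ) (N : ℕ) (ζ : ℂ) :
    anaL_W y c N (-ζ) = anaL_W y c N ζ := by
  have h : -ζ = Complex.I * (Complex.I * ζ) := by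
    rw [← mul_assoc, Complex.I_mul_I]; ring
  rw [h, anaL_W_rot, anaL_W_rot]

private theorem anaL_le_W {m : ℕ} (y : Fin m → ℂ) (c : ℕ → ℂ) (N : ℕ) (ζ : ℂ) :
    |VV y 0 ζ - LL c N ζ| ≤ anaL_W y c N ζ := by
  unfold anaL_W
  have h := Finset.single_le_sum
    (f := fun k : ℕ => |VV y 0 (Complex.I ^ k * ζ) - LL c N (Complex.I ^ k * ζ)|)
    (s := Finset.range 4) (fun k _ => abs_nonneg _) (Finset.mem_range.mpr (show 0 < 4 by norm_num))
  simpa using h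

private theorem anaL_W_nonneg {m : ℕ} (y : Fin m → ℂ) (c : ℕ → ℂ) (N : ℕ) (ζ : ℂ) :
    0 ≤ anaL_W y c N ζ :=
  (abs_nonneg _).trans (anaL_le_W y c N ζ)

private theorem anaL_int_VV {m : ℕ} (y : Fin m → ℂ) (ω : ℂ) :
    CircleIntegrable (fun ζ => VV y 0 (ω * ζ)) 0 1 := by
  have h : (fun ζ => VV y 0 (ω * ζ)) = fun ζ => VV (fun l => starRingEnd ℂ ω * y l) 0 ζ := by
    funext ζ
    rw [ana_VV_rot]
  rw [h]
  exact circleIntegrable_VV _

private theorem anaL_int_abs {m : ℕ} (y : Fin m → ℂ) (c : ℕ → ℂ) (N : ℕ) (ω : ℂ) :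
    CircleIntegrable (fun ζ => |VV y 0 (ω * ζ) - LL c N (ω * ζ)|) 0 1 := by
  have h1 : CircleIntegrable (fun ζ => LL c N (ω * ζ)) 0 1 :=
    ((continuous_LL c N).comp (continuous_const.mul continuous_id)).continuousOn.circleIntegrable
      (by norm_num)
  exact ((anaL_int_VV y ω).sub h1).abs

private theorem anaL_int_W {m : ℕ} (y : Fin m → ℂ) (c : ℕ → ℂ) (N : ℕ) :
    CircleIntegrable (anaL_W y c N) 0 1 := by
  have h : anaL_W y c N = ∑ k ∈ Finset.range 4,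
      fun ζ => |VV y 0 (Complex.I ^ k * ζ) - LL c N (Complex.I ^ k * ζ)| := by
    funext ζ
    rw [Finset.sum_apply]
    rfl
  rw [h]
  exact CircleIntegrable.sum _ fun k _ => anaL_int_abs y c N _

private theorem anaL_average_W {m : ℕ} (y : Fin m → ℂ) (c : ℕ → ℂ) (N : ℕ) :
    Real.circleAverage (anaL_W y c N) 0 1 = 4 * kapL y c N := by
  have h : anaL_W y c N = ∑ k ∈ Finset.range 4,
      fun ζ => |VV y 0 (Complex.I ^ k * ζ) - LL c N (Complex.I ^ k * ζ)| := by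
    funext ζ
    rw [Finset.sum_apply]
    rfl
  rw [h, Real.circleAverage_sum (fun k _ => anaL_int_abs y c N _)]
  have h2 : ∀ k ∈ Finset.range 4, Real.circleAverage
      (fun ζ => |VV y 0 (Complex.I ^ k * ζ) - LL c N (Complex.I ^ k * ζ)|) 0 1 = kapL y c N := by
    intro k _
    exact ana_average_rot (fun ζ => |VV y 0 ζ - LL c N ζ|) k
  rw [Finset.sum_congr rfl h2]
  simp

theorem analysis_mainL : ∃ C : ℝ, 1 ≤ C ∧ ∀ (m : ℕ) (y : Fin m → ℂ), 0 < m →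
    (∀ l, ‖y l‖ ≤ 1) → (∀ l, y l ≠ 0) → ∀ (c : ℕ → ℂ) (N : ℕ) (K : ℝ),
    K = kapL y c N + DL c N / m + ∑ l, -Real.log ‖y l‖ →
    ∀ B : ℝ, 1 ≤ B → ∃ s : ℂ → ℝ, (∀ z, 0 < s z) ∧ (∀ z, s (Complex.I * z) = s z) ∧
      ∑ l, s (y l) ≤ C * (1 + K) / B ∧
      (∀ ρ : Fin m → ℂ, (∀ l, ρ l ^ 2 = y l) → ∑ l, s (ρ l) ≤ C * (1 + K) / B) ∧
      IE (fun l => sm s (y l)) (fun l => sm s (y l)) ≤ C * m * (1 + K) * (1 + Real.log B) := by
  refine ⟨2000000, by norm_num, ?_⟩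
  intro m y hm hy h0 c N K hK B hB
  set W : ℂ → ℝ := anaL_W y c N with hW
  set W' : ℂ → ℝ := fun ζ => W ζ + TT W ζ with hW'
  have hWi : CircleIntegrable W 0 1 := anaL_int_W y c N
  have hWn : ∀ ζ : ℂ, ‖ζ‖ = 1 → W (-ζ) = W ζ := fun ζ _ => anaL_W_neg y c N ζ
  have hTi : CircleIntegrable (TT W) 0 1 := circleIntegrable_TT W hWi hWn
  have hWi' : CircleIntegrable W' 0 1 := hWi.add hTi
  have hW0 : ∀ ζ : ℂ, 0 ≤ W ζ := anaL_W_nonneg y c N
  have hT0 : ∀ ζ : ℂ, 0 ≤ TT W ζ := fun ζ => mul_nonneg (by norm_num) (hW0 _)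
  have hWV : ∀ ζ : ℂ, ‖ζ‖ = 1 → |VV y 0 ζ - LL c N ζ| ≤ W ζ := fun ζ _ => anaL_le_W y c N ζ
  have hWV' : ∀ ζ : ℂ, ‖ζ‖ = 1 → |VV y 0 ζ - LL c N ζ| ≤ W' ζ := fun ζ _ =>
    (anaL_le_W y c N ζ).trans (le_add_of_nonneg_right (hT0 ζ))
  have hmean : Real.circleAverage W' 0 1 = 12 * kapL y c N := by
    have h1 : Real.circleAverage W' 0 1 =
        Real.circleAverage W 0 1 + Real.circleAverage (TT W) 0 1 :=
      Real.circleAverage_add hWi hTi
    rw [h1, circleAverage_TT W hWi hWn, anaL_average_W]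
    ring
  set δ : ℝ := ∑ l, -Real.log ‖y l‖ with hδ
  have hδ0 : 0 ≤ δ := Finset.sum_nonneg fun l _ => by
    have := Real.log_nonpos (norm_nonneg (y l)) (hy l)
    linarith
  have hk0 : 0 ≤ kapL y c N := kapL_nonneg y c N
  have hm0 : (0 : ℝ) < m := by exact_mod_cast hm
  have hD0 : 0 ≤ DL c N := DL_nonneg c N
  have hDm0 : 0 ≤ DL c N / m := by positivity
  have hK0 : 0 ≤ K := by rw [hK]; linarith
  have hcount := count_mainL hm y hy h0 c N W' hWi' hWV'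
  rw [hmean] at hcount
  have hB0 : (0 : ℝ) < B := by linarith
  have hcount' : ∑ l, (2 : ℝ) ^ (JJ W' m (y l)) ≤ 48000 * m * (1 + K) := by
    refine hcount.trans ?_
    rw [hK]
    nlinarith [mul_nonneg hm0.le hk0, mul_nonneg hm0.le hδ0, mul_nonneg hm0.le hDm0]
  have hJ1 : ∀ l, JJ W m (y l) ≤ JJ W' m (y l) := fun l =>
    ana_JJ_le W W' hWi hWi' (fun ζ _ => hW0 ζ) (fun ζ _ => le_add_of_nonneg_right (hT0 ζ)) m hm _
  have hJ2 : ∀ ρ : ℂ, ρ ≠ 0 → JJ W m ρ ≤ JJ W' m (ρ ^ 2) := fun ρ hρ =>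
    ana_JJ_sq W W' hWi hWi' (fun ζ _ => hW0 ζ) hWn
      (fun ζ _ => le_add_of_nonneg_left (hW0 ζ)) m hm ρ hρ
  have hsumJ : ∀ g : Fin m → ℕ, (∀ l, g l ≤ JJ W' m (y l)) →
      ∑ l, (2 : ℝ) ^ (g l) ≤ 48000 * m * (1 + K) := by
    intro g hg
    refine le_trans (Finset.sum_le_sum fun l _ => ?_) hcount'
    exact pow_le_pow_right₀ (by norm_num) (hg l)
  have hsum : ∀ g : Fin m → ℕ, (∀ l, g l ≤ JJ W' m (y l)) →
      ∑ l, (2 : ℝ) ^ (g l) / (m * B) ≤ 48000 * (1 + K) / B := by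
    intro g hg
    rw [← Finset.sum_div, div_le_div_iff₀ (by positivity) hB0]
    have := hsumJ g hg
    nlinarith
  have hlog : 0 ≤ Real.log B := Real.log_nonneg hB
  have hC : 48000 * (1 + K) / B ≤ 2000000 * (1 + K) / B := by
    apply div_le_div_of_nonneg_right _ hB0.le
    nlinarith
  refine ⟨fun z => (2 : ℝ) ^ (JJ W m z) / (m * B), ?_, ?_, ?_, ?_, ?_⟩
  · intro z; positivity
  · intro z
    simp only
    rw [ana_JJ_rot W (fun ζ _ => anaL_W_rot y c N ζ) m hm z]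
  · exact (hsum _ hJ1).trans hC
  · intro ρ hρ
    refine (hsum (fun l => JJ W m (ρ l)) fun l => ?_).trans hC
    have h1 : ρ l ≠ 0 := by
      intro h
      apply h0 l
      rw [← hρ l, h]
      norm_num
    have := hJ2 (ρ l) h1
    rwa [hρ l] at this
  · have h1 := energy_mainL hm y hy h0 c N W hWi hWV B hB
      (fun z => (2 : ℝ) ^ (JJ W m z) / (m * B)) (fun z => rfl)
    refine h1.trans ?_
    have h2 := hsumJ _ hJ1
    have h3 : (m : ℝ) * ∑ l, (2 : ℝ) ^ (JJ W m (y l)) / (m * B) ≤ 48000 * m * (1 + K) := by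
      have h4 := hsum _ hJ1
      have h5 : 48000 * (1 + K) / B ≤ 48000 * (1 + K) :=
        div_le_self (by positivity) hB
      nlinarith
    have h4 : (m : ℝ) * δ ≤ m * (1 + K) := by
      refine mul_le_mul_of_nonneg_left ?_ hm0.le
      rw [hK]; linarith
    have h6 : DL c N ≤ m * (1 + K) := by
      have h7 : DL c N = m * (DL c N / m) := by field_simp
      rw [h7]
      refine mul_le_mul_of_nonneg_left ?_ hm0.le
      rw [hK]; linarith
    have h5 : DL c N + ∑ l, (2 : ℝ) ^ (JJ W m (y l)) +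
        m * ∑ l, (2 : ℝ) ^ (JJ W m (y l)) / (m * B) + m * δ ≤ 96002 * (m * (1 + K)) := by
      linarith
    calc 20 * (1 + Real.log B) * (DL c N + ∑ l, (2 : ℝ) ^ (JJ W m (y l)) +
        m * ∑ l, (2 : ℝ) ^ (JJ W m (y l)) / (m * B) + m * δ)
        ≤ 20 * (1 + Real.log B) * (96002 * (m * (1 + K))) := by
          exact mul_le_mul_of_nonneg_left h5 (by positivity)
      _ ≤ 2000000 * m * (1 + K) * (1 + Real.log B) := by
          have : 0 ≤ (m : ℝ) * (1 + K) * (1 + Real.log B) := by positivity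
          nlinarith

end Pool.Agent.Lib.MP_7ab245_nt.TrE
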