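import Mathlib
import Pool.Agent.Lib.MP_7ab245_nt.TrE.PsiAlg

/-! Integration along a ray. -/

set_option autoImplicit false

open Polynomial Finset

namespace Pool.Agent.Lib.MP_7ab245_nt.TrE

open Pool.Agent.Lib.MP_7ab245_nt.Len
open Pool.Agent.Lib.MP_7ab245_nt.L1

private theorem ray_pt_deriv (θ s : ℝ) : HasDerivAt (fun s : ℝ => pt s θ) (-(pt s θ)) s := by
  unfold pt
  have h1 : HasDerivAt (fun s : ℝ => (((-s : ℝ) : ℂ) + (θ : ℂ) * Complex.I)) (-1) s := by
    have h := ((hasDerivAt_id s).neg.ofReal_comp).add_const ((θ : ℂ) * Complex.I)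
    simpa using h
  exact h1.cexp.congr_deriv (by ring)

/-- derivative of `log |w|` -/
private theorem ray_log_norm_deriv (w : ℝ → ℂ) (w' : ℂ) (s : ℝ) (hw : HasDerivAt w w' s) (h0 : w s ≠ 0) :
    HasDerivAt (fun s => Real.log ‖w s‖) (w' / w s).re s := by
  have hre : HasDerivAt (fun s => (w s).re) w'.re s :=
    (Complex.reCLM.hasFDerivAt (x := w s)).comp_hasDerivAt s hw
  have him : HasDerivAt (fun s => (w s).im) w'.im s :=
    (Complex.imCLM.hasFDerivAt (x := w s)).comp_hasDerivAt s hw
  have hN : HasDerivAt (fun s => (w s).re * (w s).re + (w s).im * (w s).im)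
      (w'.re * (w s).re + (w s).re * w'.re + (w'.im * (w s).im + (w s).im * w'.im)) s :=
    (hre.mul hre).add (him.mul him)
  have hpos : (w s).re * (w s).re + (w s).im * (w s).im ≠ 0 := by
    have := Complex.normSq_pos.2 h0
    rw [Complex.normSq_apply] at this
    exact this.ne'
  have hL := (hN.log hpos).const_mul (1 / 2 : ℝ)
  have he : (fun s => Real.log ‖w s‖) = fun s => 1 / 2 * Real.log ((w s).re * (w s).re + (w s).im * (w s).im) := by
    funext s
    rw [← Complex.normSq_apply, Complex.normSq_eq_norm_sq, Real.log_pow]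
    push_cast
    ring
  rw [he]
  refine hL.congr_deriv ?_
  rw [Complex.div_re, Complex.normSq_apply]
  field_simp
  ring

private theorem ray_LL_deriv (c : ℕ → ℂ) (N : ℕ) (θ s : ℝ) :
    HasDerivAt (fun s : ℝ => LL c N (pt s θ)) (-(∑ k ∈ Finset.Ico 1 N, c k * pt s θ ^ k).re) s := by
  have h1 : HasDerivAt (fun s : ℝ => ∑ k ∈ Finset.Ico 1 N, c k * pt s θ ^ k / k)
      (∑ k ∈ Finset.Ico 1 N, -(c k * pt s θ ^ k)) s := by
    refine HasDerivAt.fun_sum fun k hk => ?_
    have hk1 : 1 ≤ k := (Finset.mem_Ico.1 hk).1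
    have hk0 : (k : ℂ) ≠ 0 := by exact_mod_cast (by omega : k ≠ 0)
    have h2 := (((ray_pt_deriv θ s).pow k).const_mul (c k)).div_const (k : ℂ)
    refine h2.congr_deriv ?_
    have h3 : pt s θ ^ k = pt s θ ^ (k - 1) * pt s θ := by
      rw [← pow_succ]
      congr 1
      omega
    rw [h3]
    field_simp
  have h2 := (Complex.reCLM.hasFDerivAt (x := ∑ k ∈ Finset.Ico 1 N, c k * pt s θ ^ k / k)).comp_hasDerivAt s h1
  unfold LL
  refine HasDerivAt.congr_deriv h2 ?_
  rw [Finset.sum_neg_distrib]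
  simp

private theorem ray_VV_deriv {n : ℕ} (α : Fin n → ℂ) (θ s : ℝ)
    (h : ∀ l, 1 - pt s θ * starRingEnd ℂ (α l) ≠ 0) :
    HasDerivAt (fun s : ℝ => VV α 0 (pt s θ))
      (-(∑ l, pt s θ * starRingEnd ℂ (α l) / (1 - pt s θ * starRingEnd ℂ (α l))).re) s := by
  unfold VV
  have h1 : HasDerivAt (fun s : ℝ => ∑ l, Real.log ‖1 - pt s θ * starRingEnd ℂ (α l)‖)
      (∑ l, (pt s θ * starRingEnd ℂ (α l) / (1 - pt s θ * starRingEnd ℂ (α l))).re) s := by
    refine HasDerivAt.fun_sum fun l _ => ?_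
    have h2 : HasDerivAt (fun s : ℝ => 1 - pt s θ * starRingEnd ℂ (α l)) (pt s θ * starRingEnd ℂ (α l)) s := by
      exact (((ray_pt_deriv θ s).mul_const (starRingEnd ℂ (α l))).const_sub 1).congr_deriv (by ring)
    exact ray_log_norm_deriv _ _ s h2 (h l)
  refine (h1.const_sub 0).congr_deriv ?_
  rw [Complex.re_sum]

private theorem ray_norm (s θ : ℝ) : ‖pt s θ‖ = Real.exp (-s) := by
  unfold pt
  rw [Complex.norm_exp]
  simp

private theorem ray_pt_tendsto (θ : ℝ) : Filter.Tendsto (fun s : ℝ => pt s θ) Filter.atTop (nhds 0) := by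
  rw [tendsto_zero_iff_norm_tendsto_zero]
  simp_rw [ray_norm]
  exact Real.tendsto_exp_neg_atTop_nhds_zero

theorem ray_bound {n : ℕ} (α : Fin n → ℂ) (m : ℕ) (hm : 1 ≤ m) (θ τ K : ℝ) (hτ : 0 < τ)
    (hK : 0 ≤ K) (h : ∀ s, τ ≤ s → (∀ l, 1 - pt s θ * starRingEnd ℂ (α l) ≠ 0) ∧
      ‖QQ α m (pt s θ)‖ ≤ K * Real.exp (m * s / 2)) :
    |LL (pw α) m (pt τ θ) - VV α 0 (pt τ θ)| ≤ 2 * K / m := by
  have hm0 : (0 : ℝ) < m := by exact_mod_cast hm
  set φ : ℝ → ℝ := fun s => LL (pw α) m (pt s θ) - VV α 0 (pt s θ) with hφ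
  set φ' : ℝ → ℝ := fun s => (pt s θ ^ m * QQ α m (pt s θ)).re with hφ'
  have hd : ∀ s, τ ≤ s → HasDerivAt φ (φ' s) s := by
    intro s hs
    have h1 := (ray_LL_deriv (pw α) m θ s).sub (ray_VV_deriv α θ s (h s hs).1)
    refine h1.congr_deriv ?_
    rw [hφ']
    dsimp only
    rw [geom_ident α m hm (pt s θ) (h s hs).1, Complex.sub_re]
    ring
  have hb : ∀ s, τ ≤ s → |φ' s| ≤ K * Real.exp (-(m * s / 2)) := by
    intro s hs
    rw [hφ']
    dsimp only
    refine (Complex.abs_re_le_norm _).trans ?_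
    rw [norm_mul, norm_pow, ray_norm]
    calc Real.exp (-s) ^ m * ‖QQ α m (pt s θ)‖ ≤ Real.exp (-s) ^ m * (K * Real.exp (m * s / 2)) := by
          apply mul_le_mul_of_nonneg_left (h s hs).2 (by positivity)
      _ = K * (Real.exp (m * (-s)) * Real.exp (m * s / 2)) := by
          rw [← Real.exp_nat_mul]
          ring
      _ = K * Real.exp (-(m * s / 2)) := by
          rw [← Real.exp_add]
          congr 2
          ring
  set e : ℝ → ℝ := fun s => 2 * K / m * Real.exp (-(m * s / 2)) with he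
  have hde : ∀ s, HasDerivAt e (-(K * Real.exp (-(m * s / 2)))) s := by
    intro s
    have h1 : HasDerivAt (fun s : ℝ => -((m : ℝ) * s / 2)) (-((m : ℝ) / 2)) s := by
      exact (((hasDerivAt_id s).const_mul (m : ℝ)).div_const 2).neg.congr_deriv (by ring)
    refine (h1.exp.const_mul (2 * K / m)).congr_deriv ?_
    field_simp
  have hφ0 : Filter.Tendsto φ Filter.atTop (nhds 0) := by
    have h1 : Filter.Tendsto (fun s : ℝ => LL (pw α) m (pt s θ)) Filter.atTop (nhds 0) := by
      have := ((continuous_LL (pw α) m).tendsto 0).comp (ray_pt_tendsto θ)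
      rw [LL_zero] at this
      exact this
    have h2 : Filter.Tendsto (fun s : ℝ => VV α 0 (pt s θ)) Filter.atTop (nhds 0) := by
      have h3 : ContinuousAt (VV α 0) 0 := by
        unfold VV
        apply ContinuousAt.sub continuousAt_const
        apply tendsto_finsetSum
        intro l _
        apply ContinuousAt.log
        · fun_prop
        · simp
      have := h3.tendsto.comp (ray_pt_tendsto θ)
      have h4 : VV α 0 0 = 0 := by simp [VV]
      rw [h4] at this
      exact this
    have := h1.sub h2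
    simpa using this
  have he0 : Filter.Tendsto e Filter.atTop (nhds 0) := by
    have h1 : Filter.Tendsto (fun s : ℝ => (m : ℝ) * s / 2) Filter.atTop Filter.atTop := by
      apply Filter.Tendsto.atTop_div_const (by norm_num)
      exact Filter.Tendsto.const_mul_atTop hm0 Filter.tendsto_id
    have h2 := (Real.tendsto_exp_neg_atTop_nhds_zero.comp h1).const_mul (2 * K / m)
    simpa using h2
  have hanti : AntitoneOn (fun s => φ s + e s) (Set.Ici τ) := by
    apply antitoneOn_of_deriv_nonpos (convex_Ici τ)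
    · intro s hs
      exact ((hd s hs).add (hde s)).continuousAt.continuousWithinAt
    · intro s hs
      rw [interior_Ici] at hs
      exact ((hd s (le_of_lt hs)).add (hde s)).differentiableAt.differentiableWithinAt
    · intro s hs
      rw [interior_Ici] at hs
      have h1 := ((hd s (le_of_lt hs)).add (hde s)).deriv
      have h2 := hb s (le_of_lt hs)
      have h3 := (abs_le.1 h2).2
      have h4 : deriv (fun s => φ s + e s) s = φ' s + -(K * Real.exp (-(m * s / 2))) := h1
      rw [h4]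
      linarith
  have hmono : MonotoneOn (fun s => φ s - e s) (Set.Ici τ) := by
    apply monotoneOn_of_deriv_nonneg (convex_Ici τ)
    · intro s hs
      exact ((hd s hs).sub (hde s)).continuousAt.continuousWithinAt
    · intro s hs
      rw [interior_Ici] at hs
      exact ((hd s (le_of_lt hs)).sub (hde s)).differentiableAt.differentiableWithinAt
    · intro s hs
      rw [interior_Ici] at hs
      have h1 := ((hd s (le_of_lt hs)).sub (hde s)).deriv
      have h2 := hb s (le_of_lt hs)
      have h3 := (abs_le.1 h2).1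
      have h4 : deriv (fun s => φ s - e s) s = φ' s - -(K * Real.exp (-(m * s / 2))) := h1
      rw [h4]
      linarith
  have hlow : 0 ≤ φ τ + e τ := by
    have h1 : Filter.Tendsto (fun s => φ s + e s) Filter.atTop (nhds 0) := by
      have := hφ0.add he0
      simpa using this
    refine le_of_tendsto h1 ?_
    filter_upwards [Filter.eventually_ge_atTop τ] with s hs
    exact hanti (Set.mem_Ici.2 le_rfl) (Set.mem_Ici.2 hs) hs
  have hup : φ τ - e τ ≤ 0 := by
    have h1 : Filter.Tendsto (fun s => φ s - e s) Filter.atTop (nhds 0) := by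
      have := hφ0.sub he0
      simpa using this
    refine ge_of_tendsto h1 ?_
    filter_upwards [Filter.eventually_ge_atTop τ] with s hs
    exact hmono (Set.mem_Ici.2 le_rfl) (Set.mem_Ici.2 hs) hs
  have heτ : e τ ≤ 2 * K / m := by
    rw [he]
    dsimp only
    have h1 : Real.exp (-(m * τ / 2)) ≤ 1 := Real.exp_le_one_iff.2 (by
      have : 0 < (m : ℝ) * τ / 2 := by positivity
      linarith)
    have h2 : 0 ≤ 2 * K / m := by positivity
    nlinarith
  rw [abs_le]
  constructor
  · have : φ τ = LL (pw α) m (pt τ θ) - VV α 0 (pt τ θ) := rfl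
    linarith
  · have : φ τ = LL (pw α) m (pt τ θ) - VV α 0 (pt τ θ) := rfl
    linarith

/-- the potential decreases at most at the rate `n` towards the circle -/
theorem VV_outward {n : ℕ} (y : Fin n → ℂ) (hy : ∀ l, ‖y l‖ ≤ 1) (τ θ : ℝ) (hτ : 0 ≤ τ)
    (h : ∀ l, 1 - pt 0 θ * starRingEnd ℂ (y l) ≠ 0) :
    -(VV y 0 (pt 0 θ)) ≤ -(VV y 0 (pt τ θ)) + n * τ := by
  have hpt : pt τ θ = (Real.exp (-τ) : ℂ) * pt 0 θ := by
    unfold pt
    rw [Complex.ofReal_exp, ← Complex.exp_add]
    congr 1
    push_cast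
    ring
  have key : ∀ l, Real.log ‖1 - pt 0 θ * starRingEnd ℂ (y l)‖
      ≤ Real.log ‖1 - pt τ θ * starRingEnd ℂ (y l)‖ + τ := by
    intro l
    have h1 : ‖pt 0 θ * starRingEnd ℂ (y l)‖ ≤ 1 := by
      rw [norm_mul, ray_norm, RCLike.norm_conj]
      simpa using hy l
    have h2 := mul_norm_one_sub_le (Real.exp (-τ)) (Real.exp_pos _).le
      (Real.exp_le_one_iff.2 (by linarith)) _ h1
    rw [← mul_assoc, ← hpt] at h2
    have h3 : 0 < ‖1 - pt 0 θ * starRingEnd ℂ (y l)‖ := norm_pos_iff.2 (h l)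
    have h4 := Real.log_le_log (by positivity) h2
    rw [Real.log_mul (Real.exp_pos _).ne' h3.ne', Real.log_exp] at h4
    linarith
  have hs := Finset.sum_le_sum fun l (_ : l ∈ (univ : Finset (Fin n))) => key l
  rw [Finset.sum_add_distrib, Finset.sum_const, Finset.card_univ, Fintype.card_fin, nsmul_eq_mul] at hs
  unfold VV
  linarith

end Pool.Agent.Lib.MP_7ab245_nt.TrE
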