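import Mathlib
import Pool.Agent.Lib.MP_7ab245_nt.TrE.Basic

/-! The majorant `gst` of the Green function: positivity and mean values. -/

set_option autoImplicit false

open Polynomial Finset

namespace Pool.Agent.Lib.MP_7ab245_nt.TrE

open Pool.Agent.Lib.MP_7ab245_nt.Len
open Pool.Agent.Lib.MP_7ab245_nt.L1

theorem gst_nonneg (δ ψ : ℝ) (hψ : Real.cos ψ ≠ 1) : 0 ≤ gst δ ψ := by
  have h0 : Real.cos ψ < 1 := lt_of_le_of_ne (Real.cos_le_one _) hψ
  have h1 : 1 ≤ Real.cosh (3 * δ) := Real.one_le_cosh _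
  rw [gst]
  have h2 : 0 ≤ Real.log ((Real.cosh (3 * δ) - Real.cos ψ) / (1 - Real.cos ψ)) := by
    apply Real.log_nonneg
    rw [le_div_iff₀ (by linarith)]
    linarith
  linarith

/-- the point `e^{a + iφ}` -/
private noncomputable def psiGst_w (a φ : ℝ) : ℂ := Complex.exp ((a : ℂ) + (φ : ℂ) * Complex.I)

private lemma psiGst_norm_sq (a φ θ : ℝ) :
    ‖circleMap 0 1 θ - psiGst_w a φ‖ ^ 2 =
      2 * Real.exp a * (Real.cosh a - Real.cos (θ - φ)) := by
  rw [← Complex.normSq_eq_norm_sq, Complex.normSq_apply]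
  have h0 : circleMap 0 1 θ = Complex.exp ((θ : ℂ) * Complex.I) := by
    rw [circleMap]; simp
  have hre : (psiGst_w a φ).re = Real.exp a * Real.cos φ := by
    rw [psiGst_w, Complex.exp_re]; simp
  have him : (psiGst_w a φ).im = Real.exp a * Real.sin φ := by
    rw [psiGst_w, Complex.exp_im]; simp
  have hre' : (circleMap 0 1 θ).re = Real.cos θ := by
    rw [h0, Complex.exp_ofReal_mul_I_re]
  have him' : (circleMap 0 1 θ).im = Real.sin θ := by
    rw [h0, Complex.exp_ofReal_mul_I_im]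
  rw [Complex.sub_re, Complex.sub_im, hre, him, hre', him', Real.cos_sub]
  have h1 := Real.sin_sq_add_cos_sq θ
  have h1' := Real.sin_sq_add_cos_sq φ
  have h2 : Real.exp a * Real.cosh a = (Real.exp a ^ 2 + 1) / 2 := by
    rw [Real.cosh_eq, Real.exp_neg]
    field_simp
  have h3 : 2 * Real.exp a * (Real.cosh a - (Real.cos θ * Real.cos φ + Real.sin θ * Real.sin φ)) =
      2 * (Real.exp a * Real.cosh a) -
        2 * Real.exp a * (Real.cos θ * Real.cos φ + Real.sin θ * Real.sin φ) := by ring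
  rw [h3, h2]
  linear_combination h1 + Real.exp a ^ 2 * h1'

private lemma psiGst_log (a φ θ : ℝ) (h : Real.cos (θ - φ) < 1) :
    Real.log ‖circleMap 0 1 θ - psiGst_w a φ‖ =
      1 / 2 * (Real.log 2 + a + Real.log (Real.cosh a - Real.cos (θ - φ))) := by
  have h2 : 1 ≤ Real.cosh a := Real.one_le_cosh _
  have h3 : 0 < Real.cosh a - Real.cos (θ - φ) := by linarith
  have h4 := congrArg Real.log (psiGst_norm_sq a φ θ)
  rw [Real.log_pow, Real.log_mul (by positivity) h3.ne', Real.log_mul (by norm_num)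
    (Real.exp_pos _).ne', Real.log_exp] at h4
  push_cast at h4
  linarith

private noncomputable def psiGst_G (δ φ θ : ℝ) : ℝ :=
  Real.log ‖circleMap 0 1 θ - psiGst_w (3 * δ) φ‖ - Real.log ‖circleMap 0 1 θ - psiGst_w 0 φ‖ -
    3 / 2 * δ

private lemma psiGst_eq (δ φ θ : ℝ) (h : Real.cos (θ - φ) ≠ 1) :
    gst δ (θ - φ) = psiGst_G δ φ θ := by
  have h0 : Real.cos (θ - φ) < 1 := lt_of_le_of_ne (Real.cos_le_one _) h
  have h2 : 1 ≤ Real.cosh (3 * δ) := Real.one_le_cosh _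
  rw [psiGst_G, psiGst_log _ _ _ h0, psiGst_log _ _ _ h0, gst, Real.cosh_zero,
    Real.log_div (by linarith) (by linarith)]
  ring

private lemma psiGst_ae (φ : ℝ) : ∀ᵐ θ : ℝ, Real.cos (θ - φ) ≠ 1 := by
  have h1 : {θ : ℝ | Real.cos (θ - φ) = 1}.Countable := by
    have h2 : {θ : ℝ | Real.cos (θ - φ) = 1} ⊆
        Set.range (fun k : ℤ => (k : ℝ) * (2 * Real.pi) + φ) := by
      intro θ hθ
      rw [Set.mem_ofPred_eq, Real.cos_eq_one_iff] at hθ
      obtain ⟨k, hk⟩ := hθ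
      exact ⟨k, by simp only; linarith⟩
    exact (Set.countable_range _).mono h2
  exact h1.ae_notMem _

private lemma psiGst_ae_eq (δ φ : ℝ) :
    (fun θ => gst δ (θ - φ)) =ᵐ[MeasureTheory.volume] psiGst_G δ φ := by
  filter_upwards [psiGst_ae φ] with θ hθ
  exact psiGst_eq δ φ θ hθ

private lemma psiGst_int_log (w : ℂ) :
    IntervalIntegrable (fun θ => Real.log ‖circleMap 0 1 θ - w‖) MeasureTheory.volume 0
      (2 * Real.pi) :=
  circleIntegrable_log_norm_sub_const (a := w) (c := 0) 1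

private lemma psiGst_intG (δ φ : ℝ) :
    IntervalIntegrable (psiGst_G δ φ) MeasureTheory.volume 0 (2 * Real.pi) :=
  ((psiGst_int_log _).sub (psiGst_int_log _)).sub intervalIntegrable_const

theorem intervalIntegrable_gst (δ φ : ℝ) (hδ : 0 < δ) :
    IntervalIntegrable (fun θ => gst δ (θ - φ)) MeasureTheory.volume 0 (2 * Real.pi) := by
  apply (psiGst_intG δ φ).congr_ae
  exact MeasureTheory.ae_restrict_of_ae (psiGst_ae_eq δ φ).symm

theorem avg_gst (δ φ : ℝ) (hδ : 0 < δ) :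
    (2 * Real.pi)⁻¹ * ∫ θ in (0 : ℝ)..(2 * Real.pi), gst δ (θ - φ) = 3 / 2 * δ := by
  have h1 : ∫ θ in (0 : ℝ)..(2 * Real.pi), gst δ (θ - φ) =
      ∫ θ in (0 : ℝ)..(2 * Real.pi), psiGst_G δ φ θ := by
    apply intervalIntegral.integral_congr_ae
    filter_upwards [psiGst_ae_eq δ φ] with θ hθ _
    exact hθ
  have h2 : ∀ a : ℝ, 0 ≤ a → (2 * Real.pi)⁻¹ * ∫ θ in (0 : ℝ)..(2 * Real.pi),
      Real.log ‖circleMap 0 1 θ - psiGst_w a φ‖ = a := by
    intro a ha
    have h3 := circleAverage_log_norm_sub_const_eq_posLog (a := psiGst_w a φ)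
    have h4 : ‖psiGst_w a φ‖ = Real.exp a := by
      rw [psiGst_w, Complex.norm_exp]; simp
    rw [h4, Real.posLog_eq_log (by rw [abs_of_pos (Real.exp_pos _)]; exact Real.one_le_exp ha),
      Real.log_exp] at h3
    exact h3
  rw [h1]
  unfold psiGst_G
  rw [intervalIntegral.integral_sub ((psiGst_int_log _).sub (psiGst_int_log _))
    intervalIntegrable_const, intervalIntegral.integral_sub (psiGst_int_log _) (psiGst_int_log _),
    intervalIntegral.integral_const, mul_sub, mul_sub]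
  rw [h2 (3 * δ) (by positivity), h2 0 le_rfl, smul_eq_mul]
  have hπ := Real.pi_pos
  field_simp
  ring

theorem intervalIntegrable_SS {n : ℕ} (α : Fin n → ℂ) (t : ℝ) :
    IntervalIntegrable (SS α t) MeasureTheory.volume 0 (2 * Real.pi) := by
  have h1 : SS α t = fun θ => ∑ l ∈ univ.filter (fun l => 1 < ‖α l‖ ∧ Real.log ‖α l‖ < 4 * t ∧
      t < 2 * Real.log ‖α l‖), gst (Real.log ‖α l‖) (θ - (α l).arg) := by
    funext θ
    rfl
  have h3 : (fun θ => ∑ l ∈ univ.filter (fun l => 1 < ‖α l‖ ∧ Real.log ‖α l‖ < 4 * t ∧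
      t < 2 * Real.log ‖α l‖), gst (Real.log ‖α l‖) (θ - (α l).arg)) =
      ∑ l ∈ univ.filter (fun l => 1 < ‖α l‖ ∧ Real.log ‖α l‖ < 4 * t ∧
      t < 2 * Real.log ‖α l‖), fun θ => gst (Real.log ‖α l‖) (θ - (α l).arg) := by
    funext θ
    rw [Finset.sum_apply]
  rw [h1, h3]
  apply IntervalIntegrable.sum
  intro l hl
  rw [Finset.mem_filter] at hl
  exact intervalIntegrable_gst _ _ (Real.log_pos hl.2.1)

theorem SS_nonneg {n : ℕ} (α : Fin n → ℂ) (t θ : ℝ) (hθ : Gen α θ) : 0 ≤ SS α t θ := by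
  unfold SS
  exact Finset.sum_nonneg fun l _ => gst_nonneg _ _ (hθ l)

private lemma psiGst_avg_SS {n : ℕ} (α : Fin n → ℂ) (t : ℝ) :
    (2 * Real.pi)⁻¹ * ∫ θ in (0 : ℝ)..(2 * Real.pi), SS α t θ =
      ∑ l ∈ univ.filter (fun l => 1 < ‖α l‖), if Real.log ‖α l‖ < 4 * t ∧
        t < 2 * Real.log ‖α l‖ then 3 / 2 * Real.log ‖α l‖ else 0 := by
  rw [← Finset.sum_filter, Finset.filter_filter]
  unfold SS
  rw [intervalIntegral.integral_finsetSum, Finset.mul_sum]
  · apply Finset.sum_congr rfl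
    intro l hl
    rw [Finset.mem_filter] at hl
    exact avg_gst _ _ (Real.log_pos hl.2.1)
  · intro l hl
    rw [Finset.mem_filter] at hl
    exact intervalIntegrable_gst _ _ (Real.log_pos hl.2.1)

private lemma psiGst_card (δ : ℝ) (m I : ℕ) (hm : 0 < m) :
    ((Finset.range I).filter (fun i => δ < 4 * ((2 : ℝ) ^ i / m) ∧
      (2 : ℝ) ^ i / m < 2 * δ)).card ≤ 3 := by
  set S := (Finset.range I).filter (fun i => δ < 4 * ((2 : ℝ) ^ i / m) ∧
      (2 : ℝ) ^ i / m < 2 * δ) with hS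
  rcases S.eq_empty_or_nonempty with h | h
  · rw [h]; simp
  · have hm0 : (0 : ℝ) < m := Nat.cast_pos.mpr hm
    set i0 := S.min' h with hi0
    have hmem : i0 ∈ S := S.min'_mem h
    have h1 : S ⊆ Finset.Ico i0 (i0 + 3) := by
      intro i hi
      rw [Finset.mem_Ico]
      refine ⟨S.min'_le i hi, ?_⟩
      by_contra h2
      push Not at h2
      rw [hS, Finset.mem_filter] at hmem hi
      have h3 := hmem.2.1
      have h4 := hi.2.2
      have h5 : (2 : ℝ) ^ (i0 + 3) ≤ 2 ^ i := pow_le_pow_right₀ (by norm_num) h2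
      rw [pow_add] at h5
      have h6 : (2 : ℝ) ^ i0 * 2 ^ 3 / m ≤ 2 ^ i / m := by gcongr
      have h7 : (2 : ℝ) ^ i0 * 2 ^ 3 / m = 8 * (2 ^ i0 / m) := by ring
      linarith
    calc S.card ≤ (Finset.Ico i0 (i0 + 3)).card := Finset.card_le_card h1
      _ = 3 := by simp

private lemma psiGst_hh {n : ℕ} (α : Fin n → ℂ) :
    hh α = ∑ l ∈ univ.filter (fun l => 1 < ‖α l‖), Real.log ‖α l‖ := by
  rw [hh, Finset.sum_filter]
  apply Finset.sum_congr rfl
  intro l _
  split_ifs with h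
  · exact Real.posLog_eq_log (by rw [abs_of_nonneg (norm_nonneg _)]; exact h.le)
  · rw [Real.posLog_eq_zero_iff, abs_of_nonneg (norm_nonneg _)]
    exact not_lt.mp h

/-- each outer point is counted in at most three of the sums `SS α (2^i/m)` -/
theorem avg_SS_sum {n : ℕ} (α : Fin n → ℂ) (m I : ℕ) (hm : 0 < m) :
    ∑ i ∈ Finset.range I, (2 * Real.pi)⁻¹ *
      ∫ θ in (0 : ℝ)..(2 * Real.pi), SS α ((2 : ℝ) ^ i / m) θ ≤ 9 / 2 * hh α := by
  rw [Finset.sum_congr rfl fun i _ => psiGst_avg_SS α ((2 : ℝ) ^ i / m), Finset.sum_comm,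
    psiGst_hh, Finset.mul_sum]
  apply Finset.sum_le_sum
  intro l hl
  rw [Finset.mem_filter] at hl
  have h1 := Real.log_pos hl.2
  rw [← Finset.sum_filter, Finset.sum_const, nsmul_eq_mul]
  have h2 := psiGst_card (Real.log ‖α l‖) m I hm
  have h3 : (((Finset.range I).filter (fun i => Real.log ‖α l‖ < 4 * ((2 : ℝ) ^ i / m) ∧
      (2 : ℝ) ^ i / m < 2 * Real.log ‖α l‖)).card : ℝ) ≤ 3 := by exact_mod_cast h2
  nlinarith

theorem SS_large {n : ℕ} (α : Fin n → ℂ) (t θ : ℝ) (ht : 2 * hh α ≤ t) : SS α t θ = 0 := by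
  unfold SS
  apply Finset.sum_eq_zero
  intro l hl
  rw [Finset.mem_filter] at hl
  exfalso
  have h1 : Real.log ‖α l‖ ≤ hh α := by
    have h2 : Real.log ‖α l‖ = Real.posLog ‖α l‖ :=
      (Real.posLog_eq_log (by rw [abs_of_nonneg (norm_nonneg _)]; exact hl.2.1.le)).symm
    rw [h2, hh]
    exact Finset.single_le_sum (f := fun i => Real.posLog ‖α i‖)
      (fun i _ => Real.posLog_nonneg) (Finset.mem_univ l)
  linarith [hl.2.2.2]

end Pool.Agent.Lib.MP_7ab245_nt.TrE
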