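import Mathlib
import Pool.Agent.Lib.MP_7ab245_nt.TrE.Basic
import Pool.Agent.Lib.MP_7ab245_nt.Len.Refl

/-! Poisson kernels of points of the disc. -/

set_option autoImplicit false

open Polynomial Finset

namespace Pool.Agent.Lib.MP_7ab245_nt.TrE

open Pool.Agent.Lib.MP_7ab245_nt.Len
open Pool.Agent.Lib.MP_7ab245_nt.L1

/-- the harmonic function with boundary values the Poisson kernel at `w` -/
private noncomputable def psiMeans_H (w z : ℂ) : ℝ :=
  ((1 + z * starRingEnd ℂ w) / (1 - z * starRingEnd ℂ w)).re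

private lemma psiMeans_ne {w z : ℂ} (hw : ‖w‖ < 1) (hz : ‖z‖ ≤ 1) :
    1 - z * starRingEnd ℂ w ≠ 0 := by
  intro h
  have h1 : z * starRingEnd ℂ w = 1 := (sub_eq_zero.mp h).symm
  have h2 := congrArg norm h1
  rw [norm_mul, RCLike.norm_conj, norm_one] at h2
  nlinarith [norm_nonneg w, norm_nonneg z]

private lemma psiMeans_H_eq (w z : ℂ) :
    psiMeans_H w z = (1 - ‖z * starRingEnd ℂ w‖ ^ 2) / ‖1 - z * starRingEnd ℂ w‖ ^ 2 := by
  rw [psiMeans_H]
  set u := z * starRingEnd ℂ w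
  rw [Complex.div_re, ← Complex.normSq_eq_norm_sq, ← Complex.normSq_eq_norm_sq]
  simp only [Complex.add_re, Complex.sub_re, Complex.one_re, Complex.add_im, Complex.sub_im,
    Complex.one_im]
  rw [← add_div]
  congr 1
  rw [Complex.normSq_apply u]
  ring

private lemma psiMeans_norm {w ζ : ℂ} (hζ : ‖ζ‖ = 1) : ‖1 - ζ * starRingEnd ℂ w‖ = ‖ζ - w‖ := by
  have hz1 : ζ * starRingEnd ℂ ζ = 1 := by
    rw [Complex.mul_conj, Complex.normSq_eq_norm_sq, hζ]; norm_num
  have : 1 - ζ * starRingEnd ℂ w = ζ * starRingEnd ℂ (ζ - w) := by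
    rw [map_sub, mul_sub, hz1]
  rw [this, norm_mul, RCLike.norm_conj, hζ, one_mul]

private lemma psiMeans_poisson_eq (w : ℂ) {ζ : ℂ} (hζ : ‖ζ‖ = 1) :
    poissonKernel 0 w ζ = psiMeans_H w ζ := by
  rw [poissonKernel_zero_eq, psiMeans_H_eq, psiMeans_norm hζ, norm_mul, RCLike.norm_conj, hζ,
    one_mul, one_pow]

private lemma psiMeans_harmonic {w : ℂ} (hw : ‖w‖ < 1) :
    InnerProductSpace.HarmonicOnNhd (psiMeans_H w) (Metric.closedBall 0 1) := by
  intro z hz
  have hz1 : ‖z‖ ≤ 1 := by simpa using hz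
  have h1 : AnalyticAt ℂ (fun z : ℂ => (1 + z * starRingEnd ℂ w) / (1 - z * starRingEnd ℂ w)) z := by
    apply AnalyticAt.div
    · fun_prop
    · fun_prop
    · exact psiMeans_ne hw hz1
  exact h1.harmonicAt_re

private lemma psiMeans_intH {w : ℂ} (hw : ‖w‖ < 1) : CircleIntegrable (psiMeans_H w) 0 1 := by
  apply ContinuousOn.circleIntegrable zero_le_one
  intro z hz
  have hz1 : z ∈ Metric.closedBall (0 : ℂ) 1 := Metric.sphere_subset_closedBall hz
  exact (psiMeans_harmonic hw z hz1).1.continuousAt.continuousWithinAt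

theorem circleIntegrable_poisson (w : ℂ) (hw : ‖w‖ < 1) :
    CircleIntegrable (fun ζ => poissonKernel 0 w ζ) 0 1 := by
  have h := circleIntegrable_PP (fun _ => 1) (by
    apply ContinuousOn.circleIntegrable zero_le_one
    exact continuousOn_const) w hw
  simpa using h

theorem PP_poisson (w z : ℂ) (hw : ‖w‖ < 1) (hz : ‖z‖ < 1) :
    PP (fun ζ => poissonKernel 0 w ζ) z =
      (1 - ‖z * starRingEnd ℂ w‖ ^ 2) / ‖1 - z * starRingEnd ℂ w‖ ^ 2 := by
  rw [← psiMeans_H_eq]
  have hz' : z ∈ Metric.ball (0 : ℂ) 1 := by simpa using hz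
  have h1 := (psiMeans_harmonic hw).circleAverage_poissonKernel_smul hz'
  rw [← h1]
  unfold PP
  apply Real.circleAverage_congr_sphere
  intro ζ hζ
  have h2 := norm_of_mem_sphere hζ
  show poissonKernel 0 z ζ * poissonKernel 0 w ζ = poissonKernel 0 z ζ * psiMeans_H w ζ
  rw [psiMeans_poisson_eq w h2]

theorem circleAverage_poisson (w : ℂ) (hw : ‖w‖ < 1) :
    Real.circleAverage (fun ζ => poissonKernel 0 w ζ) 0 1 = 1 := by
  have h1 := PP_poisson w 0 hw (by simp)
  rw [zero_mul, norm_zero, sub_zero, norm_one] at h1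
  norm_num at h1
  refine Eq.trans ?_ h1
  unfold PP
  apply Real.circleAverage_congr_sphere
  intro ζ hζ
  have h2 := norm_of_mem_sphere hζ
  show poissonKernel 0 w ζ = poissonKernel 0 0 ζ * poissonKernel 0 w ζ
  have h3 : poissonKernel 0 0 ζ = 1 := by
    rw [poissonKernel_zero_eq, h2, norm_zero, sub_zero, h2]; norm_num
  rw [h3, one_mul]

private lemma psiMeans_refl_lt {a : ℂ} (ha : 1 < ‖a‖) : ‖Len.refl a‖ < 1 := by
  rw [refl_of_lt ha, norm_inv, RCLike.norm_conj]
  exact inv_lt_one_of_one_lt₀ ha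

private lemma psiMeans_int_term {n : ℕ} (α : Fin n → ℂ) (w : Fin n → ℝ) (l : Fin n)
    (hl : 1 < ‖α l‖) :
    CircleIntegrable (fun ζ => w l * poissonKernel 0 (Len.refl (α l)) ζ) 0 1 := by
  have := (circleIntegrable_poisson (Len.refl (α l)) (psiMeans_refl_lt hl)).const_fun_smul (a := w l)
  simpa using this

theorem circleIntegrable_PN {n : ℕ} (α : Fin n → ℂ) (w : Fin n → ℝ) :
    CircleIntegrable (PN α w) 0 1 := by
  have h1 : PN α w = fun ζ => ∑ l ∈ univ.filter (fun l => 1 < ‖α l‖),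
      w l * poissonKernel 0 (Len.refl (α l)) ζ := by
    funext ζ
    rfl
  rw [h1]
  apply CircleIntegrable.fun_sum
  intro l hl
  rw [Finset.mem_filter] at hl
  exact psiMeans_int_term α w l hl.2

theorem circleAverage_PN {n : ℕ} (α : Fin n → ℂ) (w : Fin n → ℝ) :
    Real.circleAverage (PN α w) 0 1 = ∑ l ∈ univ.filter (fun l => 1 < ‖α l‖), w l := by
  have h1 : PN α w = fun ζ => ∑ l ∈ univ.filter (fun l => 1 < ‖α l‖),
      w l * poissonKernel 0 (Len.refl (α l)) ζ := by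
    funext ζ
    rfl
  rw [h1, Real.circleAverage_fun_sum]
  · apply Finset.sum_congr rfl
    intro l hl
    rw [Finset.mem_filter] at hl
    have h2 : (fun ζ => w l * poissonKernel 0 (Len.refl (α l)) ζ) =
        fun ζ => w l • poissonKernel 0 (Len.refl (α l)) ζ := rfl
    rw [h2, Real.circleAverage_fun_smul, circleAverage_poisson _ (psiMeans_refl_lt hl.2),
      smul_eq_mul, mul_one]
  · intro l hl
    rw [Finset.mem_filter] at hl
    exact psiMeans_int_term α w l hl.2

theorem PN_nonneg {n : ℕ} (α : Fin n → ℂ) (w : Fin n → ℝ) (hw : ∀ l, 1 < ‖α l‖ → 0 ≤ w l) (ζ : ℂ)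
    (hζ : ‖ζ‖ = 1) : 0 ≤ PN α w ζ := by
  unfold PN
  apply Finset.sum_nonneg
  intro l hl
  rw [Finset.mem_filter] at hl
  exact mul_nonneg (hw l hl.2) (poissonKernel_zero_nonneg (psiMeans_refl_lt hl.2) hζ)

theorem PP_PN {n : ℕ} (α : Fin n → ℂ) (w : Fin n → ℝ) (z : ℂ) (hz : ‖z‖ < 1) :
    PP (PN α w) z = ∑ l ∈ univ.filter (fun l => 1 < ‖α l‖),
      w l * ((1 - ‖z * starRingEnd ℂ (Len.refl (α l))‖ ^ 2) /
        ‖1 - z * starRingEnd ℂ (Len.refl (α l))‖ ^ 2) := by
  unfold PP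
  have h1 : (fun ζ => poissonKernel 0 z ζ * PN α w ζ) =
      fun ζ => ∑ l ∈ univ.filter (fun l => 1 < ‖α l‖),
        w l • (poissonKernel 0 z ζ * poissonKernel 0 (Len.refl (α l)) ζ) := by
    funext ζ
    rw [PN, Finset.mul_sum]
    apply Finset.sum_congr rfl
    intro l _
    rw [smul_eq_mul]
    ring
  rw [h1, Real.circleAverage_fun_sum]
  · apply Finset.sum_congr rfl
    intro l hl
    rw [Finset.mem_filter] at hl
    rw [Real.circleAverage_fun_smul, smul_eq_mul]
    congr 1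
    exact PP_poisson (Len.refl (α l)) z (psiMeans_refl_lt hl.2) hz
  · intro l hl
    rw [Finset.mem_filter] at hl
    exact (circleIntegrable_PP _ (circleIntegrable_poisson _ (psiMeans_refl_lt hl.2)) z
      hz).const_fun_smul

end Pool.Agent.Lib.MP_7ab245_nt.TrE
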