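import Mathlib
import Pool.Agent.Lib.MP_7ab245_nt.TrE.PsiMeans
import Pool.Agent.Lib.MP_7ab245_nt.TrE.PsiGst
import Pool.Agent.Lib.MP_7ab245_nt.TrE.PsiAlg

/-! Upper bound for the Green functions of the outer points. -/

set_option autoImplicit false

open Polynomial Finset

namespace Pool.Agent.Lib.MP_7ab245_nt.TrE

open Pool.Agent.Lib.MP_7ab245_nt.Len
open Pool.Agent.Lib.MP_7ab245_nt.L1

/-- the Green function in terms of the heights -/
noncomputable def gr (s δ x : ℝ) : ℝ :=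
  1 / 2 * Real.log ((Real.cosh (s + δ) - x) / (Real.cosh (s - δ) - x))

private lemma psiGreen_cosh_le {δ : ℝ} (h0 : 0 ≤ δ) (h1 : δ ≤ 1) : Real.cosh δ ≤ 1.5431 := by
  have h2 : Real.cosh δ ≤ Real.cosh 1 := by
    rw [Real.cosh_le_cosh, abs_of_nonneg h0, abs_one]; exact h1
  refine h2.trans ?_
  rw [Real.cosh_eq]
  have h3 := Real.exp_one_lt_d9
  have h4 := Real.exp_one_gt_d9
  have h5 : Real.exp (-1) ≤ 0.3679 := by
    rw [Real.exp_neg, inv_le_comm₀ (Real.exp_pos _) (by norm_num)]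
    linarith [show (0.3679 : ℝ)⁻¹ ≤ 2.7182818283 by norm_num]
  linarith

private lemma psiGreen_sinh_le {δ : ℝ} (h0 : 0 ≤ δ) (h1 : δ ≤ 1) : Real.sinh δ ≤ 1.2223 * δ := by
  have ha : |δ| ≤ 1 := by rw [abs_of_nonneg h0]; exact h1
  have hb : |-δ| ≤ 1 := by rw [abs_neg]; exact ha
  have e1 := Real.exp_bound ha (n := 3) (by norm_num)
  have e2 := Real.exp_bound hb (n := 3) (by norm_num)
  simp only [Finset.sum_range_succ, Finset.sum_range_zero, Nat.factorial] at e1 e2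
  rw [abs_neg] at e2
  rw [abs_of_nonneg h0] at e1 e2
  norm_num at e1 e2
  rw [Real.sinh_eq]
  have f1 := (abs_le.mp e1).2
  have f2 := (abs_le.mp e2).1
  have f3 : δ ^ 3 ≤ δ := by nlinarith [mul_nonneg h0 h0, mul_nonneg (mul_nonneg h0 h0) h0]
  nlinarith

private lemma psiGreen_half {σ δ : ℝ} (hδ : 0 ≤ δ) (hδ1 : δ ≤ 1) (hσ : δ ≤ σ) :
    Real.cosh (σ + 2 * δ) - 1 ≤ 16.73 * (Real.cosh σ - 1) := by
  -- cosh x - 1 = 2 sinh² (x/2)
  have hc : ∀ x : ℝ, Real.cosh x - 1 = 2 * Real.sinh (x / 2) ^ 2 := by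
    intro x
    have h1 := Real.cosh_two_mul (x / 2)
    have h2 := Real.cosh_sq (x / 2)
    have h3 : 2 * (x / 2) = x := by ring
    rw [h3] at h1
    rw [h1, h2]; ring
  rw [hc, hc]
  have h1 : Real.sinh ((σ + 2 * δ) / 2) ≤ (2 * Real.cosh δ + 1) * Real.sinh (σ / 2) := by
    have e1 : (σ + 2 * δ) / 2 = σ / 2 + δ := by ring
    rw [e1, Real.sinh_add]
    have e2 : Real.sinh δ = 2 * Real.sinh (δ / 2) * Real.cosh (δ / 2) := by
      have := Real.sinh_two_mul (δ / 2)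
      rwa [show 2 * (δ / 2) = δ by ring] at this
    have e3 : Real.cosh δ + 1 = 2 * Real.cosh (δ / 2) ^ 2 := by
      have h1 := Real.cosh_two_mul (δ / 2)
      have h2 := Real.cosh_sq (δ / 2)
      rw [show 2 * (δ / 2) = δ by ring] at h1
      rw [h1, h2]; ring
    have e4 : 0 ≤ Real.sinh (σ / 2 - δ / 2) := by
      rw [Real.sinh_nonneg_iff]; linarith
    rw [Real.sinh_sub] at e4
    have e5 : 0 < Real.cosh (δ / 2) := Real.cosh_pos _
    have e6 : Real.cosh (σ / 2) * Real.sinh δ ≤ (Real.cosh δ + 1) * Real.sinh (σ / 2) := by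
      rw [e2, e3]
      nlinarith [mul_nonneg e5.le e4]
    nlinarith
  have h2 : 0 ≤ Real.sinh (σ / 2) := by rw [Real.sinh_nonneg_iff]; linarith
  have h3 : 0 ≤ Real.sinh ((σ + 2 * δ) / 2) := by rw [Real.sinh_nonneg_iff]; linarith
  have h4 := psiGreen_cosh_le hδ hδ1
  have h5 : Real.sinh ((σ + 2 * δ) / 2) ≤ 4.0862 * Real.sinh (σ / 2) := by
    refine h1.trans ?_
    apply mul_le_mul_of_nonneg_right _ h2
    linarith
  have h6 : Real.sinh ((σ + 2 * δ) / 2) ^ 2 ≤ (4.0862 * Real.sinh (σ / 2)) ^ 2 :=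
    pow_le_pow_left₀ h3 h5 2
  nlinarith [sq_nonneg (Real.sinh (σ / 2))]

/-- far from the pole the Green function is at most a multiple of the Poisson kernel -/
theorem gr_far (s δ x : ℝ) (hs : 0 < s) (hδ : 0 < δ) (hδ1 : δ ≤ 1) (hx : x < 1) (hx' : -1 ≤ x)
    (hfar : 2 * δ ≤ s ∨ 2 * s ≤ δ) :
    gr s δ x ≤ 21 * (δ * (Real.sinh (s + δ) / (Real.cosh (s + δ) - x))) := by
  set A := Real.cosh (s + δ) with hA
  set B := Real.cosh (s - δ) with hB
  have hB1 : 1 ≤ B := Real.one_le_cosh _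
  have hA1 : 1 ≤ A := Real.one_le_cosh _
  have hAB : A - B = 2 * (Real.sinh s * Real.sinh δ) := by
    rw [hA, hB, Real.cosh_add, Real.cosh_sub]; ring
  have hss : 0 < Real.sinh s := Real.sinh_pos_iff.mpr hs
  have hsd : 0 < Real.sinh δ := Real.sinh_pos_iff.mpr hδ
  have hBx : 0 < B - x := by linarith
  have hAx : 0 < A - x := by linarith
  have hkey : A - 1 ≤ 16.73 * (B - 1) := by
    rcases hfar with h | h
    · have := psiGreen_half (σ := s - δ) hδ.le hδ1 (by linarith)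
      rwa [show s - δ + 2 * δ = s + δ by ring] at this
    · have := psiGreen_half (σ := δ - s) (δ := s) hs.le (by linarith) (by linarith)
      rw [show δ - s + 2 * s = s + δ by ring] at this
      rw [hB, ← Real.cosh_neg, neg_sub]
      exact this
  have h1 : gr s δ x ≤ Real.sinh s * Real.sinh δ / (B - x) := by
    rw [gr]
    have h2 : Real.log ((A - x) / (B - x)) ≤ (A - x) / (B - x) - 1 :=
      Real.log_le_sub_one_of_pos (div_pos hAx hBx)
    have h3 : (A - x) / (B - x) - 1 = 2 * (Real.sinh s * Real.sinh δ) / (B - x) := by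
      rw [← hAB]; field_simp; ring
    rw [h3] at h2
    have h4 : 2 * (Real.sinh s * Real.sinh δ) / (B - x) =
      2 * (Real.sinh s * Real.sinh δ / (B - x)) := by ring
    rw [h4] at h2
    linarith
  have h2 : 1 / (B - x) ≤ 16.73 / (A - x) := by
    rw [div_le_div_iff₀ hBx hAx]
    nlinarith
  have h3 : Real.sinh s ≤ Real.sinh (s + δ) := Real.sinh_le_sinh.mpr (by linarith)
  have h4 := psiGreen_sinh_le hδ.le hδ1
  calc gr s δ x ≤ Real.sinh s * Real.sinh δ / (B - x) := h1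
    _ = Real.sinh s * Real.sinh δ * (1 / (B - x)) := by ring
    _ ≤ Real.sinh s * Real.sinh δ * (16.73 / (A - x)) := by gcongr
    _ ≤ Real.sinh (s + δ) * (1.2223 * δ) * (16.73 / (A - x)) := by
        have : 0 ≤ 16.73 / (A - x) := by positivity
        have h5 : 0 ≤ Real.sinh (s + δ) := hss.le.trans h3
        gcongr
    _ = (1.2223 * 16.73) * (δ * (Real.sinh (s + δ) / (A - x))) := by ring
    _ ≤ 21 * (δ * (Real.sinh (s + δ) / (A - x))) := by
        have h5 : 0 ≤ Real.sinh (s + δ) := hss.le.trans h3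
        apply mul_le_mul_of_nonneg_right (by norm_num)
        positivity

private lemma psiGreen_cos_lt {ψ : ℝ} (hψ : Real.cos ψ ≠ 1) : Real.cos ψ < 1 :=
  lt_of_le_of_ne (Real.cos_le_one _) hψ

/-- near the pole -/
theorem gr_near (s δ ψ : ℝ) (hs : 0 < s) (hδ : 0 < δ) (hs' : s ≤ 2 * δ) (hψ : Real.cos ψ ≠ 1) :
    gr s δ (Real.cos ψ) ≤ gst δ ψ := by
  have h0 := psiGreen_cos_lt hψ
  have h1 : Real.cosh (s + δ) ≤ Real.cosh (3 * δ) := by
    rw [Real.cosh_le_cosh, abs_of_pos (by linarith), abs_of_pos (by linarith)]; linarith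
  have h2 : 1 ≤ Real.cosh (s - δ) := Real.one_le_cosh _
  have h3 : 1 ≤ Real.cosh (s + δ) := Real.one_le_cosh _
  rw [gr, gst]
  have h4 : (Real.cosh (s + δ) - Real.cos ψ) / (Real.cosh (s - δ) - Real.cos ψ) ≤
      (Real.cosh (3 * δ) - Real.cos ψ) / (1 - Real.cos ψ) := by
    apply div_le_div₀ <;> linarith
  have h5 : 0 < (Real.cosh (s + δ) - Real.cos ψ) / (Real.cosh (s - δ) - Real.cos ψ) := by
    apply div_pos <;> linarith
  have := Real.log_le_log h5 h4
  linarith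

/-- the squared distance of `1` from `e^{a + iψ}` -/
private lemma psiGreen_norm_sq (a ψ : ℝ) :
    ‖1 - Complex.exp ((a : ℂ) + (ψ : ℂ) * Complex.I)‖ ^ 2 =
      2 * Real.exp a * (Real.cosh a - Real.cos ψ) := by
  rw [← Complex.normSq_eq_norm_sq, Complex.normSq_apply]
  have hre : (Complex.exp ((a : ℂ) + (ψ : ℂ) * Complex.I)).re = Real.exp a * Real.cos ψ := by
    rw [Complex.exp_re]; simp
  have him : (Complex.exp ((a : ℂ) + (ψ : ℂ) * Complex.I)).im = Real.exp a * Real.sin ψ := by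
    rw [Complex.exp_im]; simp
  simp only [Complex.sub_re, Complex.sub_im, Complex.one_re, Complex.one_im, hre, him]
  have h1 := Real.sin_sq_add_cos_sq ψ
  have h2 : Real.exp a * Real.cosh a = (Real.exp a ^ 2 + 1) / 2 := by
    rw [Real.cosh_eq, Real.exp_neg]
    field_simp
  have h3 : 2 * Real.exp a * (Real.cosh a - Real.cos ψ) =
      2 * (Real.exp a * Real.cosh a) - 2 * Real.exp a * Real.cos ψ := by ring
  rw [h3, h2]
  nlinarith

private lemma psiGreen_log_norm (a ψ : ℝ) (hψ : Real.cos ψ < 1) :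
    Real.log ‖1 - Complex.exp ((a : ℂ) + (ψ : ℂ) * Complex.I)‖ =
      1 / 2 * (Real.log 2 + a + Real.log (Real.cosh a - Real.cos ψ)) := by
  have h1 := psiGreen_norm_sq a ψ
  have h2 : 1 ≤ Real.cosh a := Real.one_le_cosh _
  have h3 : 0 < Real.cosh a - Real.cos ψ := by linarith
  have h4 := congrArg Real.log h1
  rw [Real.log_pow, Real.log_mul (by positivity) h3.ne', Real.log_mul (by norm_num)
    (Real.exp_pos _).ne', Real.log_exp] at h4
  push_cast at h4
  linarith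

private lemma psiGreen_polar {a : ℂ} (ha : a ≠ 0) :
    a = Complex.exp ((Real.log ‖a‖ : ℝ) + (a.arg : ℂ) * Complex.I) := by
  rw [Complex.exp_add, ← Complex.ofReal_exp, Real.exp_log (norm_pos_iff.mpr ha)]
  exact (Complex.norm_mul_exp_arg_mul_I a).symm

private lemma psiGreen_mul_conj {a : ℂ} (ha : a ≠ 0) (s θ : ℝ) :
    pt s θ * starRingEnd ℂ a =
      Complex.exp (((Real.log ‖a‖ - s : ℝ) : ℂ) + ((θ - a.arg : ℝ) : ℂ) * Complex.I) := by
  conv_lhs => rw [psiGreen_polar ha]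
  rw [pt, ← Complex.exp_conj, ← Complex.exp_add]
  congr 1
  simp only [map_add, map_mul, Complex.conj_ofReal, Complex.conj_I]
  push_cast
  ring

private lemma psiGreen_mul_refl {a : ℂ} (ha : a ≠ 0) (h1 : 1 < ‖a‖) (s θ : ℝ) :
    pt s θ * starRingEnd ℂ (Len.refl a) =
      Complex.exp (((-(s + Real.log ‖a‖) : ℝ) : ℂ) + ((θ - a.arg : ℝ) : ℂ) * Complex.I) := by
  rw [refl_of_lt h1, map_inv₀, Complex.conj_conj]
  conv_lhs => rw [psiGreen_polar ha]
  rw [pt, ← Complex.exp_neg, ← Complex.exp_add]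
  congr 1
  push_cast
  ring

theorem Lam_eq_gr {n : ℕ} (α : Fin n → ℂ) (hα : ∀ l, α l ≠ 0) (s θ : ℝ) (hs : 0 < s)
    (hθ : Gen α θ) :
    Lam α (pt s θ) = ∑ l ∈ univ.filter (fun l => 1 < ‖α l‖),
      gr s (Real.log ‖α l‖) (Real.cos (θ - (α l).arg)) := by
  rw [Lam, hh, VV, VV, Finset.sum_filter]
  rw [show (∑ i, Real.posLog ‖α i‖) + (0 - ∑ j, Real.log ‖1 - pt s θ * starRingEnd ℂ (α j)‖) -
      (0 - ∑ j, Real.log ‖1 - pt s θ * starRingEnd ℂ (Len.refl (α j))‖) =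
      ∑ i, (Real.posLog ‖α i‖ - Real.log ‖1 - pt s θ * starRingEnd ℂ (α i)‖ +
        Real.log ‖1 - pt s θ * starRingEnd ℂ (Len.refl (α i))‖) by
    rw [Finset.sum_add_distrib, Finset.sum_sub_distrib]; ring]
  apply Finset.sum_congr rfl
  intro l _
  by_cases h : 1 < ‖α l‖
  · rw [if_pos h, psiGreen_mul_conj (hα l), psiGreen_mul_refl (hα l) h,
      psiGreen_log_norm _ _ (psiGreen_cos_lt (hθ l)), psiGreen_log_norm _ _ (psiGreen_cos_lt (hθ l)),
      Real.posLog_eq_log (by rw [abs_of_nonneg (norm_nonneg _)]; exact h.le), gr]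
    have e1 : Real.cosh (Real.log ‖α l‖ - s) = Real.cosh (s - Real.log ‖α l‖) := by
      rw [← Real.cosh_neg, neg_sub]
    have e2 : Real.cosh (-(s + Real.log ‖α l‖)) = Real.cosh (s + Real.log ‖α l‖) :=
      Real.cosh_neg _
    rw [e1, e2]
    have h1 : 1 ≤ Real.cosh (s - Real.log ‖α l‖) := Real.one_le_cosh _
    have h2 : 1 ≤ Real.cosh (s + Real.log ‖α l‖) := Real.one_le_cosh _
    have h3 := psiGreen_cos_lt (hθ l)
    rw [Real.log_div (by linarith) (by linarith)]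
    ring
  · rw [if_neg h]
    push Not at h
    rw [refl_of_le h, (Real.posLog_eq_zero_iff _).mpr (by rw [abs_of_nonneg (norm_nonneg _)]; exact h)]
    ring

theorem poisson_refl_pt (a : ℂ) (ha : 1 < ‖a‖) (s θ : ℝ) (hs : 0 < s) :
    (1 - ‖pt s θ * starRingEnd ℂ (Len.refl a)‖ ^ 2) / ‖1 - pt s θ * starRingEnd ℂ (Len.refl a)‖ ^ 2 =
      Real.sinh (s + Real.log ‖a‖) / (Real.cosh (s + Real.log ‖a‖) - Real.cos (θ - a.arg)) := by
  have ha0 : a ≠ 0 := by
    rintro rfl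
    rw [norm_zero] at ha
    exact absurd ha (by norm_num)
  have hl : 0 < Real.log ‖a‖ := Real.log_pos ha
  rw [psiGreen_mul_refl ha0 ha, psiGreen_norm_sq, Complex.norm_exp]
  set u := s + Real.log ‖a‖ with hu
  have hu0 : 0 < u := by linarith
  have e1 : (((-u : ℝ) : ℂ) + ((θ - a.arg : ℝ) : ℂ) * Complex.I).re = -u := by simp
  rw [e1, Real.cosh_neg]
  have h1 : 1 < Real.cosh u := Real.one_lt_cosh.mpr hu0.ne'
  have h2 : 0 < Real.cosh u - Real.cos (θ - a.arg) := by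
    have := Real.cos_le_one (θ - a.arg)
    linarith
  rw [div_eq_div_iff (by positivity) h2.ne', Real.sinh_eq, Real.exp_neg]
  have h3 := Real.exp_pos u
  field_simp

theorem Lam_le_SS {n : ℕ} (α : Fin n → ℂ) (hα : ∀ l, α l ≠ 0) (hh1 : hh α ≤ 1) (t s θ : ℝ)
    (ht : 0 < t) (hts : t ≤ s) (hst : s ≤ 2 * t) (hθ : Gen α θ) :
    Lam α (pt s θ) ≤ 21 * PP (PN α (fun l => Real.log ‖α l‖)) (pt s θ) + SS α t θ := by
  have hs : 0 < s := by linarith
  have hz : ‖pt s θ‖ < 1 := by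
    rw [pt, Complex.norm_exp]
    have : (((-s : ℝ) : ℂ) + (θ : ℂ) * Complex.I).re = -s := by simp
    rw [this]
    rw [← Real.exp_zero]
    exact Real.exp_lt_exp.mpr (by linarith)
  rw [Lam_eq_gr α hα s θ hs hθ, PP_PN α _ _ hz, SS, Finset.mul_sum]
  have hSS : ∑ l ∈ univ.filter (fun l => 1 < ‖α l‖ ∧ Real.log ‖α l‖ < 4 * t ∧
      t < 2 * Real.log ‖α l‖), gst (Real.log ‖α l‖) (θ - (α l).arg) =
      ∑ l ∈ univ.filter (fun l => 1 < ‖α l‖), if Real.log ‖α l‖ < 4 * t ∧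
        t < 2 * Real.log ‖α l‖ then gst (Real.log ‖α l‖) (θ - (α l).arg) else 0 := by
    rw [← Finset.sum_filter, Finset.filter_filter]
  rw [hSS, ← Finset.sum_add_distrib]
  apply Finset.sum_le_sum
  intro l hl
  rw [Finset.mem_filter] at hl
  have h1 : 1 < ‖α l‖ := hl.2
  have hδ : 0 < Real.log ‖α l‖ := Real.log_pos h1
  have hδ1 : Real.log ‖α l‖ ≤ 1 := by
    refine le_trans ?_ hh1
    rw [hh]
    have h2 : Real.log ‖α l‖ = Real.posLog ‖α l‖ :=
      (Real.posLog_eq_log (by rw [abs_of_nonneg (norm_nonneg _)]; exact h1.le)).symm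
    rw [h2]
    exact Finset.single_le_sum (f := fun i => Real.posLog ‖α i‖)
      (fun i _ => Real.posLog_nonneg) (Finset.mem_univ l)
  have hc := psiGreen_cos_lt (hθ l)
  rw [poisson_refl_pt (α l) h1 s θ hs]
  by_cases hfar : 2 * Real.log ‖α l‖ ≤ s ∨ 2 * s ≤ Real.log ‖α l‖
  · have h3 := gr_far s _ _ hs hδ hδ1 hc (Real.neg_one_le_cos _) hfar
    have h4 : 0 ≤ if Real.log ‖α l‖ < 4 * t ∧ t < 2 * Real.log ‖α l‖ then
        gst (Real.log ‖α l‖) (θ - (α l).arg) else 0 := by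
      split_ifs
      · exact gst_nonneg _ _ (hθ l)
      · exact le_rfl
    linarith
  · push Not at hfar
    rw [if_pos ⟨by linarith [hfar.2], by linarith [hfar.1]⟩]
    have h3 := gr_near s (Real.log ‖α l‖) (θ - (α l).arg) hs hδ hfar.1.le (hθ l)
    have h4 : 0 ≤ Real.sinh (s + Real.log ‖α l‖) /
        (Real.cosh (s + Real.log ‖α l‖) - Real.cos (θ - (α l).arg)) := by
      apply div_nonneg
      · exact Real.sinh_nonneg_iff.mpr (by linarith)
      · have := Real.one_le_cosh (s + Real.log ‖α l‖)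
        linarith
    have h5 : 0 ≤ 21 * (Real.log ‖α l‖ * (Real.sinh (s + Real.log ‖α l‖) /
        (Real.cosh (s + Real.log ‖α l‖) - Real.cos (θ - (α l).arg)))) := by positivity
    linarith

end Pool.Agent.Lib.MP_7ab245_nt.TrE
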