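import Mathlib
import Pool.Agent.Lib.MP_7ab245_nt.TrE.PsiAlg

/-! The mean of `log |RR|` over the unit circle. -/

set_option autoImplicit false

open Polynomial Finset

namespace Pool.Agent.Lib.MP_7ab245_nt.TrE

open Pool.Agent.Lib.MP_7ab245_nt.Len
open Pool.Agent.Lib.MP_7ab245_nt.L1

private theorem rr_bad_finite {m : ℕ} (x : Fin m → ℂ) :
    {ζ : ℂ | ∃ l, 1 - ζ * starRingEnd ℂ (x l) = 0}.Finite := by
  have h2 : {ζ : ℂ | ∃ l, 1 - ζ * starRingEnd ℂ (x l) = 0} ⊆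
      Set.range (fun l => (starRingEnd ℂ (x l))⁻¹) := by
    rintro ζ ⟨l, hl⟩
    refine ⟨l, ?_⟩
    have h3 : ζ * starRingEnd ℂ (x l) = 1 := by linear_combination -hl
    exact (eq_inv_of_mul_eq_one_left h3).symm
  exact (Set.finite_range _).subset h2

private theorem rr_finite_codiscrete {S : Set ℂ} (hS : S.Finite) :
    Sᶜ ∈ Filter.codiscreteWithin (Metric.sphere (0 : ℂ) |1|) :=
  Filter.codiscreteWithin_mono (Set.subset_univ _) hS.compl_mem_codiscrete

private theorem rr_ci_eval (P : ℂ[X]) :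
    CircleIntegrable (fun z : ℂ => Real.log ‖P.eval z‖) 0 1 := by
  have h : MeromorphicOn (fun z : ℂ => P.eval z) (Metric.sphere 0 |1|) := by
    have h1 : AnalyticOnNhd ℂ (fun z : ℂ => P.eval z) (Metric.sphere 0 |1|) := by
      have := AnalyticOnNhd.eval_polynomial (𝕜 := ℂ) P
      exact this.mono (Set.subset_univ _)
    exact h1.meromorphicOn
  exact h.circleIntegrable_log_norm

/-- Jensen's formula for polynomials without zeros in the open unit disc -/
private theorem rr_jensen (T : ℂ[X]) (hT : T ≠ 0) (h : ∀ z : ℂ, ‖z‖ < 1 → T.eval z ≠ 0) :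
    Real.circleAverage (fun z => Real.log ‖T.eval z‖) 0 1 = Real.log ‖T.eval 0‖ := by
  rw [← logMahlerMeasure_def, logMahlerMeasure_eq_log_MahlerMeasure,
    mahlerMeasure_eq_leadingCoeff_mul_prod_roots]
  congr 1
  have hs : T.roots.card = T.natDegree := IsAlgClosed.card_roots_eq_natDegree
  have h2 : T.eval 0 = T.leadingCoeff * (T.roots.map (fun a => -a)).prod := by
    conv_lhs => rw [← C_leadingCoeff_mul_prod_multiset_X_sub_C hs]
    rw [eval_mul, eval_C, eval_multiset_prod, Multiset.map_map]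
    congr 2
    refine Multiset.map_congr rfl fun a _ => ?_
    simp
  rw [h2, norm_mul]
  congr 1
  have h3 : ‖(T.roots.map (fun a => -a)).prod‖ = (T.roots.map (fun a => ‖a‖)).prod := by
    have := map_multiset_prod (normHom (α := ℂ)) (T.roots.map (fun a => -a))
    rw [Multiset.map_map] at this
    refine Eq.trans this ?_
    congr 1
    refine Multiset.map_congr rfl fun a _ => ?_
    simp
  rw [h3]
  congr 1
  refine Multiset.map_congr rfl fun a ha => ?_
  have h4 : T.eval a = 0 := (mem_roots hT).1 ha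
  have h5 : 1 ≤ ‖a‖ := by
    by_contra hcon
    exact h a (not_le.1 hcon) h4
  exact max_eq_right h5

private noncomputable def rr_T {n : ℕ} (y : Fin n → ℂ) : ℂ[X] :=
  ∑ l, ∏ j ∈ univ.erase l, (1 - X * Polynomial.C (starRingEnd ℂ (y j)))

private theorem rr_T_eval {n : ℕ} (hn : 0 < n) (y : Fin n → ℂ) (z : ℂ)
    (h : ∀ l, 1 - z * starRingEnd ℂ (y l) ≠ 0) :
    (rr_T y).eval z = n * RR y z * ∏ j, (1 - z * starRingEnd ℂ (y j)) := by
  have hn' : (n : ℂ) ≠ 0 := by exact_mod_cast hn.ne'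
  unfold rr_T RR
  rw [mul_div_cancel₀ _ hn', eval_finsetSum, Finset.sum_mul]
  refine Finset.sum_congr rfl fun l _ => ?_
  rw [eval_prod, ← Finset.mul_prod_erase univ _ (Finset.mem_univ l), ← mul_assoc,
    div_mul_cancel₀ _ (h l), one_mul]
  refine Finset.prod_congr rfl fun j _ => ?_
  rw [eval_sub, eval_one, eval_mul, eval_X, eval_C]

private theorem rr_T_zero {n : ℕ} (y : Fin n → ℂ) : (rr_T y).eval 0 = n := by
  unfold rr_T
  rw [eval_finsetSum]
  have : ∀ l ∈ (univ : Finset (Fin n)), (∏ j ∈ univ.erase l, (1 - X * Polynomial.C (starRingEnd ℂ (y j)))).eval 0 = 1 := by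
    intro l _
    rw [eval_prod]
    refine Finset.prod_eq_one fun j _ => ?_
    rw [eval_sub, eval_one, eval_mul, eval_X, eval_C]
    ring
  rw [Finset.sum_congr rfl this]
  simp

private theorem rr_eq {n : ℕ} (hn : 0 < n) (y : Fin n → ℂ) (hy : ∀ l, ‖y l‖ ≤ 1) (ζ : ℂ) (hζ : ‖ζ‖ = 1)
    (h : ∀ l, 1 - ζ * starRingEnd ℂ (y l) ≠ 0) :
    Real.log (5 * max ‖RR y ζ‖ (1 / 2)) =
      (Real.log 5 - Real.log n) + (Real.log ‖(rr_T y).eval ζ‖ + VV y 0 ζ) := by
  have h1 := half_le_norm_RR hn y hy ζ hζ.le h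
  have h2 : 0 < ‖RR y ζ‖ := lt_of_lt_of_le (by norm_num) h1
  have hn' : (0 : ℝ) < n := by exact_mod_cast hn
  rw [max_eq_left h1, Real.log_mul (by norm_num) h2.ne', rr_T_eval hn y ζ h, norm_mul, norm_mul,
    norm_prod]
  have h3 : ∀ l ∈ (univ : Finset (Fin n)), ‖1 - ζ * starRingEnd ℂ (y l)‖ ≠ 0 := fun l _ =>
    norm_ne_zero_iff.2 (h l)
  have h4 : (∏ l, ‖1 - ζ * starRingEnd ℂ (y l)‖) ≠ 0 := Finset.prod_ne_zero_iff.2 h3
  have h5 : ‖(n : ℂ)‖ = n := by simp
  rw [h5, Real.log_mul (mul_ne_zero hn'.ne' h2.ne') h4, Real.log_mul hn'.ne' h2.ne', Real.log_prod h3]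
  unfold VV
  ring

private theorem rr_ev {n : ℕ} (hn : 0 < n) (y : Fin n → ℂ) (hy : ∀ l, ‖y l‖ ≤ 1) :
    (fun ζ => (Real.log 5 - Real.log n) + (Real.log ‖(rr_T y).eval ζ‖ + VV y 0 ζ))
      =ᶠ[Filter.codiscreteWithin (Metric.sphere (0 : ℂ) |1|)]
    (fun ζ => Real.log (5 * max ‖RR y ζ‖ (1 / 2))) := by
  filter_upwards [rr_finite_codiscrete (rr_bad_finite y), Filter.self_mem_codiscreteWithin _] with ζ hζ hs
  have hz1 : ‖ζ‖ = 1 := norm_of_mem_sphere hs
  refine (rr_eq hn y hy ζ hz1 ?_).symm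
  intro l hl
  exact hζ ⟨l, hl⟩

private theorem rr_ci {n : ℕ} (y : Fin n → ℂ) :
    CircleIntegrable (fun ζ => Real.log ‖(rr_T y).eval ζ‖ + VV y 0 ζ) 0 1 :=
  (rr_ci_eval (rr_T y)).add (circleIntegrable_VV y)

theorem circleIntegrable_log_RR {n : ℕ} (hn : 0 < n) (y : Fin n → ℂ) (hy : ∀ l, ‖y l‖ ≤ 1) :
    CircleIntegrable (fun ζ => Real.log (5 * max ‖RR y ζ‖ (1 / 2))) 0 1 :=
  CircleIntegrable.congr_codiscreteWithin (rr_ev hn y hy)
    ((circleIntegrable_const _ _ _).add (rr_ci y))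

theorem circleAverage_log_RR {n : ℕ} (hn : 0 < n) (y : Fin n → ℂ) (hy : ∀ l, ‖y l‖ ≤ 1) :
    Real.circleAverage (fun ζ => Real.log (5 * max ‖RR y ζ‖ (1 / 2))) 0 1 = Real.log 5 := by
  rw [← Real.circleAverage_congr_codiscreteWithin (rr_ev hn y hy) one_ne_zero,
    Real.circleAverage_fun_add (circleIntegrable_const _ _ _) (rr_ci y), Real.circleAverage_const,
    Real.circleAverage_fun_add (rr_ci_eval (rr_T y)) (circleIntegrable_VV y), circleAverage_VV y hy]
  have hT0 : (rr_T y).eval 0 ≠ 0 := by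
    rw [rr_T_zero]
    exact_mod_cast hn.ne'
  have hT : rr_T y ≠ 0 := by
    intro h
    rw [h, eval_zero] at hT0
    exact hT0 rfl
  rw [rr_jensen (rr_T y) hT, rr_T_zero]
  · simp
  · intro z hz h0
    have h1 : ∀ l, 1 - z * starRingEnd ℂ (y l) ≠ 0 := fun l => one_sub_ne_zero hz (hy l)
    have h2 := half_le_norm_RR hn y hy z hz.le h1
    rw [rr_T_eval hn y z h1] at h0
    have hn' : (n : ℂ) ≠ 0 := by exact_mod_cast hn.ne'
    have h3 : RR y z ≠ 0 := by
      intro h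
      rw [h, norm_zero] at h2
      norm_num at h2
    exact mul_ne_zero (mul_ne_zero hn' h3) (Finset.prod_ne_zero_iff.2 fun l _ => h1 l) h0

end Pool.Agent.Lib.MP_7ab245_nt.TrE
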