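import Mathlib
import Pool.Agent.Lib.MP_7ab245_nt.TrE.PsiR
import Pool.Agent.Lib.MP_7ab245_nt.TrE.PsiPJ
import Pool.Agent.Lib.MP_7ab245_nt.TrE.PsiGreen
import Pool.Agent.Lib.MP_7ab245_nt.TrE.Parseval

/-! The function `WW` controls `QQ` and `Lam`. -/

set_option autoImplicit false

open Polynomial Finset

namespace Pool.Agent.Lib.MP_7ab245_nt.TrE

open Pool.Agent.Lib.MP_7ab245_nt.Len
open Pool.Agent.Lib.MP_7ab245_nt.L1

private theorem psiW_DL {n : ℕ} (α : Fin n → ℂ) (m : ℕ) : 0 ≤ DL (pw α) m := by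
  unfold DL
  exact Finset.sum_nonneg fun k _ => by positivity

private theorem psiW_EN_nonneg {n : ℕ} (α : Fin n → ℂ) (m : ℕ) : 0 ≤ EN α m := by
  unfold EN
  have := psiW_DL α m
  positivity

theorem EN_facts {n : ℕ} (hn : 0 < n) (α : Fin n → ℂ) (m : ℕ) (hm : 1 ≤ m) (hmn : m ≤ n) :
    1 ≤ EN α m ∧ (n : ℝ) ≤ m * EN α m ∧
      Real.sqrt (m * DL (pw α) m) ≤ m * EN α m / 2 := by
  have hD := psiW_DL α m
  have hn0 : (0 : ℝ) < n := by exact_mod_cast hn
  have hm0 : (0 : ℝ) < m := by exact_mod_cast hm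
  have hmn' : (m : ℝ) ≤ n := by exact_mod_cast hmn
  have h1 : 1 ≤ (n : ℝ) / m := by
    rw [one_le_div hm0]
    exact hmn'
  have h2 : 0 ≤ DL (pw α) m / n := by positivity
  have h3 : (m : ℝ) * EN α m = n + m * DL (pw α) m / n := by
    unfold EN
    field_simp
  refine ⟨?_, ?_, ?_⟩
  · unfold EN
    linarith
  · rw [h3]
    have : 0 ≤ (m : ℝ) * DL (pw α) m / n := by positivity
    linarith
  · rw [Real.sqrt_le_left (by rw [h3]; positivity)]
    rw [h3]
    set x : ℝ := m * DL (pw α) m / n with hx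
    have h4 : (m : ℝ) * DL (pw α) m = n * x := by
      rw [hx]
      field_simp
    rw [h4]
    nlinarith [sq_nonneg ((n : ℝ) - x)]

private theorem psiW_cont_sum {n : ℕ} (α : Fin n → ℂ) (m : ℕ) :
    Continuous (fun ζ : ℂ => ‖∑ k ∈ Finset.Ico 1 m, pw α k * ζ ^ k‖) := by
  fun_prop

private theorem psiW_int_sum {n : ℕ} (α : Fin n → ℂ) (m : ℕ) :
    CircleIntegrable (fun ζ : ℂ => ‖∑ k ∈ Finset.Ico 1 m, pw α k * ζ ^ k‖) 0 1 :=
  (psiW_cont_sum α m).continuousOn.circleIntegrable (by norm_num)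

private theorem psiW_div {f : ℂ → ℝ} (hf : CircleIntegrable f 0 1) (c : ℝ) :
    CircleIntegrable (fun ζ => f ζ / c) 0 1 := by
  unfold CircleIntegrable at hf ⊢
  exact hf.div_const c

theorem circleIntegrable_WA {n : ℕ} (hn : 0 < n) (α : Fin n → ℂ) (m : ℕ) :
    CircleIntegrable (WA α m) 0 1 := by
  have h1 := circleIntegrable_log_RR hn (fun l => Len.refl (α l)) (fun l => norm_refl_le (α l))
  have h2 := psiW_div (circleIntegrable_PN α (fun _ => 1)) (m * EN α m)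
  have h3 := psiW_div (psiW_int_sum α m) (m * EN α m)
  exact (h1.add h2).add h3

private theorem psiW_avg_div (f : ℂ → ℝ) (c : ℝ) :
    Real.circleAverage (fun ζ => f ζ / c) 0 1 = Real.circleAverage f 0 1 / c := by
  have : (fun ζ => f ζ / c) = fun ζ => c⁻¹ • f ζ := by
    funext ζ
    rw [smul_eq_mul, div_eq_inv_mul]
  rw [this, Real.circleAverage_fun_smul, smul_eq_mul, div_eq_inv_mul]

private theorem psiW_avg_sq {n : ℕ} (α : Fin n → ℂ) (m : ℕ) :
    Real.circleAverage (fun ζ : ℂ => ‖∑ k ∈ Finset.Ico 1 m, pw α k * ζ ^ k‖ ^ 2) 0 1 ≤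
      m * DL (pw α) m := by
  have h1 := avg_normSq (pw α) m
  have h2 : Real.circleAverage (fun ζ : ℂ => ‖∑ k ∈ Finset.Ico 1 m, pw α k * ζ ^ k‖ ^ 2) 0 1 =
      ∑ k ∈ Finset.Ico 1 m, ‖pw α k‖ ^ 2 := by
    rw [← h1]
    unfold Real.circleAverage
    rw [smul_eq_mul]
    congr 1
    refine intervalIntegral.integral_congr fun θ _ => ?_
    simp only
    have h3 : circleMap 0 1 θ = pt 0 θ := by
      unfold circleMap pt
      simp
    rw [h3]
  rw [h2, DL, Finset.mul_sum]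
  refine Finset.sum_le_sum fun k hk => ?_
  rw [Finset.mem_Ico] at hk
  have hk0 : (0 : ℝ) < k := by exact_mod_cast hk.1
  have hkm : (k : ℝ) ≤ m := by exact_mod_cast hk.2.le
  rw [← mul_div_assoc, le_div_iff₀ hk0]
  have := sq_nonneg ‖pw α k‖
  nlinarith

theorem circleAverage_WA {n : ℕ} (hn : 0 < n) (α : Fin n → ℂ) (m : ℕ) (hm : 1 ≤ m)
    (hmn : m ≤ n) : Real.circleAverage (WA α m) 0 1 ≤ 4 := by
  obtain ⟨hE1, hE2, hE3⟩ := EN_facts hn α m hm hmn
  have hn0 : (0 : ℝ) < n := by exact_mod_cast hn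
  have hm0 : (0 : ℝ) < m := by exact_mod_cast hm
  have hmE : 0 < (m : ℝ) * EN α m := by linarith
  have h1 := circleIntegrable_log_RR hn (fun l => Len.refl (α l)) (fun l => norm_refl_le (α l))
  have h2 := psiW_div (circleIntegrable_PN α (fun _ => 1)) (m * EN α m)
  have h3 := psiW_div (psiW_int_sum α m) (m * EN α m)
  have hA1 := circleAverage_log_RR hn (fun l => Len.refl (α l)) (fun l => norm_refl_le (α l))
  have hA2 : Real.circleAverage (fun ζ => PN α (fun _ => 1) ζ / (m * EN α m)) 0 1 ≤ 1 := by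
    rw [psiW_avg_div, circleAverage_PN, Finset.sum_const, nsmul_eq_mul, mul_one,
      div_le_one hmE]
    have : ((univ.filter (fun l => 1 < ‖α l‖)).card : ℝ) ≤ n := by
      have h4 : (univ.filter (fun l => 1 < ‖α l‖)).card ≤ n := by
        refine (Finset.card_filter_le _ _).trans ?_
        simp
      exact_mod_cast h4
    linarith
  have hA3 : Real.circleAverage (fun ζ : ℂ => ‖∑ k ∈ Finset.Ico 1 m, pw α k * ζ ^ k‖ /
      (m * EN α m)) 0 1 ≤ 5 / 8 := by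
    have hsqi : CircleIntegrable (fun ζ : ℂ => ‖∑ k ∈ Finset.Ico 1 m, pw α k * ζ ^ k‖ ^ 2) 0 1 :=
      ((psiW_cont_sum α m).pow 2).continuousOn.circleIntegrable (by norm_num)
    have h4 : Real.circleAverage (fun ζ : ℂ => ‖∑ k ∈ Finset.Ico 1 m, pw α k * ζ ^ k‖ /
        (m * EN α m)) 0 1 ≤ Real.circleAverage (fun ζ : ℂ =>
          ‖∑ k ∈ Finset.Ico 1 m, pw α k * ζ ^ k‖ ^ 2 / (2 * (m * EN α m) ^ 2) + 1 / 2) 0 1 := by
      refine Real.circleAverage_mono h3 ((psiW_div hsqi _).add (circleIntegrable_const _ _ _))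
        fun ζ _ => ?_
      set x := ‖∑ k ∈ Finset.Ico 1 m, pw α k * ζ ^ k‖ with hx
      have h5 : x ^ 2 / (2 * (m * EN α m) ^ 2) + 1 / 2 - x / (m * EN α m) =
          (x / (m * EN α m) - 1) ^ 2 / 2 := by
        field_simp
        ring
      have h6 : 0 ≤ (x / (m * EN α m) - 1) ^ 2 / 2 := by positivity
      linarith
    have h5 : Real.circleAverage (fun ζ : ℂ =>
          ‖∑ k ∈ Finset.Ico 1 m, pw α k * ζ ^ k‖ ^ 2 / (2 * (m * EN α m) ^ 2) + 1 / 2) 0 1 =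
        Real.circleAverage (fun ζ : ℂ => ‖∑ k ∈ Finset.Ico 1 m, pw α k * ζ ^ k‖ ^ 2) 0 1 /
          (2 * (m * EN α m) ^ 2) + 1 / 2 := by
      rw [Real.circleAverage_fun_add (psiW_div hsqi _) (circleIntegrable_const _ _ _),
        psiW_avg_div, Real.circleAverage_const]
    have h6 : Real.circleAverage (fun ζ : ℂ => ‖∑ k ∈ Finset.Ico 1 m, pw α k * ζ ^ k‖ ^ 2) 0 1 ≤
        (m * EN α m / 2) ^ 2 := by
      refine (psiW_avg_sq α m).trans ?_
      have h7 : 0 ≤ (m : ℝ) * DL (pw α) m := mul_nonneg hm0.le (psiW_DL α m)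
      rw [← Real.sq_sqrt h7]
      exact pow_le_pow_left₀ (Real.sqrt_nonneg _) hE3 2
    rw [h5] at h4
    refine h4.trans ?_
    have h7 : Real.circleAverage (fun ζ : ℂ => ‖∑ k ∈ Finset.Ico 1 m, pw α k * ζ ^ k‖ ^ 2) 0 1 /
          (2 * (m * EN α m) ^ 2) ≤ 1 / 8 := by
      rw [div_le_iff₀ (by positivity)]
      refine h6.trans (le_of_eq ?_)
      ring
    linarith
  have hsum : Real.circleAverage (WA α m) 0 1 =
      Real.circleAverage (fun ζ => Real.log (5 * max ‖RR (fun l => Len.refl (α l)) ζ‖ (1 / 2))) 0 1 +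
      Real.circleAverage (fun ζ => PN α (fun _ => 1) ζ / (m * EN α m)) 0 1 +
      Real.circleAverage (fun ζ : ℂ => ‖∑ k ∈ Finset.Ico 1 m, pw α k * ζ ^ k‖ /
        (m * EN α m)) 0 1 := by
    have h12 : CircleIntegrable (fun ζ => Real.log (5 * max ‖RR (fun l => Len.refl (α l)) ζ‖
        (1 / 2)) + PN α (fun _ => 1) ζ / (m * EN α m)) 0 1 := h1.add h2
    rw [← Real.circleAverage_fun_add h1 h2, ← Real.circleAverage_fun_add h12 h3]
    rfl
  rw [hsum, hA1]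
  have hlog5 : Real.log 5 ≤ 2 := by
    have h8 : (5 : ℝ) ≤ Real.exp 2 := by
      have h9 := Real.exp_one_gt_d9
      have h10 : Real.exp 2 = Real.exp 1 * Real.exp 1 := by
        rw [← Real.exp_add]
        norm_num
      rw [h10]
      nlinarith
    have := Real.log_le_log (by norm_num) h8
    rwa [Real.log_exp] at this
  linarith

theorem WA_nonneg {n : ℕ} (hn : 0 < n) (α : Fin n → ℂ) (m : ℕ) (ζ : ℂ) (hζ : ‖ζ‖ = 1) :
    0 ≤ WA α m ζ := by
  have hE := psiW_EN_nonneg α m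
  have h1 : 0 ≤ Real.log (5 * max ‖RR (fun l => Len.refl (α l)) ζ‖ (1 / 2)) := by
    apply Real.log_nonneg
    have := le_max_right ‖RR (fun l => Len.refl (α l)) ζ‖ (1 / 2)
    linarith
  have h2 := PN_nonneg α (fun _ => 1) (fun _ _ => zero_le_one) ζ hζ
  have h3 : 0 ≤ PN α (fun _ => 1) ζ / (m * EN α m) := by positivity
  have h4 : 0 ≤ ‖∑ k ∈ Finset.Ico 1 m, pw α k * ζ ^ k‖ / (m * EN α m) := by positivity
  unfold WA
  linarith

private theorem psiW_refl_ne {a ζ : ℂ} (hζ : ‖ζ‖ = 1) (h : 1 - ζ * starRingEnd ℂ a ≠ 0) :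
    1 - ζ * starRingEnd ℂ (Len.refl a) ≠ 0 := by
  rcases le_or_gt ‖a‖ 1 with h1 | h1
  · rwa [refl_of_le h1]
  · rw [refl_of_lt h1, map_inv₀, Complex.conj_conj]
    intro h2
    have h3 : ζ * a⁻¹ = 1 := (sub_eq_zero.mp h2).symm
    have h4 := congrArg norm h3
    rw [norm_mul, hζ, one_mul, norm_inv, norm_one, inv_eq_one] at h4
    linarith

theorem QQ_le_WA {n : ℕ} (hn : 0 < n) (α : Fin n → ℂ) (m : ℕ) (hm : 1 ≤ m) (hmn : m ≤ n) (ζ : ℂ)
    (hζ : ‖ζ‖ = 1) (h : ∀ l, 1 - ζ * starRingEnd ℂ (α l) ≠ 0) :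
    ‖QQ α m ζ‖ ≤ m * EN α m * Real.exp (WA α m ζ) := by
  obtain ⟨hE1, hE2, hE3⟩ := EN_facts hn α m hm hmn
  have hn0 : (0 : ℝ) < n := by exact_mod_cast hn
  have hmE : 0 < (m : ℝ) * EN α m := by linarith
  have h1 := QQ_circle hn α m hm ζ hζ h
  have hR := half_le_norm_RR hn (fun l => Len.refl (α l)) (fun l => norm_refl_le (α l)) ζ hζ.le
    (fun l => psiW_refl_ne hζ (h l))
  have hPN := PN_nonneg α (fun _ => 1) (fun _ _ => zero_le_one) ζ hζ
  set R := ‖RR (fun l => Len.refl (α l)) ζ‖ with hRdef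
  set a := PN α (fun _ => 1) ζ / (m * EN α m) with ha
  set b := ‖∑ k ∈ Finset.Ico 1 m, pw α k * ζ ^ k‖ / (m * EN α m) with hb
  have ha0 : 0 ≤ a := by positivity
  have hb0 : 0 ≤ b := by positivity
  have h2 : ‖RR (fun l => Len.refl (α l)) ζ - 1‖ ≤ R + 1 := by
    refine (norm_sub_le _ _).trans ?_
    rw [norm_one]
  have h3 : ‖QQ α m ζ‖ ≤ m * EN α m * (R + 1 + a + b) := by
    refine h1.trans ?_
    have h4 : (n : ℝ) * ‖RR (fun l => Len.refl (α l)) ζ - 1‖ ≤ m * EN α m * (R + 1) :=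
      mul_le_mul hE2 h2 (norm_nonneg _) hmE.le
    have h5 : m * EN α m * a = PN α (fun _ => 1) ζ := by
      rw [ha]
      field_simp
    have h6 : m * EN α m * b = ‖∑ k ∈ Finset.Ico 1 m, pw α k * ζ ^ k‖ := by
      rw [hb]
      field_simp
    have h7 : m * EN α m * (R + 1 + a + b) = m * EN α m * (R + 1) + m * EN α m * a +
        m * EN α m * b := by ring
    rw [h7, h5, h6]
    linarith
  refine h3.trans (mul_le_mul_of_nonneg_left ?_ hmE.le)
  have h4 : WA α m ζ = Real.log (5 * R) + (a + b) := by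
    unfold WA
    rw [← hRdef, max_eq_left hR]
    ring
  rw [h4, Real.exp_add, Real.exp_log (by linarith)]
  have h5 := Real.add_one_le_exp (a + b)
  have h6 : 5 * R * (a + b + 1) ≤ 5 * R * Real.exp (a + b) :=
    mul_le_mul_of_nonneg_left h5 (by linarith)
  have h7 : R * a ≥ 1 / 2 * a := mul_le_mul_of_nonneg_right hR ha0
  have h8 : R * b ≥ 1 / 2 * b := mul_le_mul_of_nonneg_right hR hb0
  nlinarith

private theorem psiW_smul {f : ℂ → ℝ} (hf : CircleIntegrable f 0 1) (c : ℝ) :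
    CircleIntegrable (fun ζ => c * f ζ) 0 1 := by
  unfold CircleIntegrable at hf ⊢
  exact hf.const_mul c

theorem circleIntegrable_WW {n : ℕ} (hn : 0 < n) (α : Fin n → ℂ) (m : ℕ) :
    CircleIntegrable (WW α m) 0 1 :=
  (circleIntegrable_WA hn α m).add (psiW_smul (circleIntegrable_PN α _) 21)

private theorem psiW_sum_log {n : ℕ} (α : Fin n → ℂ) :
    ∑ l ∈ univ.filter (fun l => 1 < ‖α l‖), Real.log ‖α l‖ = hh α := by
  rw [hh, Finset.sum_filter]
  refine Finset.sum_congr rfl fun l _ => ?_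
  split_ifs with h
  · rw [Real.posLog_eq_log (by rw [abs_of_nonneg (norm_nonneg _)]; exact h.le)]
  · rw [(Real.posLog_eq_zero_iff _).mpr
      (by rw [abs_of_nonneg (norm_nonneg _)]; exact not_lt.mp h)]

theorem circleAverage_WW {n : ℕ} (hn : 0 < n) (α : Fin n → ℂ) (hh1 : hh α ≤ 1) (m : ℕ)
    (hm : 1 ≤ m) (hmn : m ≤ n) : Real.circleAverage (WW α m) 0 1 ≤ 25 := by
  have h1 := circleAverage_WA hn α m hm hmn
  have h2 : Real.circleAverage (WW α m) 0 1 = Real.circleAverage (WA α m) 0 1 +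
      Real.circleAverage (fun ζ => (21 : ℝ) • PN α (fun l => Real.log ‖α l‖) ζ) 0 1 := by
    have h3 : CircleIntegrable (fun ζ => (21 : ℝ) • PN α (fun l => Real.log ‖α l‖) ζ) 0 1 :=
      psiW_smul (circleIntegrable_PN α _) 21
    rw [← Real.circleAverage_fun_add (circleIntegrable_WA hn α m) h3]
    rfl
  rw [h2, Real.circleAverage_fun_smul, smul_eq_mul, circleAverage_PN, psiW_sum_log]
  linarith

private theorem psiW_PNlog_nonneg {n : ℕ} (α : Fin n → ℂ) (ζ : ℂ) (hζ : ‖ζ‖ = 1) :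
    0 ≤ PN α (fun l => Real.log ‖α l‖) ζ :=
  PN_nonneg α _ (fun l hl => (Real.log_pos hl).le) ζ hζ

theorem WW_nonneg {n : ℕ} (hn : 0 < n) (α : Fin n → ℂ) (m : ℕ) (ζ : ℂ) (hζ : ‖ζ‖ = 1) :
    0 ≤ WW α m ζ := by
  have h1 := WA_nonneg hn α m ζ hζ
  have h2 := psiW_PNlog_nonneg α ζ hζ
  unfold WW
  linarith

private theorem psiW_PP_smul (W : ℂ → ℝ) (c : ℝ) (z : ℂ) :
    PP (fun ζ => c * W ζ) z = c * PP W z := by
  unfold PP
  have h4 : (fun ζ => poissonKernel 0 z ζ * (c * W ζ)) =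
      fun ζ => c • (poissonKernel 0 z ζ * W ζ) := by
    funext ζ
    rw [smul_eq_mul]
    ring
  rw [h4, Real.circleAverage_fun_smul, smul_eq_mul]

theorem WW_bound {n : ℕ} (hn : 0 < n) (α : Fin n → ℂ) (hα : ∀ l, α l ≠ 0) (hh1 : hh α ≤ 1)
    (m : ℕ) (hm : 1 ≤ m) (hmn : m ≤ n) (t s θ : ℝ) (ht : 0 < t) (hts : t ≤ s) (hst : s ≤ 2 * t)
    (hθ : Gen α θ) :
    ‖QQ α m (pt s θ)‖ ≤ m * EN α m *
      Real.exp (2 * PP (WW α m) (pt t θ) + SS α t θ) ∧
    Lam α (pt s θ) ≤ 2 * PP (WW α m) (pt t θ) + SS α t θ := by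
  obtain ⟨hE1, hE2, hE3⟩ := EN_facts hn α m hm hmn
  have hn0 : (0 : ℝ) < n := by exact_mod_cast hn
  have hmE : 0 < (m : ℝ) * EN α m := by linarith
  have hs : 0 < s := by linarith
  have hzn : ∀ r : ℝ, 0 < r → ‖pt r θ‖ < 1 := by
    intro r hr
    rw [pt, Complex.norm_exp]
    have : (((-r : ℝ) : ℂ) + (θ : ℂ) * Complex.I).re = -r := by simp
    rw [this, ← Real.exp_zero]
    exact Real.exp_lt_exp.mpr (by linarith)
  have hz := hzn s hs
  have hzt := hzn t ht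
  have hWAi := circleIntegrable_WA hn α m
  have hPNi := circleIntegrable_PN α (fun l => Real.log ‖α l‖)
  have h1 := QQ_le_PP α hα m (WA α m) hWAi (m * EN α m) hmE
    (fun ζ hζ h => QQ_le_WA hn α m hm hmn ζ hζ h) (pt s θ) hz (fun l => Gen_ne α hα θ hθ s l)
  have h2 := Lam_le_SS α hα hh1 t s θ ht hts hst hθ
  have h3 : PP (WW α m) (pt s θ) = PP (WA α m) (pt s θ) +
      21 * PP (PN α (fun l => Real.log ‖α l‖)) (pt s θ) := by
    rw [← psiW_PP_smul, ← PP_add _ _ hWAi (psiW_smul hPNi 21) _ hz]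
    rfl
  have hWAn : 0 ≤ PP (WA α m) (pt s θ) := PP_nonneg _ (fun ζ hζ => WA_nonneg hn α m ζ hζ) _ hz
  have hrad := PP_radial_le (WW α m) (circleIntegrable_WW hn α m)
    (fun ζ hζ => WW_nonneg hn α m ζ hζ) t s θ ht hts
  have hWWt : 0 ≤ PP (WW α m) (pt t θ) := PP_nonneg _ (fun ζ hζ => WW_nonneg hn α m ζ hζ) _ hzt
  have h4 : PP (WW α m) (pt s θ) ≤ 2 * PP (WW α m) (pt t θ) := by
    refine hrad.trans (mul_le_mul_of_nonneg_right ?_ hWWt)
    rw [div_le_iff₀ ht]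
    exact hst
  constructor
  · have h5 : ‖QQ α m (pt s θ)‖ = ‖QQ α m (pt s θ)‖ * Real.exp (-(Lam α (pt s θ))) *
        Real.exp (Lam α (pt s θ)) := by
      rw [mul_assoc, ← Real.exp_add, neg_add_cancel, Real.exp_zero, mul_one]
    rw [h5]
    refine (mul_le_mul_of_nonneg_right h1 (Real.exp_pos _).le).trans ?_
    rw [mul_assoc, ← Real.exp_add]
    refine mul_le_mul_of_nonneg_left (Real.exp_le_exp.mpr ?_) hmE.le
    linarith
  · linarith

end Pool.Agent.Lib.MP_7ab245_nt.TrE
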