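import Mathlib
import Pool.Agent.Lib.MP_7ab245_nt.TrE.PsiW
import Pool.Agent.Lib.MP_7ab245_nt.TrE.PsiRay

/-! The pointwise bound. -/

set_option autoImplicit false

open Polynomial Finset

namespace Pool.Agent.Lib.MP_7ab245_nt.TrE

open Pool.Agent.Lib.MP_7ab245_nt.Len
open Pool.Agent.Lib.MP_7ab245_nt.L1

/-- from some scale on nothing is bad -/
theorem exists_not_bad {n : ℕ} (hn : 0 < n) (α : Fin n → ℂ) (hh1 : hh α ≤ 1) (m : ℕ)
    (hm : 1 ≤ m) (hmn : m ≤ n) : ∃ I : ℕ, ∀ i, I ≤ i → ∀ θ : ℝ, ¬ Bad α m i θ := by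
  have hm' : (0 : ℝ) < m := by exact_mod_cast hm
  obtain ⟨I, hI⟩ := pow_unbounded_of_one_lt (2 * (m : ℝ) + 600) (show (1 : ℝ) < 2 by norm_num)
  refine ⟨I, fun i hi θ hbad => ?_⟩
  have h1 : (2 : ℝ) ^ I ≤ (2 : ℝ) ^ i := pow_le_pow_right₀ (by norm_num) hi
  have h2 : 2 * (m : ℝ) + 600 < 2 ^ i := hI.trans_le h1
  have h3 : (2 : ℝ) ≤ (2 : ℝ) ^ i / m := by
    rw [le_div_iff₀ hm']
    linarith
  rcases hbad with h | h
  · have h4 := PP_large (WW α m) (circleIntegrable_WW hn α m) (WW_nonneg hn α m)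
      ((2 : ℝ) ^ i / m) θ (by linarith)
    have h5 := circleAverage_WW hn α hh1 m hm hmn
    linarith
  · rw [SS_large α _ θ (by linarith)] at h
    linarith

private theorem psiPoint_tele (L : ℝ → ℝ) (m : ℝ) (k : ℕ) :
    L (1 / m) - L ((2 : ℝ) ^ k / m) =
      ∑ j ∈ Finset.range k, (L ((2 : ℝ) ^ j / m) - L (2 * ((2 : ℝ) ^ j / m))) := by
  induction k with
  | zero => simp
  | succ k ih =>
    rw [Finset.sum_range_succ, ← ih]
    have : 2 * ((2 : ℝ) ^ k / m) = (2 : ℝ) ^ (k + 1) / m := by ring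
    rw [this]
    ring

private theorem psiPoint_geom (k : ℕ) : ∑ j ∈ Finset.range k, (2 : ℝ) ^ j ≤ 2 ^ k := by
  have := geom_sum_eq (show (2 : ℝ) ≠ 1 by norm_num) k
  rw [this]
  linarith

open Classical in
theorem point_bound {n : ℕ} (hn : 0 < n) (α : Fin n → ℂ) (hα : ∀ l, α l ≠ 0) (hh1 : hh α ≤ 1)
    (m : ℕ) (hm : 1 ≤ m) (hmn : m ≤ n) (I : ℕ) (hI : ∀ i, I ≤ i → ∀ θ : ℝ, ¬ Bad α m i θ)
    (θ : ℝ) (hθ : Gen α θ) :
    -(VV (fun l => Len.refl (α l)) 0 (pt 0 θ) - LL (pw α) m (pt 0 θ)) ≤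
      2 * EN α m + |LL (pw α) m (pt 0 θ) - LL (pw α) m (pt (1 / m) θ)| +
      1 / (2 * n) * ∑ j ∈ Finset.range I,
        (LL (pw α) m (pt ((2 : ℝ) ^ j / m) θ) - LL (pw α) m (pt (2 * ((2 : ℝ) ^ j / m)) θ)) ^ 2 /
          ((2 : ℝ) ^ j / m) +
      2 * EN α m * (1 + ∑ i ∈ Finset.range I, if Bad α m i θ then (2 : ℝ) ^ (i + 1) else 0) := by
  have hm' : (0 : ℝ) < m := by exact_mod_cast hm
  have hn' : (0 : ℝ) < n := by exact_mod_cast hn
  obtain ⟨hE1, hE2, -⟩ := EN_facts hn α m hm hmn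
  set E : ℝ := EN α m with hE
  set L : ℝ → ℝ := fun s => LL (pw α) m (pt s θ) with hL
  set D : ℕ → ℝ := fun j => L ((2 : ℝ) ^ j / m) - L (2 * ((2 : ℝ) ^ j / m)) with hD
  -- the least good scale
  have hex : ∃ i, ∀ i', i ≤ i' → ¬ Bad α m i' θ := ⟨I, fun i hi => hI i hi θ⟩
  set k : ℕ := Nat.find hex with hk
  have hkspec : ∀ i', k ≤ i' → ¬ Bad α m i' θ := Nat.find_spec hex
  have hkI : k ≤ I := Nat.find_min' hex fun i hi => hI i hi θ
  have h2k : (0 : ℝ) < 2 ^ k := by positivity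
  set τ : ℝ := (2 : ℝ) ^ k / m with hτ
  have hτ0 : 0 < τ := by positivity
  -- good scales
  have hgood : ∀ i, k ≤ i → 2 * PP (WW α m) (pt ((2 : ℝ) ^ i / m) θ) + SS α ((2 : ℝ) ^ i / m) θ ≤
      (2 : ℝ) ^ i / 2 := by
    intro i hi
    have h := hkspec i hi
    unfold Bad at h
    push Not at h
    linarith [h.1, h.2]
  have hE0 : 0 < E := by linarith
  have hray : |L τ - VV α 0 (pt τ θ)| ≤ 2 * E := by
    have h := ray_bound α m hm θ τ (m * E) hτ0 (by positivity) (by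
      intro s hs
      refine ⟨fun l => Gen_ne α hα θ hθ s l, ?_⟩
      have hms : (2 : ℝ) ^ k ≤ m * s := by
        rw [hτ, div_le_iff₀ hm'] at hs
        linarith
      have h1ms : 1 ≤ m * s := le_trans (one_le_pow₀ (by norm_num)) hms
      obtain ⟨i, hi1, hi2⟩ := exists_nat_pow_near h1ms (show (1 : ℝ) < 2 by norm_num)
      have hki : k ≤ i := by
        by_contra hcon
        push Not at hcon
        have : (2 : ℝ) ^ (i + 1) ≤ 2 ^ k := pow_le_pow_right₀ (by norm_num) hcon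
        linarith
      have hb := WW_bound hn α hα hh1 m hm hmn ((2 : ℝ) ^ i / m) s θ (by positivity)
        (by rw [div_le_iff₀ hm']; linarith)
        (by
          have : 2 * ((2 : ℝ) ^ i / m) = (2 : ℝ) ^ (i + 1) / m := by ring
          rw [this, le_div_iff₀ hm']
          linarith) hθ
      refine hb.1.trans ?_
      apply mul_le_mul_of_nonneg_left _ (by positivity)
      apply Real.exp_le_exp.mpr
      have := hgood i hki
      linarith)
    have e1 : 2 * (m * E) / m = 2 * E := by field_simp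
    rw [e1] at h
    exact h
  have hLam : Lam α (pt τ θ) ≤ (2 : ℝ) ^ k / 2 := by
    have hb := WW_bound hn α hα hh1 m hm hmn τ τ θ hτ0 le_rfl (by linarith) hθ
    exact hb.2.trans (hgood k le_rfl)
  have hhh : 0 ≤ hh α := by
    unfold hh
    exact Finset.sum_nonneg fun i _ => Real.posLog_nonneg
  have hout := VV_outward (fun l => Len.refl (α l)) (fun l => norm_refl_le (α l)) τ θ hτ0.le
    (fun l => Gen_ne_refl α hα θ hθ 0 l)
  have hVy : -(VV (fun l => Len.refl (α l)) 0 (pt τ θ)) ≤ (2 : ℝ) ^ k / 2 + 2 * E - L τ := by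
    unfold Lam at hLam
    have h1 := (abs_le.mp hray).2
    linarith
  -- telescoping
  have htele := psiPoint_tele L m k
  have hDj : ∀ j, D j ≤ n * ((2 : ℝ) ^ j / m) / 2 + 1 / (2 * n) * (D j ^ 2 / ((2 : ℝ) ^ j / m)) := by
    intro j
    set t : ℝ := (2 : ℝ) ^ j / m with ht
    have ht0 : 0 < t := by positivity
    have h1 : n * t / 2 + 1 / (2 * n) * (D j ^ 2 / t) - D j = (D j - n * t) ^ 2 / (2 * n * t) := by
      field_simp
      ring
    have h2 : 0 ≤ (D j - n * t) ^ 2 / (2 * n * t) := by positivity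
    linarith
  have hsumD : ∑ j ∈ Finset.range k, D j ≤ n * τ / 2 +
      1 / (2 * n) * ∑ j ∈ Finset.range I, D j ^ 2 / ((2 : ℝ) ^ j / m) := by
    calc ∑ j ∈ Finset.range k, D j ≤ ∑ j ∈ Finset.range k,
          (n * ((2 : ℝ) ^ j / m) / 2 + 1 / (2 * n) * (D j ^ 2 / ((2 : ℝ) ^ j / m))) :=
          Finset.sum_le_sum fun j _ => hDj j
      _ = n / (2 * m) * (∑ j ∈ Finset.range k, (2 : ℝ) ^ j) +
          1 / (2 * n) * ∑ j ∈ Finset.range k, D j ^ 2 / ((2 : ℝ) ^ j / m) := by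
          rw [Finset.sum_add_distrib, Finset.mul_sum, Finset.mul_sum]
          congr 1
          refine Finset.sum_congr rfl (fun j _ => ?_)
          field_simp
      _ ≤ n / (2 * m) * 2 ^ k +
          1 / (2 * n) * ∑ j ∈ Finset.range I, D j ^ 2 / ((2 : ℝ) ^ j / m) := by
          gcongr
          · exact psiPoint_geom k
      _ = _ := by
          rw [hτ]
          congr 1
          field_simp
  -- the number `2 ^ k`
  have hpowk : (2 : ℝ) ^ k ≤ 1 + ∑ i ∈ Finset.range I,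
      if Bad α m i θ then (2 : ℝ) ^ (i + 1) else 0 := by
    have hs0 : 0 ≤ ∑ i ∈ Finset.range I, if Bad α m i θ then (2 : ℝ) ^ (i + 1) else 0 := by
      refine Finset.sum_nonneg fun i _ => ?_
      split_ifs <;> positivity
    rcases Nat.eq_zero_or_pos k with h0 | h0
    · rw [h0, pow_zero]
      linarith
    · obtain ⟨j, hj⟩ : ∃ j, k = j + 1 := ⟨k - 1, by omega⟩
      have hbad : Bad α m j θ := by
        by_contra hcon
        have h1 : k ≤ j := by
          refine Nat.find_min' hex fun i' hi' => ?_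
          rcases Nat.eq_or_lt_of_le hi' with rfl | hlt
          · exact hcon
          · exact hkspec i' (by omega)
        omega
      have h2 : (if Bad α m j θ then (2 : ℝ) ^ (j + 1) else 0) ≤ ∑ i ∈ Finset.range I,
          if Bad α m i θ then (2 : ℝ) ^ (i + 1) else 0 := by
        refine Finset.single_le_sum (f := fun i => if Bad α m i θ then (2 : ℝ) ^ (i + 1) else 0)
          (fun i _ => ?_) (Finset.mem_range.mpr (by omega))
        split_ifs <;> positivity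
      rw [if_pos hbad, ← hj] at h2
      linarith
  have habs : L 0 - L (1 / m) ≤ |L 0 - L (1 / m)| := le_abs_self _
  have hnτ : n * τ ≤ E * 2 ^ k := by
    have h1 : (n : ℝ) / m ≤ E := by
      rw [div_le_iff₀ hm']
      linarith
    calc n * τ = n / m * 2 ^ k := by rw [hτ]; ring
      _ ≤ E * 2 ^ k := by gcongr
  have hEk : (2 : ℝ) ^ k / 2 ≤ E * 2 ^ k / 2 := by
    have : 1 * (2 : ℝ) ^ k ≤ E * 2 ^ k := by gcongr
    linarith
  have hfin : 2 * E * (2 : ℝ) ^ k ≤ 2 * E * (1 + ∑ i ∈ Finset.range I,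
      if Bad α m i θ then (2 : ℝ) ^ (i + 1) else 0) := by gcongr
  change -(VV (fun l => Len.refl (α l)) 0 (pt 0 θ) - L 0) ≤ 2 * E + |L 0 - L (1 / m)| +
    1 / (2 * n) * ∑ j ∈ Finset.range I, D j ^ 2 / ((2 : ℝ) ^ j / m) +
    2 * E * (1 + ∑ i ∈ Finset.range I, if Bad α m i θ then (2 : ℝ) ^ (i + 1) else 0)
  have htele' : L (1 / m) - L τ = ∑ j ∈ Finset.range k, D j := htele
  linarith

end Pool.Agent.Lib.MP_7ab245_nt.TrE
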