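import Mathlib
import Pool.Agent.Lib.MP_7ab245_nt.TrE.PsiPoint

/-! The mean of `|V - L|` when `L` has the power sums as coefficients. -/

set_option autoImplicit false

open Polynomial Finset

namespace Pool.Agent.Lib.MP_7ab245_nt.TrE

open Pool.Agent.Lib.MP_7ab245_nt.Len
open Pool.Agent.Lib.MP_7ab245_nt.L1

/-- the sum of the proportions of bad angles -/
theorem sum_bad_le {n : ℕ} (hn : 0 < n) (α : Fin n → ℂ) (hh1 : hh α ≤ 1) (m : ℕ)
    (hm : 1 ≤ m) (hmn : m ≤ n) (I : ℕ) :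
    ∑ i ∈ Finset.range I, (2 : ℝ) ^ i * (lvlW (WW α m) ((2 : ℝ) ^ i / 8) ((2 : ℝ) ^ i / m) +
      ((2 : ℝ) ^ i / 4)⁻¹ * ((2 * Real.pi)⁻¹ *
        ∫ θ in (0 : ℝ)..(2 * Real.pi), SS α ((2 : ℝ) ^ i / m) θ)) ≤ 418 := by
  have hm' : (0 : ℝ) < m := by exact_mod_cast hm
  have hWi := circleIntegrable_WW hn α m
  have hW0 := WW_nonneg hn α m
  have hWa := circleAverage_WW hn α hh1 m hm hmn
  set Ψ : ℕ → ℝ := fun i => PhiW (WW α m) ((2 : ℝ) ^ i / 16) ((2 : ℝ) ^ i / (2 * m)) with hΨ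
  have hstep : ∀ i : ℕ, (2 : ℝ) ^ i * lvlW (WW α m) ((2 : ℝ) ^ i / 8) ((2 : ℝ) ^ i / m) ≤
      16 * (Ψ i - Ψ (i + 1)) := by
    intro i
    have h1 := lvlW_le (WW α m) hWi ((2 : ℝ) ^ i / 16) ((2 : ℝ) ^ i / (2 * m)) (by positivity)
      (by positivity)
    have e1 : 2 * ((2 : ℝ) ^ i / 16) = (2 : ℝ) ^ i / 8 := by ring
    have e2 : 2 * ((2 : ℝ) ^ i / (2 * m)) = (2 : ℝ) ^ i / m := by field_simp
    have e3 : Ψ (i + 1) = PhiW (WW α m) ((2 : ℝ) ^ i / 8) ((2 : ℝ) ^ i / m) := by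
      simp only [hΨ]
      congr 1
      · ring
      · field_simp
        ring
    rw [e1, e2, ← e3] at h1
    have h2 : Ψ i = PhiW (WW α m) ((2 : ℝ) ^ i / 16) ((2 : ℝ) ^ i / (2 * m)) := rfl
    rw [← h2] at h1
    linarith
  have hsum1 : ∑ i ∈ Finset.range I,
      (2 : ℝ) ^ i * lvlW (WW α m) ((2 : ℝ) ^ i / 8) ((2 : ℝ) ^ i / m) ≤ 400 := by
    calc ∑ i ∈ Finset.range I, (2 : ℝ) ^ i * lvlW (WW α m) ((2 : ℝ) ^ i / 8) ((2 : ℝ) ^ i / m)
        ≤ ∑ i ∈ Finset.range I, 16 * (Ψ i - Ψ (i + 1)) := Finset.sum_le_sum fun i _ => hstep i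
      _ = 16 * (Ψ 0 - Ψ I) := by rw [← Finset.mul_sum, Finset.sum_range_sub']
      _ ≤ 400 := by
          have h1 : Ψ 0 ≤ 25 := (PhiW_le (WW α m) hWi hW0 _ _ (by positivity) (by positivity)).trans hWa
          have h2 : 0 ≤ Ψ I := PhiW_nonneg _ _ _
          linarith
  have hsum2 := avg_SS_sum α m I (by omega)
  have e : ∀ i ∈ Finset.range I, (2 : ℝ) ^ i * (lvlW (WW α m) ((2 : ℝ) ^ i / 8) ((2 : ℝ) ^ i / m) +
      ((2 : ℝ) ^ i / 4)⁻¹ * ((2 * Real.pi)⁻¹ *
        ∫ θ in (0 : ℝ)..(2 * Real.pi), SS α ((2 : ℝ) ^ i / m) θ)) =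
      (2 : ℝ) ^ i * lvlW (WW α m) ((2 : ℝ) ^ i / 8) ((2 : ℝ) ^ i / m) +
      4 * ((2 * Real.pi)⁻¹ * ∫ θ in (0 : ℝ)..(2 * Real.pi), SS α ((2 : ℝ) ^ i / m) θ) := by
    intro i _
    have h2i : (2 : ℝ) ^ i ≠ 0 := by positivity
    have h3 : (2 : ℝ) ^ i * ((2 : ℝ) ^ i / 4)⁻¹ = 4 := by field_simp
    rw [mul_add, ← mul_assoc ((2 : ℝ) ^ i) (((2 : ℝ) ^ i / 4)⁻¹), h3]
  rw [Finset.sum_congr rfl e, Finset.sum_add_distrib, ← Finset.mul_sum]
  linarith

private theorem psiMain_cm (θ : ℝ) : circleMap 0 1 θ = pt 0 θ := by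
  unfold circleMap pt
  simp

private theorem psiMain_pt_cont (s : ℝ) : Continuous (pt s) := by
  unfold pt
  fun_prop

private theorem psiMain_Gen_ae {n : ℕ} (α : Fin n → ℂ) :
    ∀ᵐ θ ∂(MeasureTheory.volume.restrict (Set.Icc 0 (2 * Real.pi))), Gen α θ := by
  rw [MeasureTheory.ae_restrict_iff' measurableSet_Icc, MeasureTheory.ae_iff]
  have h := (Gen_cofinite α).measure_zero MeasureTheory.volume
  refine MeasureTheory.measure_mono_null ?_ h
  intro θ hθ
  have h1 : ¬ (θ ∈ Set.Icc 0 (2 * Real.pi) → Gen α θ) := hθ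
  rw [Classical.not_imp] at h1
  exact h1

private theorem psiMain_lin (a b c d : ℝ) (f g h : ℝ → ℝ)
    (hf : IntervalIntegrable f MeasureTheory.volume 0 (2 * Real.pi))
    (hg : IntervalIntegrable g MeasureTheory.volume 0 (2 * Real.pi))
    (hh : IntervalIntegrable h MeasureTheory.volume 0 (2 * Real.pi)) :
    IntervalIntegrable (fun θ => a + b * f θ + c * g θ + d * h θ) MeasureTheory.volume 0
      (2 * Real.pi) ∧
    (2 * Real.pi)⁻¹ * ∫ θ in (0 : ℝ)..(2 * Real.pi), (a + b * f θ + c * g θ + d * h θ) = a +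
      b * ((2 * Real.pi)⁻¹ * ∫ θ in (0 : ℝ)..(2 * Real.pi), f θ) +
      c * ((2 * Real.pi)⁻¹ * ∫ θ in (0 : ℝ)..(2 * Real.pi), g θ) +
      d * ((2 * Real.pi)⁻¹ * ∫ θ in (0 : ℝ)..(2 * Real.pi), h θ) := by
  have hf' := hf.const_mul b
  have hg' := hg.const_mul c
  have hh' := hh.const_mul d
  have h0 : IntervalIntegrable (fun _ : ℝ => a) MeasureTheory.volume 0 (2 * Real.pi) :=
    intervalIntegrable_const
  have h1 := h0.add hf'
  have h2 := h1.add hg'
  refine ⟨h2.add hh', ?_⟩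
  have e1 := intervalIntegral.integral_add h2 hh'
  have e2 := intervalIntegral.integral_add h1 hg'
  have e3 := intervalIntegral.integral_add h0 hf'
  rw [e1, e2, e3, intervalIntegral.integral_const_mul, intervalIntegral.integral_const_mul,
    intervalIntegral.integral_const_mul, intervalIntegral.integral_const, smul_eq_mul]
  field_simp
  ring

theorem kapL_pw_le {n : ℕ} (hn : 0 < n) (α : Fin n → ℂ) (hα : ∀ l, α l ≠ 0) (hh1 : hh α ≤ 1)
    (m : ℕ) (hm : 1 ≤ m) (hmn : m ≤ n) :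
    kapL (fun l => Len.refl (α l)) (pw α) m ≤ 4000 * EN α m := by
  classical
  have hm' : (0 : ℝ) < m := by exact_mod_cast hm
  have hn' : (0 : ℝ) < n := by exact_mod_cast hn
  have hpi : (0 : ℝ) < 2 * Real.pi := by positivity
  obtain ⟨hE1, hE2, hE3⟩ := EN_facts hn α m hm hmn
  have hDL0 := DL_nonneg (pw α) m
  have hEdef : EN α m = n / m + DL (pw α) m / n := rfl
  set E : ℝ := EN α m with hE
  have hE0 : 0 < E := by linarith
  set y : Fin n → ℂ := fun l => Len.refl (α l) with hy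
  have hy1 : ∀ l, ‖y l‖ ≤ 1 := fun l => norm_refl_le (α l)
  set L : ℝ → ℝ → ℝ := fun s θ => LL (pw α) m (pt s θ) with hL
  have hLc : ∀ s, Continuous (L s) := fun s => (continuous_LL _ _).comp (psiMain_pt_cont s)
  set DD : ℕ → ℝ → ℝ := fun j θ => L ((2 : ℝ) ^ j / m) θ - L (2 * ((2 : ℝ) ^ j / m)) θ with hDD
  have hDDc : ∀ j, Continuous (DD j) := fun j => (hLc _).sub (hLc _)
  obtain ⟨I, hI⟩ := exists_not_bad hn α hh1 m hm hmn
  -- the function `v`
  set v : ℝ → ℝ := fun θ => -(VV y 0 (pt 0 θ) - L 0 θ) with hv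
  have hvi : IntervalIntegrable v MeasureTheory.volume 0 (2 * Real.pi) := by
    have h := circleIntegrable_sub_LL y (pw α) m
    unfold CircleIntegrable at h
    simp only [psiMain_cm] at h
    exact h.neg
  have hv0 : ∫ θ in (0 : ℝ)..(2 * Real.pi), v θ = 0 := by
    have h1 := circleAverage_VV y hy1
    have h2 := circleAverage_LL (pw α) m
    have h3 := circleIntegrable_VV y
    have h4 := circleIntegrable_LL (pw α) m
    rw [Real.circleAverage_def, smul_eq_mul, mul_eq_zero] at h1 h2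
    have hne : ¬ (2 * Real.pi)⁻¹ = 0 := by positivity
    replace h1 := h1.resolve_left hne
    replace h2 := h2.resolve_left hne
    unfold CircleIntegrable at h3 h4
    simp only [psiMain_cm] at h1 h2 h3 h4
    simp only [hv, hL]
    rw [intervalIntegral.integral_neg, intervalIntegral.integral_sub h3 h4, h1, h2]
    simp
  have hk : kapL y (pw α) m = 2 * ((2 * Real.pi)⁻¹ * ∫ θ in (0 : ℝ)..(2 * Real.pi), max (v θ) 0) := by
    unfold kapL
    rw [Real.circleAverage_def, smul_eq_mul]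
    simp only [psiMain_cm]
    have h1 : ∀ θ, |VV y 0 (pt 0 θ) - LL (pw α) m (pt 0 θ)| = 2 * max (v θ) 0 - v θ := by
      intro θ
      have h2 : VV y 0 (pt 0 θ) - LL (pw α) m (pt 0 θ) = -(v θ) := by simp only [hv, hL]; ring
      rw [h2, abs_neg]
      rcases le_total 0 (v θ) with h | h
      · rw [abs_of_nonneg h, max_eq_left h]; ring
      · rw [abs_of_nonpos h, max_eq_right h]; ring
    simp_rw [h1]
    have hmi : IntervalIntegrable (fun θ => max (v θ) 0) MeasureTheory.volume 0 (2 * Real.pi) := by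
      rw [intervalIntegrable_iff] at hvi ⊢
      exact hvi.pos_part
    rw [intervalIntegral.integral_sub (hmi.const_mul 2) hvi, hv0,
      intervalIntegral.integral_const_mul]
    ring
  -- the majorant
  set ind : ℕ → ℝ → ℝ := fun i θ =>
    if (2 : ℝ) ^ i / 8 ≤ PP (WW α m) (pt ((2 : ℝ) ^ i / m) θ) then 1 else 0 with hind
  set S : ℕ → ℝ → ℝ := fun i => SS α ((2 : ℝ) ^ i / m) with hS
  have hindi : ∀ i, IntervalIntegrable (ind i) MeasureTheory.volume 0 (2 * Real.pi) := by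
    intro i
    have hcs := continuous_PP_pt (WW α m) (circleIntegrable_WW hn α m) ((2 : ℝ) ^ i / m)
      (by positivity)
    have hmeas : MeasurableSet {θ : ℝ | (2 : ℝ) ^ i / 8 ≤ PP (WW α m) (pt ((2 : ℝ) ^ i / m) θ)} :=
      measurableSet_le measurable_const hcs.measurable
    have hmm : Measurable (ind i) := Measurable.ite hmeas measurable_const measurable_const
    rw [intervalIntegrable_iff, Set.uIoc_of_le hpi.le]
    refine MeasureTheory.Measure.integrableOn_of_bounded (M := 1) measure_Ioc_lt_top.ne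
      hmm.aestronglyMeasurable (Filter.Eventually.of_forall fun θ => ?_)
    simp only [hind]
    split_ifs <;> simp
  have hSi : ∀ i, IntervalIntegrable (S i) MeasureTheory.volume 0 (2 * Real.pi) :=
    fun i => intervalIntegrable_SS α _
  set F1 : ℝ → ℝ := fun θ => (L 0 θ - L (1 / m) θ) ^ 2 with hF1
  set F2 : ℝ → ℝ := fun θ => ∑ j ∈ Finset.range I, ((2 : ℝ) ^ j)⁻¹ * DD j θ ^ 2 with hF2
  set F3 : ℝ → ℝ := fun θ => ∑ i ∈ Finset.range I, (2 : ℝ) ^ i *
    (ind i θ + ((2 : ℝ) ^ i / 4)⁻¹ * S i θ) with hF3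
  have hF1i : IntervalIntegrable F1 MeasureTheory.volume 0 (2 * Real.pi) :=
    (((hLc 0).sub (hLc _)).pow 2).intervalIntegrable _ _
  have hF2i : IntervalIntegrable F2 MeasureTheory.volume 0 (2 * Real.pi) := by
    refine Continuous.intervalIntegrable ?_ _ _
    exact continuous_finsetSum _ fun j _ => continuous_const.mul ((hDDc j).pow 2)
  have hF3ii : ∀ i, IntervalIntegrable (fun θ => (2 : ℝ) ^ i *
      (ind i θ + ((2 : ℝ) ^ i / 4)⁻¹ * S i θ)) MeasureTheory.volume 0 (2 * Real.pi) :=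
    fun i => ((hindi i).add ((hSi i).const_mul _)).const_mul _
  have hF3i : IntervalIntegrable F3 MeasureTheory.volume 0 (2 * Real.pi) := by
    have h := IntervalIntegrable.sum (Finset.range I) fun i _ => hF3ii i
    have e : F3 = ∑ i ∈ Finset.range I, fun θ => (2 : ℝ) ^ i *
        (ind i θ + ((2 : ℝ) ^ i / 4)⁻¹ * S i θ) := by
      ext θ
      rw [Finset.sum_apply]
    rw [e]
    exact h
  set F : ℝ → ℝ := fun θ => (17 / 4 * E) + (1 / E) * F1 θ + (m / (2 * n)) * F2 θ +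
    (4 * E) * F3 θ with hF
  obtain ⟨hFi, hFint⟩ := psiMain_lin (17 / 4 * E) (1 / E) (m / (2 * n)) (4 * E) F1 F2 F3
    hF1i hF2i hF3i
  have hpoint : ∀ θ, Gen α θ → max (v θ) 0 ≤ F θ := by
    intro θ hθ
    have h := point_bound hn α hα hh1 m hm hmn I hI θ hθ
    have hSS : ∀ i, 0 ≤ S i θ := fun i => SS_nonneg α _ θ hθ
    have hbadi : ∀ i, (if Bad α m i θ then (2 : ℝ) ^ (i + 1) else 0) ≤
        2 * ((2 : ℝ) ^ i * (ind i θ + ((2 : ℝ) ^ i / 4)⁻¹ * S i θ)) := by
      intro i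
      have h2i : (0 : ℝ) < 2 ^ i := by positivity
      have hind0 : 0 ≤ ind i θ := by simp only [hind]; split_ifs <;> norm_num
      have hS0 : 0 ≤ ((2 : ℝ) ^ i / 4)⁻¹ * S i θ := mul_nonneg (by positivity) (hSS i)
      split_ifs with hb
      · have h1 : 1 ≤ ind i θ + ((2 : ℝ) ^ i / 4)⁻¹ * S i θ := by
          rcases hb with hb | hb
          · have : ind i θ = 1 := by simp only [hind]; rw [if_pos hb]
            linarith
          · have : 1 ≤ ((2 : ℝ) ^ i / 4)⁻¹ * S i θ := by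
              rw [inv_mul_eq_div, le_div_iff₀ (by positivity), one_mul]
              exact hb.le
            linarith
        rw [pow_succ]
        nlinarith
      · positivity
    have hF3b : ∑ i ∈ Finset.range I, (if Bad α m i θ then (2 : ℝ) ^ (i + 1) else 0) ≤
        2 * F3 θ := by
      simp only [hF3]
      rw [Finset.mul_sum]
      exact Finset.sum_le_sum fun i _ => hbadi i
    have hF1b : |L 0 θ - L (1 / m) θ| ≤ 1 / E * F1 θ + E / 4 := by
      simp only [hF1]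
      set d := L 0 θ - L (1 / m) θ with hd
      have h1 : 1 / E * d ^ 2 + E / 4 - |d| = (|d| - E / 2) ^ 2 / E := by
        rw [← sq_abs d]
        field_simp
        ring
      have h2 : 0 ≤ (|d| - E / 2) ^ 2 / E := by positivity
      linarith
    have hF2b : 1 / (2 * (n : ℝ)) * ∑ j ∈ Finset.range I, DD j θ ^ 2 / ((2 : ℝ) ^ j / m) =
        m / (2 * n) * F2 θ := by
      simp only [hF2]
      rw [Finset.mul_sum, Finset.mul_sum]
      refine Finset.sum_congr rfl fun j _ => ?_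
      field_simp
    have hv' : v θ ≤ F θ := by
      have h' : v θ ≤ 2 * E + |L 0 θ - L (1 / m) θ| +
          1 / (2 * n) * ∑ j ∈ Finset.range I, DD j θ ^ 2 / ((2 : ℝ) ^ j / m) +
          2 * E * (1 + ∑ i ∈ Finset.range I, if Bad α m i θ then (2 : ℝ) ^ (i + 1) else 0) := h
      rw [hF2b] at h'
      have h5 : 2 * E * (1 + ∑ i ∈ Finset.range I, if Bad α m i θ then (2 : ℝ) ^ (i + 1) else 0) ≤
        2 * E * (1 + 2 * F3 θ) := by gcongr
      simp only [hF]
      linarith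
    refine max_le hv' ?_
    have hF30 : 0 ≤ F3 θ := by
      simp only [hF3]
      refine Finset.sum_nonneg fun i _ => ?_
      have hind0 : 0 ≤ ind i θ := by simp only [hind]; split_ifs <;> norm_num
      have hS0 : 0 ≤ ((2 : ℝ) ^ i / 4)⁻¹ * S i θ := mul_nonneg (by positivity) (hSS i)
      positivity
    have hF20 : 0 ≤ F2 θ := by
      simp only [hF2]
      exact Finset.sum_nonneg fun j _ => by positivity
    have hF10 : 0 ≤ F1 θ := by
      simp only [hF1]
      exact sq_nonneg _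
    have g1 : 0 ≤ 1 / E * F1 θ := mul_nonneg (by positivity) hF10
    have g2 : 0 ≤ m / (2 * n) * F2 θ := mul_nonneg (by positivity) hF20
    have g3 : 0 ≤ 4 * E * F3 θ := mul_nonneg (by positivity) hF30
    have g4 : F θ = 17 / 4 * E + 1 / E * F1 θ + m / (2 * n) * F2 θ + 4 * E * F3 θ := rfl
    rw [g4]
    linarith
  -- integration
  have hmi : IntervalIntegrable (fun θ => max (v θ) 0) MeasureTheory.volume 0 (2 * Real.pi) := by
    rw [intervalIntegrable_iff] at hvi ⊢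
    exact hvi.pos_part
  have hint : ∫ θ in (0 : ℝ)..(2 * Real.pi), max (v θ) 0 ≤ ∫ θ in (0 : ℝ)..(2 * Real.pi), F θ := by
    refine intervalIntegral.integral_mono_ae_restrict hpi.le hmi hFi ?_
    filter_upwards [psiMain_Gen_ae α] with θ hθ
    exact hpoint θ hθ
  have hA1 : (2 * Real.pi)⁻¹ * ∫ θ in (0 : ℝ)..(2 * Real.pi), F1 θ ≤ E ^ 2 / 4 := by
    refine (base_sq (pw α) m m (by omega)).trans ?_
    have h1 : m * DL (pw α) m ≤ (m * E / 2) ^ 2 := by
      rw [← Real.sqrt_le_left (by positivity)]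
      exact hE3
    rw [div_le_iff₀ hm']
    have h2 : m * DL (pw α) m ≤ m * (E ^ 2 / 4 * m) := by
      calc m * DL (pw α) m ≤ (m * E / 2) ^ 2 := h1
        _ = m * (E ^ 2 / 4 * m) := by ring
    exact le_of_mul_le_mul_left h2 hm'
  have hA2 : (2 * Real.pi)⁻¹ * ∫ θ in (0 : ℝ)..(2 * Real.pi), F2 θ ≤ DL (pw α) m / m := by
    have h1 := dyadic_sum (pw α) m m I (by omega)
    refine le_trans (le_of_eq ?_) h1
    simp only [hF2]
    have hF2ii : ∀ j : ℕ, IntervalIntegrable (fun θ => ((2 : ℝ) ^ j)⁻¹ * DD j θ ^ 2)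
        MeasureTheory.volume 0 (2 * Real.pi) :=
      fun j => (continuous_const.mul ((hDDc j).pow 2)).intervalIntegrable _ _
    rw [intervalIntegral.integral_finsetSum fun j _ => hF2ii j, Finset.mul_sum]
    refine Finset.sum_congr rfl fun j _ => ?_
    rw [intervalIntegral.integral_const_mul]
    simp only [hDD, hL]
    ring
  have hA3 : (2 * Real.pi)⁻¹ * ∫ θ in (0 : ℝ)..(2 * Real.pi), F3 θ ≤ 418 := by
    refine le_trans (le_of_eq ?_) (sum_bad_le hn α hh1 m hm hmn I)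
    simp only [hF3]
    rw [intervalIntegral.integral_finsetSum fun i _ => hF3ii i, Finset.mul_sum]
    refine Finset.sum_congr rfl fun i _ => ?_
    rw [intervalIntegral.integral_const_mul, intervalIntegral.integral_add (hindi i)
      ((hSi i).const_mul _), intervalIntegral.integral_const_mul]
    unfold lvlW
    simp only [hind, hS]
    ring
  have hB1 : 1 / E * ((2 * Real.pi)⁻¹ * ∫ θ in (0 : ℝ)..(2 * Real.pi), F1 θ) ≤ E / 4 := by
    calc 1 / E * ((2 * Real.pi)⁻¹ * ∫ θ in (0 : ℝ)..(2 * Real.pi), F1 θ) ≤ 1 / E * (E ^ 2 / 4) := by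
          gcongr
      _ = E / 4 := by field_simp
  have hB2 : m / (2 * n) * ((2 * Real.pi)⁻¹ * ∫ θ in (0 : ℝ)..(2 * Real.pi), F2 θ) ≤ E / 2 := by
    calc m / (2 * n) * ((2 * Real.pi)⁻¹ * ∫ θ in (0 : ℝ)..(2 * Real.pi), F2 θ)
        ≤ m / (2 * n) * (DL (pw α) m / m) := by gcongr
      _ = DL (pw α) m / n / 2 := by field_simp
      _ ≤ E / 2 := by
          have : 0 ≤ (n : ℝ) / m := by positivity
          linarith
  have hB3 : 4 * E * ((2 * Real.pi)⁻¹ * ∫ θ in (0 : ℝ)..(2 * Real.pi), F3 θ) ≤ 4 * E * 418 := by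
    gcongr
  have hfin : (2 * Real.pi)⁻¹ * ∫ θ in (0 : ℝ)..(2 * Real.pi), max (v θ) 0 ≤ 1677 * E := by
    calc (2 * Real.pi)⁻¹ * ∫ θ in (0 : ℝ)..(2 * Real.pi), max (v θ) 0
        ≤ (2 * Real.pi)⁻¹ * ∫ θ in (0 : ℝ)..(2 * Real.pi), F θ := by gcongr
      _ ≤ 1677 * E := by
          have e : (2 * Real.pi)⁻¹ * ∫ θ in (0 : ℝ)..(2 * Real.pi), F θ = 17 / 4 * E +
            1 / E * ((2 * Real.pi)⁻¹ * ∫ θ in (0 : ℝ)..(2 * Real.pi), F1 θ) +
            m / (2 * n) * ((2 * Real.pi)⁻¹ * ∫ θ in (0 : ℝ)..(2 * Real.pi), F2 θ) +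
            4 * E * ((2 * Real.pi)⁻¹ * ∫ θ in (0 : ℝ)..(2 * Real.pi), F3 θ) := hFint
          rw [e]
          linarith
  rw [hk]
  linarith

end Pool.Agent.Lib.MP_7ab245_nt.TrE
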