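import Mathlib
import Pool.Agent.Lib.MP_7ab245_nt.TrE.Basic
import Pool.Agent.Lib.MP_7ab245_nt.L1.Red1b

/-! Passing to the `N`-th powers of the points. -/

set_option autoImplicit false

open Polynomial Finset

namespace Pool.Agent.Lib.MP_7ab245_nt.TrE

open Pool.Agent.Lib.MP_7ab245_nt.Len
open Pool.Agent.Lib.MP_7ab245_nt.L1

/-! ### integrability -/

private theorem pwl_ci_VV {m : ℕ} (x : Fin m → ℂ) (ω : ℂ) :
    CircleIntegrable (fun ζ : ℂ => VV x 0 (ω * ζ)) 0 1 := by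
  have h : (fun ζ => VV x 0 (ω * ζ)) = fun ζ => VV (fun l => starRingEnd ℂ ω * x l) 0 ζ := by
    funext ζ
    unfold VV
    congr 1
    refine Finset.sum_congr rfl fun l _ => ?_
    rw [map_mul, Complex.conj_conj]
    congr 3
    ring
  rw [h]
  exact circleIntegrable_VV _

private theorem pwl_ci {m : ℕ} (x : Fin m → ℂ) (c : ℕ → ℂ) (M : ℕ) (ω : ℂ) :
    CircleIntegrable (fun ζ : ℂ => VV x 0 (ω * ζ) - LL c M (ω * ζ)) 0 1 := by
  have h1 : CircleIntegrable (fun ζ => LL c M (ω * ζ)) 0 1 :=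
    ((continuous_LL c M).comp (continuous_const.mul continuous_id)).continuousOn.circleIntegrable
      (by norm_num)
  exact (pwl_ci_VV x ω).sub h1

private theorem pwl_finite_codiscrete {S : Set ℂ} (hS : S.Finite) :
    Sᶜ ∈ Filter.codiscreteWithin (Metric.sphere (0 : ℂ) |1|) :=
  Filter.codiscreteWithin_mono (Set.subset_univ _) hS.compl_mem_codiscrete

private theorem pwl_bad_finite {m : ℕ} (x : Fin m → ℂ) (N : ℕ) (hN : 0 < N) :
    {ζ : ℂ | ∃ l, 1 - (ζ * starRingEnd ℂ (x l)) ^ N = 0}.Finite := by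
  have h : ∀ l : Fin m, {ζ : ℂ | 1 - (ζ * starRingEnd ℂ (x l)) ^ N = 0}.Finite := by
    intro l
    set p : ℂ[X] := 1 - (X * C (starRingEnd ℂ (x l))) ^ N with hp
    have hp0 : p ≠ 0 := by
      intro h0
      have h1 : p.eval 0 = 0 := by rw [h0, eval_zero]
      rw [hp] at h1
      simp [hN.ne'] at h1
    refine (p.roots.toFinset.finite_toSet).subset fun ζ hζ => ?_
    rw [Finset.mem_coe, Multiset.mem_toFinset, mem_roots hp0, IsRoot.def, hp]
    have h1 : 1 - (ζ * starRingEnd ℂ (x l)) ^ N = 0 := hζ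
    rw [eval_sub, eval_one, eval_pow, eval_mul, eval_X, eval_C, h1]
  have h2 : {ζ : ℂ | ∃ l, 1 - (ζ * starRingEnd ℂ (x l)) ^ N = 0} =
      ⋃ l, {ζ : ℂ | 1 - (ζ * starRingEnd ℂ (x l)) ^ N = 0} := by
    ext ζ
    simp
  rw [h2]
  exact Set.finite_iUnion h

private theorem pwl_pow_eq {m : ℕ} (x : Fin m → ℂ) (N : ℕ) (hN : 0 < N) (ζ : ℂ)
    (hζ : ¬ ∃ l, 1 - (ζ * starRingEnd ℂ (x l)) ^ N = 0) :
    VV (fun l => x l ^ N) 0 (ζ ^ N) = ∑ ω ∈ nthRootsFinset N (1 : ℂ), VV x 0 (ω * ζ) := by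
  push Not at hζ
  simp only [VV, zero_sub]
  rw [Finset.sum_neg_distrib, Finset.sum_comm]
  congr 1
  refine Finset.sum_congr rfl fun l _ => ?_
  have h1 : 1 - ζ ^ N * starRingEnd ℂ (x l ^ N) =
      ∏ ω ∈ nthRootsFinset N (1 : ℂ), (1 - ω * ζ * starRingEnd ℂ (x l)) := by
    rw [map_pow, ← mul_pow, ← prod_one_sub N hN]
    exact Finset.prod_congr rfl fun ω _ => by ring
  have h2 : (∏ ω ∈ nthRootsFinset N (1 : ℂ), (1 - ω * ζ * starRingEnd ℂ (x l))) ≠ 0 := by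
    rw [← h1, map_pow, ← mul_pow]
    exact hζ l
  rw [h1, norm_prod, Real.log_prod]
  intro ω hω
  exact norm_ne_zero_iff.mpr (Finset.prod_ne_zero_iff.mp h2 ω hω)

/-! ### sums of powers of roots of unity -/

private theorem pwl_sum_roots (N : ℕ) (hN : 0 < N) (k : ℕ) :
    ∑ ω ∈ nthRootsFinset N (1 : ℂ), ω ^ k = if N ∣ k then (N : ℂ) else 0 := by
  have hprim := Complex.isPrimitiveRoot_exp N hN.ne'
  have hcard : (nthRootsFinset N (1 : ℂ)).card = N := hprim.card_nthRootsFinset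
  split_ifs with h
  · obtain ⟨j, rfl⟩ := h
    have h1 : ∀ ω ∈ nthRootsFinset N (1 : ℂ), ω ^ (N * j) = 1 := by
      intro ω hω
      rw [mem_nthRootsFinset hN] at hω
      rw [pow_mul, hω, one_pow]
    rw [Finset.sum_congr rfl h1, Finset.sum_const, hcard]
    simp
  · set μ := Complex.exp (2 * Real.pi * Complex.I / N) with hμ
    have hμN : μ ^ N = 1 := hprim.pow_eq_one
    have hμk : μ ^ k ≠ 1 := fun h1 => h ((hprim.pow_eq_one_iff_dvd k).1 h1)
    have hμ0 : μ ≠ 0 := Complex.exp_ne_zero _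
    have h1 : ∑ ω ∈ nthRootsFinset N (1 : ℂ), ω ^ k =
        ∑ ω ∈ nthRootsFinset N (1 : ℂ), (μ * ω) ^ k := by
      symm
      refine Finset.sum_bij' (fun ω _ => μ * ω) (fun ω _ => μ⁻¹ * ω) ?_ ?_ ?_ ?_ ?_
      · intro ω hω
        rw [mem_nthRootsFinset hN] at hω ⊢
        rw [mul_pow, hμN, hω, one_mul]
      · intro ω hω
        rw [mem_nthRootsFinset hN] at hω ⊢
        rw [mul_pow, inv_pow, hμN, hω, inv_one, one_mul]
      · intro ω _
        field_simp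
      · intro ω _
        field_simp
      · intro ω _
        rfl
    have h2 : ∑ ω ∈ nthRootsFinset N (1 : ℂ), (μ * ω) ^ k =
        μ ^ k * ∑ ω ∈ nthRootsFinset N (1 : ℂ), ω ^ k := by
      rw [Finset.mul_sum]
      exact Finset.sum_congr rfl fun ω _ => mul_pow _ _ _
    rw [h2] at h1
    have h3 : (1 - μ ^ k) * ∑ ω ∈ nthRootsFinset N (1 : ℂ), ω ^ k = 0 := by
      linear_combination h1
    rcases mul_eq_zero.1 h3 with h4 | h4
    · exact absurd (sub_eq_zero.1 h4).symm hμk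
    · exact h4

private theorem pwl_filter (N : ℕ) (hN : 0 < N) (M : ℕ) :
    (Finset.Ico 1 M).filter (fun k => N ∣ k) =
      (Finset.Ico 1 ((M - 1) / N + 1)).image (fun j => N * j) := by
  ext k
  simp only [Finset.mem_filter, Finset.mem_Ico, Finset.mem_image]
  constructor
  · rintro ⟨⟨h1, h2⟩, j, rfl⟩
    refine ⟨j, ⟨?_, ?_⟩, rfl⟩
    · rcases Nat.eq_zero_or_pos j with rfl | h
      · omega
      · exact h
    · rw [Nat.lt_succ_iff, Nat.le_div_iff_mul_le hN, mul_comm]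
      omega
  · rintro ⟨j, ⟨h1, h2⟩, rfl⟩
    rw [Nat.lt_succ_iff, Nat.le_div_iff_mul_le hN, mul_comm] at h2
    have h3 : 1 ≤ N * j := Nat.mul_pos hN h1
    exact ⟨⟨h3, by omega⟩, dvd_mul_right _ _⟩

private theorem pwl_LL (N : ℕ) (hN : 0 < N) (c : ℕ → ℂ) (M : ℕ) (ζ : ℂ) :
    ∑ ω ∈ nthRootsFinset N (1 : ℂ), LL c M (ω * ζ) =
      LL (fun j => c (N * j)) ((M - 1) / N + 1) (ζ ^ N) := by
  have hNC : (N : ℂ) ≠ 0 := by exact_mod_cast hN.ne'
  unfold LL
  rw [← Complex.re_sum]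
  congr 1
  rw [Finset.sum_comm]
  have h1 : ∀ k ∈ Finset.Ico 1 M, ∑ ω ∈ nthRootsFinset N (1 : ℂ), c k * (ω * ζ) ^ k / k =
      if N ∣ k then (N : ℂ) * (c k * ζ ^ k / k) else 0 := by
    intro k _
    have h2 : ∑ ω ∈ nthRootsFinset N (1 : ℂ), c k * (ω * ζ) ^ k / k =
        (c k * ζ ^ k / k) * ∑ ω ∈ nthRootsFinset N (1 : ℂ), ω ^ k := by
      rw [Finset.mul_sum]
      refine Finset.sum_congr rfl fun ω _ => ?_
      rw [mul_pow]
      ring
    rw [h2, pwl_sum_roots N hN k]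
    split_ifs
    · ring
    · ring
  rw [Finset.sum_congr rfl h1, ← Finset.sum_filter, pwl_filter N hN M,
    Finset.sum_image (fun a _ b _ hab => Nat.eq_of_mul_eq_mul_left hN hab)]
  refine Finset.sum_congr rfl fun j hj => ?_
  have hj1 : 1 ≤ j := (Finset.mem_Ico.1 hj).1
  have hjC : (j : ℂ) ≠ 0 := by exact_mod_cast (by omega : j ≠ 0)
  push_cast
  rw [← pow_mul]
  field_simp

theorem kapL_pow_le {m : ℕ} (x : Fin m → ℂ) (hx : ∀ l, ‖x l‖ ≤ 1) (N : ℕ) (hN : 0 < N)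
    (c : ℕ → ℂ) (M : ℕ) :
    kapL (fun l => x l ^ N) (fun j => c (N * j)) ((M - 1) / N + 1) ≤ N * kapL x c M := by
  set c' : ℕ → ℂ := fun j => c (N * j) with hc'
  set M' : ℕ := (M - 1) / N + 1 with hM'
  have hcard : (nthRootsFinset N (1 : ℂ)).card = N :=
    (Complex.isPrimitiveRoot_exp N hN.ne').card_nthRootsFinset
  have hω : ∀ ω ∈ nthRootsFinset N (1 : ℂ), ‖ω‖ = 1 := by
    intro ω hω
    rw [mem_nthRootsFinset hN] at hω
    exact Complex.norm_eq_one_of_pow_eq_one hω hN.ne'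
  have hi : ∀ ω : ℂ, CircleIntegrable (fun ζ : ℂ => |VV x 0 (ω * ζ) - LL c M (ω * ζ)|) 0 1 :=
    fun ω => (pwl_ci x c M ω).abs
  have hsum : CircleIntegrable (fun ζ : ℂ => ∑ ω ∈ nthRootsFinset N (1 : ℂ),
      (VV x 0 (ω * ζ) - LL c M (ω * ζ))) 0 1 := by
    have h := CircleIntegrable.sum (nthRootsFinset N (1 : ℂ))
      (f := fun ω => fun ζ : ℂ => VV x 0 (ω * ζ) - LL c M (ω * ζ)) (c := 0) (R := 1)
      (fun ω _ => pwl_ci x c M ω)
    convert h using 1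
    funext ζ
    rw [Finset.sum_apply]
  have hsum' : CircleIntegrable (fun ζ : ℂ => ∑ ω ∈ nthRootsFinset N (1 : ℂ),
      |VV x 0 (ω * ζ) - LL c M (ω * ζ)|) 0 1 := by
    have h := CircleIntegrable.sum (nthRootsFinset N (1 : ℂ))
      (f := fun ω => fun ζ : ℂ => |VV x 0 (ω * ζ) - LL c M (ω * ζ)|) (c := 0) (R := 1)
      (fun ω _ => hi ω)
    convert h using 1
    funext ζ
    rw [Finset.sum_apply]
  have e1 : kapL (fun l => x l ^ N) c' M' =
      Real.circleAverage (fun ζ => |VV (fun l => x l ^ N) 0 (ζ ^ N) - LL c' M' (ζ ^ N)|) 0 1 := by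
    rw [kapL, Real.circleAverage, Real.circleAverage]
    congr 1
    exact (integral_comp_pow (fun ζ => |VV (fun l => x l ^ N) 0 ζ - LL c' M' ζ|) N hN
      (circleIntegrable_sub_LL (fun l => x l ^ N) c' M').abs).symm
  have e2 : Real.circleAverage
      (fun ζ => |VV (fun l => x l ^ N) 0 (ζ ^ N) - LL c' M' (ζ ^ N)|) 0 1 =
      Real.circleAverage (fun ζ => |∑ ω ∈ nthRootsFinset N (1 : ℂ),
        (VV x 0 (ω * ζ) - LL c M (ω * ζ))|) 0 1 := by
    refine Real.circleAverage_congr_codiscreteWithin ?_ one_ne_zero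
    filter_upwards [pwl_finite_codiscrete (pwl_bad_finite x N hN)] with ζ hζ
    rw [pwl_pow_eq x N hN ζ hζ, ← pwl_LL N hN c M ζ, ← Finset.sum_sub_distrib]
  have e3 : Real.circleAverage (fun ζ => |∑ ω ∈ nthRootsFinset N (1 : ℂ),
        (VV x 0 (ω * ζ) - LL c M (ω * ζ))|) 0 1 ≤
      Real.circleAverage (fun ζ => ∑ ω ∈ nthRootsFinset N (1 : ℂ),
        |VV x 0 (ω * ζ) - LL c M (ω * ζ)|) 0 1 :=
    Real.circleAverage_mono hsum.abs hsum' fun ζ _ => Finset.abs_sum_le_sum_abs _ _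
  have e4 : Real.circleAverage (fun ζ => ∑ ω ∈ nthRootsFinset N (1 : ℂ),
        |VV x 0 (ω * ζ) - LL c M (ω * ζ)|) 0 1 = N * kapL x c M := by
    rw [Real.circleAverage_fun_sum fun ω _ => hi ω,
      Finset.sum_congr rfl fun ω hω' =>
        circleAverage_rot (fun ζ => |VV x 0 ζ - LL c M ζ|) ω (hω ω hω'),
      Finset.sum_const, hcard, nsmul_eq_mul]
    rfl
  rw [e1, e2]
  exact e3.trans e4.le

theorem DL_pow_le (N : ℕ) (hN : 0 < N) (c : ℕ → ℂ) (M : ℕ) :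
    DL (fun j => c (N * j)) ((M - 1) / N + 1) ≤ N * DL c M := by
  have hNR : (0 : ℝ) < N := by exact_mod_cast hN
  unfold DL
  have h1 : ∑ j ∈ Finset.Ico 1 ((M - 1) / N + 1), ‖c (N * j)‖ ^ 2 / (j : ℝ) =
      N * ∑ k ∈ (Finset.Ico 1 M).filter (fun k => N ∣ k), ‖c k‖ ^ 2 / (k : ℝ) := by
    rw [pwl_filter N hN M,
      Finset.sum_image (fun a _ b _ hab => Nat.eq_of_mul_eq_mul_left hN hab), Finset.mul_sum]
    refine Finset.sum_congr rfl fun j hj => ?_
    have hj1 : 1 ≤ j := (Finset.mem_Ico.1 hj).1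
    have hjR : (0 : ℝ) < j := by exact_mod_cast hj1
    push_cast
    field_simp
  rw [h1]
  refine mul_le_mul_of_nonneg_left ?_ hNR.le
  exact Finset.sum_le_sum_of_subset_of_nonneg (Finset.filter_subset _ _)
    fun k _ _ => by positivity

end Pool.Agent.Lib.MP_7ab245_nt.TrE
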