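import Mathlib
import Pool.Agent.Lib.MP_7ab245_nt.TrE.Basic
import Pool.Agent.Lib.MP_7ab245_nt.L1.Red1b

/-! Relations between `mlogL` and `kapL`. -/

set_option autoImplicit false

open Polynomial Finset

namespace Pool.Agent.Lib.MP_7ab245_nt.TrE

open Pool.Agent.Lib.MP_7ab245_nt.Len
open Pool.Agent.Lib.MP_7ab245_nt.L1

private theorem rfl_ci_eval (P : ℂ[X]) :
    CircleIntegrable (fun z : ℂ => Real.log ‖P.eval z‖) 0 1 := by
  have h : MeromorphicOn (fun z : ℂ => P.eval z) (Metric.sphere 0 |(1 : ℝ)|) := by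
    intro z _
    have h1 : AnalyticAt ℂ (fun z : ℂ => P.eval z) z := by
      have := AnalyticOnNhd.eval_polynomial (𝕜 := ℂ) P
      exact this z (Set.mem_univ z)
    exact h1.meromorphicAt
  exact h.circleIntegrable_log_norm

private theorem rfl_finite_codiscrete {S : Set ℂ} (hS : S.Finite) :
    Sᶜ ∈ Filter.codiscreteWithin (Metric.sphere (0 : ℂ) |1|) :=
  Filter.codiscreteWithin_mono (Set.subset_univ _) hS.compl_mem_codiscrete

theorem mlogL_nonneg (f : ℤ[X]) (c : ℕ → ℂ) (N : ℕ) : 0 ≤ mlogL f c N :=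
  Real.circleAverage_nonneg_of_nonneg fun _ _ => abs_nonneg _

theorem mlogL_X_pow_mul (r : ℕ) (f : ℤ[X]) (c : ℕ → ℂ) (N : ℕ) :
    mlogL (X ^ r * f) c N = mlogL f c N := by
  refine Real.circleAverage_congr_sphere fun z hz => ?_
  have hz1 : ‖z‖ = 1 := by
    have := mem_sphere_zero_iff_norm.mp hz
    rwa [abs_one] at this
  simp only [Polynomial.map_mul, Polynomial.map_pow, map_X, eval_mul, eval_pow, eval_X, norm_mul,
    norm_pow, hz1, one_pow, one_mul]

theorem mlogL_neg (f : ℤ[X]) (c : ℕ → ℂ) (N : ℕ) : mlogL (-f) c N = mlogL f c N := by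
  unfold mlogL
  simp only [Polynomial.map_neg, eval_neg, norm_neg]

theorem hh_le_mlogL (f : ℤ[X]) {n : ℕ} (α : Fin n → ℂ) (hα : IsRoots f α) (c : ℕ → ℂ) (N : ℕ) :
    hh α ≤ mlogL f c N := by
  have hi := rfl_ci_eval (f.map (Int.castRingHom ℂ))
  have hL := circleIntegrable_LL c N
  have h1 : hh α = Real.circleAverage
      (fun z => Real.log ‖(f.map (Int.castRingHom ℂ)).eval z‖ + LL c N z) 0 1 := by
    rw [Real.circleAverage_fun_add hi hL]
    have h2 : Real.circleAverage (fun z => LL c N z) 0 1 = 0 := circleAverage_LL c N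
    rw [h2, add_zero, hh_eq_log_mahler f α hα, ← logMahlerMeasure_eq_log_MahlerMeasure,
      logMahlerMeasure_def]
  rw [h1]
  exact Real.circleAverage_mono (hi.add hL) (hi.add hL).abs fun z _ => le_abs_self _

private theorem rfl_log_eval (f : ℤ[X]) {n : ℕ} (α : Fin n → ℂ) (hα : IsRoots f α) (ζ : ℂ)
    (hζ : ‖ζ‖ = 1) (hne : (f.map (Int.castRingHom ℂ)).eval ζ ≠ 0) :
    VV (fun i => Len.refl (α i)) 0 ζ =
      hh α - Real.log ‖(f.map (Int.castRingHom ℂ)).eval ζ‖ := by
  have h1 : (f.map (Int.castRingHom ℂ)).eval ζ = ∏ i, (ζ - α i) := by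
    rw [hα, eval_prod]
    simp
  rw [h1] at hne ⊢
  have hne' : ∀ j, ζ - α j ≠ 0 := fun j h => hne (Finset.prod_eq_zero (Finset.mem_univ j) h)
  rw [norm_prod, Real.log_prod fun j _ => norm_ne_zero_iff.mpr (hne' j), hh, VV,
    ← Finset.sum_sub_distrib, zero_sub, ← Finset.sum_neg_distrib]
  refine Finset.sum_congr rfl fun j _ => ?_
  have h2 := norm_F_eq (α j) ζ hζ
  have h3 : 0 < ‖ζ - α j‖ := norm_pos_iff.mpr (hne' j)
  have hmx : (0 : ℝ) < max 1 ‖α j‖ := lt_of_lt_of_le one_pos (le_max_left _ _)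
  have h4 : ‖1 - ζ * starRingEnd ℂ (Len.refl (α j))‖ ≠ 0 := by
    intro h
    rw [h, zero_mul] at h2
    exact h3.ne h2
  rw [← h2, Real.log_mul h4 hmx.ne', Real.posLog_eq_log_max_one (norm_nonneg _)]
  ring

private theorem rfl_root_finite (f : ℤ[X]) {n : ℕ} (α : Fin n → ℂ) (hα : IsRoots f α) :
    {ζ : ℂ | (f.map (Int.castRingHom ℂ)).eval ζ = 0}.Finite := by
  have hf0 : f.map (Int.castRingHom ℂ) ≠ 0 := (hα.monic.map _).ne_zero
  refine ((f.map (Int.castRingHom ℂ)).roots.toFinset.finite_toSet).subset fun ζ hζ => ?_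
  rw [Finset.mem_coe, Multiset.mem_toFinset, mem_roots hf0, IsRoot.def]
  exact hζ

theorem kapL_refl_le (f : ℤ[X]) {n : ℕ} (α : Fin n → ℂ) (hα : IsRoots f α) (c : ℕ → ℂ) (N : ℕ) :
    kapL (fun i => Len.refl (α i)) c N ≤ 2 * mlogL f c N := by
  have hfin := rfl_root_finite f α hα
  have e1 : kapL (fun i => Len.refl (α i)) c N = Real.circleAverage
      (fun ζ => |hh α - (Real.log ‖(f.map (Int.castRingHom ℂ)).eval ζ‖ + LL c N ζ)|) 0 1 := by
    refine Real.circleAverage_congr_codiscreteWithin ?_ one_ne_zero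
    filter_upwards [rfl_finite_codiscrete hfin, Filter.self_mem_codiscreteWithin _] with ζ hζ hs
    have hz1 : ‖ζ‖ = 1 := by
      have := mem_sphere_zero_iff_norm.mp hs
      rwa [abs_one] at this
    rw [rfl_log_eval f α hα ζ hz1 hζ]
    congr 1
    ring
  have hi := rfl_ci_eval (f.map (Int.castRingHom ℂ))
  have hL := circleIntegrable_LL c N
  have hiL := hi.add hL
  have e2 : Real.circleAverage
      (fun ζ => |hh α - (Real.log ‖(f.map (Int.castRingHom ℂ)).eval ζ‖ + LL c N ζ)|) 0 1 ≤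
      Real.circleAverage
      (fun ζ => mlogL f c N +
        |Real.log ‖(f.map (Int.castRingHom ℂ)).eval ζ‖ + LL c N ζ|) 0 1 := by
    refine Real.circleAverage_mono ((circleIntegrable_const _ _ _).sub hiL).abs
      ((circleIntegrable_const _ _ _).add hiL.abs) fun ζ _ => ?_
    have hh0 : 0 ≤ hh α := Finset.sum_nonneg fun i _ => Real.posLog_nonneg
    have h1 := abs_sub (hh α) (Real.log ‖(f.map (Int.castRingHom ℂ)).eval ζ‖ + LL c N ζ)
    have h2 := hh_le_mlogL f α hα c N
    rw [abs_of_nonneg hh0] at h1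
    linarith
  have e3 : Real.circleAverage
      (fun ζ => mlogL f c N +
        |Real.log ‖(f.map (Int.castRingHom ℂ)).eval ζ‖ + LL c N ζ|) 0 1 = 2 * mlogL f c N := by
    have hi' : CircleIntegrable
        (fun ζ => |Real.log ‖(f.map (Int.castRingHom ℂ)).eval ζ‖ + LL c N ζ|) 0 1 := hiL.abs
    rw [Real.circleAverage_fun_add (circleIntegrable_const _ _ _) hi',
      Real.circleAverage_const]
    show mlogL f c N + mlogL f c N = _
    ring
  rw [e1]
  exact e2.trans e3.le

theorem mlogL_le (f : ℤ[X]) {n : ℕ} (α : Fin n → ℂ) (hα : IsRoots f α) (c : ℕ → ℂ) (N : ℕ) :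
    mlogL f c N ≤ hh α + kapL (fun i => Len.refl (α i)) c N := by
  have hfin := rfl_root_finite f α hα
  have hh0 : 0 ≤ hh α := Finset.sum_nonneg fun i _ => Real.posLog_nonneg
  have e1 : mlogL f c N = Real.circleAverage
      (fun ζ => |hh α - (VV (fun i => Len.refl (α i)) 0 ζ - LL c N ζ)|) 0 1 := by
    refine Real.circleAverage_congr_codiscreteWithin ?_ one_ne_zero
    filter_upwards [rfl_finite_codiscrete hfin, Filter.self_mem_codiscreteWithin _] with ζ hζ hs
    have hz1 : ‖ζ‖ = 1 := by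
      have := mem_sphere_zero_iff_norm.mp hs
      rwa [abs_one] at this
    rw [rfl_log_eval f α hα ζ hz1 hζ]
    congr 1
    ring
  have hV := circleIntegrable_sub_LL (fun i => Len.refl (α i)) c N
  have e2 : Real.circleAverage
      (fun ζ => |hh α - (VV (fun i => Len.refl (α i)) 0 ζ - LL c N ζ)|) 0 1 ≤
      Real.circleAverage
      (fun ζ => hh α + |VV (fun i => Len.refl (α i)) 0 ζ - LL c N ζ|) 0 1 := by
    refine Real.circleAverage_mono ((circleIntegrable_const _ _ _).sub hV).abs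
      ((circleIntegrable_const _ _ _).add hV.abs) fun ζ _ => ?_
    have h1 := abs_sub (hh α) (VV (fun i => Len.refl (α i)) 0 ζ - LL c N ζ)
    rw [abs_of_nonneg hh0] at h1
    exact h1
  have e3 : Real.circleAverage
      (fun ζ => hh α + |VV (fun i => Len.refl (α i)) 0 ζ - LL c N ζ|) 0 1 =
      hh α + kapL (fun i => Len.refl (α i)) c N := by
    have hi' : CircleIntegrable
        (fun ζ => |VV (fun i => Len.refl (α i)) 0 ζ - LL c N ζ|) 0 1 := hV.abs
    rw [Real.circleAverage_fun_add (circleIntegrable_const _ _ _) hi',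
      Real.circleAverage_const]
    rfl
  rw [e1]
  exact e2.trans e3.le

end Pool.Agent.Lib.MP_7ab245_nt.TrE
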