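import Mathlib
import Pool.Agent.Lib.MP_7ab245_nt.TrE.AnaL
import Pool.Agent.Lib.MP_7ab245_nt.TrE.PowL
import Pool.Agent.Lib.MP_7ab245_nt.TrE.ReflL
import Pool.Agent.Lib.MP_7ab245_nt.L1.Red2

/-! The lower bound of `M(g)` in terms of the mean of `|log |f| + L|` and the energy of `L`. -/

set_option autoImplicit false

open Polynomial Finset

namespace Pool.Agent.Lib.MP_7ab245_nt.TrE

open Pool.Agent.Lib.MP_7ab245_nt.Len
open Pool.Agent.Lib.MP_7ab245_nt.L1

/-- `red2_energy` with a general quantity `K` instead of `kap y + ∑ l, -Real.log ‖y l‖` -/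
theorem redL_energy (C : ℝ) (hC : 1 ≤ C)
    (h : ℤ[X]) (hh1 : h.Monic) (hirr : Irreducible h) (hM : 1 < mm h) (hM2 : mm h < 2)
    (hexp : ¬ ∃ h' : ℤ[X], h = expand ℤ 2 h') {n : ℕ} (γ : Fin n → ℂ) (hγ : IsRoots h γ)
    {m : ℕ} (hm : 0 < m) (y : Fin m → ℂ) (hy0 : ∀ l, y l ≠ 0) (hy1 : ∀ l, ‖y l‖ ≤ 1)
    (K : ℝ) (hK0 : 0 ≤ K)
    (hana : ∀ B : ℝ, 1 ≤ B → ∃ s : ℂ → ℝ, (∀ z, 0 < s z) ∧ (∀ z, s (Complex.I * z) = s z) ∧
      ∑ l, s (y l) ≤ C * (1 + K) / B ∧
      (∀ ρ : Fin m → ℂ, (∀ l, ρ l ^ 2 = y l) → ∑ l, s (ρ l) ≤ C * (1 + K) / B) ∧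
      IE (fun l => sm s (y l)) (fun l => sm s (y l)) ≤ C * m * (1 + K) * (1 + Real.log B))
    (S : Multiset ℕ) (hS : ∀ j ∈ S, 0 < j) (e N : ℕ) (he : 0 < e) (hN : 0 < N)
    (hdec : ∀ H : ℂ → ℝ, ∑ l, H (y l) = cyc S H + ((e * N : ℕ) : ℝ) * ∑ i, H (Len.refl (γ i)))
    (D k : ℝ) (hD : 1 ≤ D) (hk : 0 ≤ k) (hmD : (m : ℝ) ≤ D * (e * N * n))
    (hK : K ≤ 4 * N * k) (b A : ℝ)
    (hb : b = 96 * C * (D * (1 + k))) (hA : A = b * (3 + Real.log (4 * C * (1 + k))))
    (B : ℝ) (hB : 1 ≤ B) :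
    ∃ a : Fin n → ℝ, (∀ i, 0 < a i) ∧ ∑ i, a i ≤ 1 / B ∧
      IE (Va γ a) (Va γ a) ≤ n * (A + b * Real.log B) := by
  have h0 := coeff_zero_ne_zero h hirr hM
  have heR : (1 : ℝ) ≤ e := by exact_mod_cast he
  have hNR : (1 : ℝ) ≤ N := by exact_mod_cast hN
  have hmR : (0 : ℝ) < m := by exact_mod_cast hm
  have hlk : 0 ≤ Real.log (4 * C * (1 + k)) := Real.log_nonneg (by nlinarith only [hC, hM, hM2, hk])
  have hlB : 0 ≤ Real.log B := Real.log_nonneg hB
  have hK1 : 1 + K ≤ 4 * N * (1 + k) := by nlinarith only [hK, hM, hM2, hNR]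
  have hCk : 1 ≤ 4 * C * (1 + k) := by nlinarith only [hC, hM, hM2, hk]
  obtain ⟨s, hs, hsI, hs1, hs2, hs3⟩ := hana (4 * C * (1 + k) * B) (by nlinarith only [hB, hC, hCk, hM, hM2, hk])
  obtain ⟨η, hη⟩ : ∃ η : ℝ, η = N / B := ⟨_, rfl⟩
  have hη0 : C * (1 + K) / (4 * C * (1 + k) * B) ≤ η := by
    rw [hη, div_le_div_iff₀ (by positivity) (by positivity)]
    have h1 : C * (1 + K) * B ≤ C * (4 * N * (1 + k)) * B := by gcongr
    linarith
  -- the total smoothing of the roots of `h`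
  have hcyc : 0 ≤ cyc S s := by
    unfold cyc
    apply Multiset.sum_nonneg
    intro x hx
    obtain ⟨j, -, rfl⟩ := Multiset.mem_map.mp hx
    exact Finset.sum_nonneg fun z _ => (hs z).le
  have heN : (0 : ℝ) < ((e * N : ℕ) : ℝ) := by positivity
  have heN' : ((e * N : ℕ) : ℝ) = e * N := by push_cast; ring
  have hsv : ∑ i, s (Len.refl (γ i)) ≤ 1 / B := by
    have h1 := hdec s
    have h2 : ((e * N : ℕ) : ℝ) * ∑ i, s (Len.refl (γ i)) ≤ N / B := by
      rw [← hη]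
      linarith
    have h3 : (N : ℝ) * ∑ i, s (Len.refl (γ i)) ≤ ((e * N : ℕ) : ℝ) * ∑ i, s (Len.refl (γ i)) := by
      have : 0 ≤ ∑ i, s (Len.refl (γ i)) := Finset.sum_nonneg fun z _ => (hs _).le
      rw [heN']
      gcongr
      nlinarith only [heR]
    have h4 : (N : ℝ) * ∑ i, s (Len.refl (γ i)) ≤ N * (1 / B) := by
      rw [mul_one_div]
      linarith
    exact le_of_mul_le_mul_left h4 (by linarith)
  have hBinv : 1 / B ≤ 1 := by
    rw [div_le_one (by linarith)]; exact hB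
  -- the error
  have hhle : hh γ ≤ 1 := by
    rw [hh_eq_log_mahler h γ hγ]
    have h1 : Real.log (mm h) ≤ Real.log 2 := Real.log_le_log (by linarith) hM2.le
    have := Real.log_two_lt_d9
    unfold mm at h1
    linarith
  have hh0 : 0 ≤ hh γ := Finset.sum_nonneg fun i _ => Real.posLog_nonneg
  have hsv0 : 0 ≤ ∑ i, s (Len.refl (γ i)) := Finset.sum_nonneg fun z _ => (hs _).le
  obtain ⟨ε, hε⟩ : ∃ ε : ℝ, ε = ∑ i, s (Len.refl (γ i)) + hh γ := ⟨_, rfl⟩
  have hε0 : 0 ≤ ε := by rw [hε]; linarith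
  have hε2 : ε ≤ 2 := by rw [hε]; linarith
  have hex : ∀ l, ∃ ρ : ℂ, ρ ^ 2 = y l := fun l => IsAlgClosed.exists_pow_nat_eq (y l) two_pos
  choose ρ hρ using hex
  have hn0 : (0 : ℝ) ≤ n := Nat.cast_nonneg n
  have hsub := sub_smooth (fun i => Len.refl (γ i)) (fun i => by
      have h1 := hγ.ne_zero h0 i
      exact refl_ne_zero h1) (fun i => norm_refl_le _) y hy0 hy1 S hS (e * N)
    (Nat.mul_pos he hN) hdec s hs hsI ρ hρ ε η hε0 (hs1.trans hη0) ((hs2 ρ hρ).trans hη0)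
    (by
      intro j hj
      rw [hε]
      exact cyc_smooth_le h hh1 hirr hM γ hγ s hs j hj)
    (by
      rw [hε]
      exact neg_smooth_le h hh1 hirr hM γ hγ hexp s hs)
    (by
      rw [hε]
      exact two_four_smooth_le h hh1 hirr hM γ hγ s hs)
    (by
      rw [hε]
      exact four_four_smooth_le h hh1 hirr hM h0 γ hγ s hs hsI)
  refine ⟨fun i => s (Len.refl (γ i)), fun i => hs _, hsv, ?_⟩
  change IE (fun i => sm s (Len.refl (γ i))) (fun i => sm s (Len.refl (γ i))) ≤ _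
  refine hsub.trans ?_
  obtain ⟨T, hT⟩ : ∃ T, T = 1 + Real.log (4 * C * (1 + k)) + Real.log B := ⟨_, rfl⟩
  have hT1 : 1 ≤ T := by rw [hT]; linarith
  have hlogB1 : 1 + Real.log (4 * C * (1 + k) * B) = T := by
    rw [hT, Real.log_mul (by positivity) (by positivity)]; ring
  rw [hlogB1] at hs3
  -- `m / E ≤ D n`
  have hmE : (m : ℝ) / ((e * N : ℕ) : ℝ) ≤ D * n := by
    rw [div_le_iff₀ heN, heN']
    linarith
  have hmE0 : 0 ≤ (m : ℝ) / ((e * N : ℕ) : ℝ) := by positivity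
  have hNE : (N : ℝ) / ((e * N : ℕ) : ℝ) ≤ 1 := by
    rw [div_le_one heN, heN']
    nlinarith only [heR]
  have hNE0 : 0 ≤ (N : ℝ) / ((e * N : ℕ) : ℝ) := by positivity
  have h1 : 24 * IE (fun l => sm s (y l)) (fun l => sm s (y l)) / ((e * N : ℕ) : ℝ) ^ 2 ≤
      96 * C * (1 + k) * T * (D * n) := by
    calc 24 * IE (fun l => sm s (y l)) (fun l => sm s (y l)) / ((e * N : ℕ) : ℝ) ^ 2
        ≤ 24 * (C * m * (4 * N * (1 + k)) * T) / ((e * N : ℕ) : ℝ) ^ 2 := by
          gcongr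
          refine hs3.trans ?_
          gcongr
      _ = 96 * C * (1 + k) * T * ((m / ((e * N : ℕ) : ℝ)) * (N / ((e * N : ℕ) : ℝ))) := by
          field_simp
          ring
      _ ≤ 96 * C * (1 + k) * T * ((D * n) * 1) := by gcongr
      _ = _ := by ring
  have h2 : 108 * m * η / ((e * N : ℕ) : ℝ) ^ 2 ≤ 108 * (D * n) := by
    calc 108 * m * η / ((e * N : ℕ) : ℝ) ^ 2
        = 108 * ((m / ((e * N : ℕ) : ℝ)) * ((N / ((e * N : ℕ) : ℝ)) * (1 / B))) := by
          rw [hη]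
          field_simp
      _ ≤ 108 * ((D * n) * (1 * 1)) := by gcongr
      _ = _ := by ring
  have h3 : 18 * ((m : ℝ) / ((e * N : ℕ) : ℝ)) * ε ≤ 18 * (D * n) * 2 := by gcongr
  have h4 : (144 : ℝ) * (D * n) ≤ 2 * (96 * C * (D * (1 + k))) * n := by
    have h5 : 0 ≤ D * n := by positivity
    have h6 : 1 ≤ C * (1 + k) := by nlinarith only [hC, hk]
    have h7 : D * n * 1 ≤ D * n * (C * (1 + k)) := by gcongr
    linarith only [h7, hmE, hmE0]
  have h8 : (n : ℝ) * (A + b * Real.log B) =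
      96 * C * (1 + k) * T * (D * n) + 2 * (96 * C * (D * (1 + k))) * n := by
    rw [hA, hT, hb]
    ring
  rw [h8]
  linarith only [h1, h2, h3, h4]

/-- the case where `g` and `u` are monic and `M(g) < 2` -/
private theorem redL_monic (C : ℝ) (hC : 1 ≤ C)
    (hana : ∀ (m : ℕ) (y : Fin m → ℂ), 0 < m →
    (∀ l, ‖y l‖ ≤ 1) → (∀ l, y l ≠ 0) → ∀ (c : ℕ → ℂ) (N : ℕ) (K : ℝ),
    K = kapL y c N + DL c N / m + ∑ l, -Real.log ‖y l‖ →
    ∀ B : ℝ, 1 ≤ B → ∃ s : ℂ → ℝ, (∀ z, 0 < s z) ∧ (∀ z, s (Complex.I * z) = s z) ∧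
      ∑ l, s (y l) ≤ C * (1 + K) / B ∧
      (∀ ρ : Fin m → ℂ, (∀ l, ρ l ^ 2 = y l) → ∑ l, s (ρ l) ≤ C * (1 + K) / B) ∧
      IE (fun l => sm s (y l)) (fun l => sm s (y l)) ≤ C * m * (1 + K) * (1 + Real.log B))
    (u g : ℤ[X]) (e : ℕ) (he : 0 < e) (hu : u.Monic) (hg : g.Monic) (hMu : mm u = 1)
    (hirr : Irreducible g) (hM : 1 < mm g) (hM2 : mm g < 2) (f : ℤ[X]) (D : ℝ)
    (hf : f = u * g ^ e) (hD : D = f.natDegree / (e * g.natDegree)) (c : ℕ → ℂ) (M : ℕ) :
    1 / 10 ^ 20 * (1 / (288 * C) ^ 3) *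
      (1 / (D * (1 + mlogL f c M + DL c M / f.natDegree)) ^ 3) ≤ Real.log (mm g) := by
  classical
  have hg0 := coeff_zero_ne_zero g hirr hM
  obtain ⟨α, hα⟩ := exists_isRoots g hg
  have hn := hα.pos hirr
  have hnR : (0 : ℝ) < g.natDegree := by exact_mod_cast hn
  have heR : (0 : ℝ) < e := by exact_mod_cast he
  have hune : u ≠ 0 := hu.ne_zero
  -- remove the factor `X`
  obtain ⟨r, u1, hu1, hu10⟩ : ∃ (r : ℕ) (u1 : ℤ[X]), u = X ^ r * u1 ∧ u1.coeff 0 ≠ 0 := by
    obtain ⟨u1, h1, h2⟩ := exists_eq_pow_rootMultiplicity_mul_and_not_dvd u hune 0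
    rw [C_0, sub_zero] at h1 h2
    exact ⟨_, u1, h1, fun h => h2 (X_dvd_iff.mpr h)⟩
  have hu1m : u1.Monic := by
    rw [hu1] at hu
    exact (monic_X_pow r).of_mul_monic_left hu
  have hMu1 : mm u1 = 1 := by
    have h1 : mm (X ^ r : ℤ[X]) = 1 := by rw [mm_pow, mm_X, one_pow]
    rw [hu1, mm_mul, h1, one_mul] at hMu
    exact hMu
  obtain ⟨S, hS, hSu⟩ := exists_cyc_factor u1 hu1m hu10 hMu1
  set f1 : ℤ[X] := u1 * g ^ e with hf1
  have hff1 : f = X ^ r * f1 := by rw [hf, hu1, hf1]; ring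
  have hf1m : f1.Monic := hu1m.mul (hg.pow e)
  have hmlog : mlogL f c M = mlogL f1 c M := by rw [hff1, mlogL_X_pow_mul]
  have hf10 : f1.coeff 0 ≠ 0 := by
    rw [hf1, mul_coeff_zero, coeff_zero_eq_eval_zero (g ^ e), eval_pow, ← coeff_zero_eq_eval_zero]
    exact mul_ne_zero hu10 (pow_ne_zero e hg0)
  obtain ⟨β, hβ⟩ := exists_isRoots f1 hf1m
  have hdeg1 : f1.natDegree = u1.natDegree + e * g.natDegree := by
    rw [hf1, hu1m.natDegree_mul (hg.pow e), hg.natDegree_pow]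
  have hdeg : f.natDegree = r + f1.natDegree := by
    rw [hff1, (monic_X_pow r).natDegree_mul hf1m, natDegree_X_pow]
  have hen : (0 : ℝ) < e * g.natDegree := by positivity
  have hfD : (f.natDegree : ℝ) = D * (e * g.natDegree) := by
    rw [hD, div_mul_cancel₀ _ hen.ne']
  have hm : 0 < f1.natDegree := by
    rw [hdeg1]
    have : 0 < e * g.natDegree := Nat.mul_pos he hn
    omega
  have hmD : (f1.natDegree : ℝ) ≤ D * (e * g.natDegree) := by
    rw [← hfD]
    exact_mod_cast (by omega : f1.natDegree ≤ f.natDegree)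
  have hD1 : 1 ≤ D := by
    rw [hD, le_div_iff₀ hen, one_mul]
    have : e * g.natDegree ≤ f.natDegree := by omega
    exact_mod_cast this
  -- `g = h(X ^ N)`
  obtain ⟨N, h, hN, hgh, hhm, hhirr, hhexp⟩ := exists_expand_max g hg hirr
  obtain ⟨γ, hγ⟩ := exists_isRoots h hhm
  have hmmh : mm h = mm g := by rw [hgh, mm_expand hN]
  have hnh : 0 < h.natDegree := hγ.pos hhirr
  have hgdeg : g.natDegree = h.natDegree * N := natDegree_expand_eq hgh hα hγ
  have hMh : 1 < mm h := by rw [hmmh]; exact hM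
  have hM2h : mm h < 2 := by rw [hmmh]; exact hM2
  have hh0 := coeff_zero_ne_zero h hhirr hMh
  obtain ⟨S', hS', hcyc⟩ := cyc_pow N hN S hS
  have hNR : (0 : ℝ) < N := by exact_mod_cast hN
  -- the points
  have hβ0 : ∀ l, β l ≠ 0 := hβ.ne_zero hf10
  have hy0 : ∀ l, Len.refl (β l) ^ N ≠ 0 := fun l => pow_ne_zero _ (refl_ne_zero (hβ0 l))
  have hy1 : ∀ l, ‖Len.refl (β l) ^ N‖ ≤ 1 := fun l => by
    rw [norm_pow]
    exact pow_le_one₀ (norm_nonneg _) (norm_refl_le _)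
  have hdec0 : ∀ H : ℂ → ℝ, ∑ l, H (Len.refl (β l)) =
      cyc S H + e * ∑ i, H (Len.refl (α i)) := by
    intro H
    have h1 : IsRoots ((S.map fun j => cyclotomic j ℤ).prod * g ^ e) β := by
      rw [← hSu]; exact hβ
    have h2 := sum_roots_decomp S hS g e α hα β h1 (fun z => H (Len.refl z))
    rw [cyc_refl S hS] at h2
    exact h2
  have hdec : ∀ H : ℂ → ℝ, ∑ l, H (Len.refl (β l) ^ N) =
      cyc S' H + ((e * N : ℕ) : ℝ) * ∑ i, H (Len.refl (γ i)) :=
    red2_decomp (fun l => Len.refl (β l)) α γ g h hα hγ N hN hgh S S' e hdec0 hcyc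
  -- the analytic quantity
  have hmR : (0 : ℝ) < f1.natDegree := by exact_mod_cast hm
  have hDL0 : 0 ≤ DL c M := DL_nonneg c M
  set c' : ℕ → ℂ := fun j => c (N * j) with hc'
  set M' : ℕ := (M - 1) / N + 1 with hM'
  obtain ⟨k1, hk1⟩ : ∃ k1, k1 = mlogL f1 c M + DL c M / f1.natDegree := ⟨_, rfl⟩
  have hK : kapL (fun l => Len.refl (β l) ^ N) c' M' + DL c' M' / f1.natDegree +
      ∑ l, -Real.log ‖Len.refl (β l) ^ N‖ ≤ 4 * N * k1 := by
    have h1 := kapL_pow_le (fun l => Len.refl (β l)) (fun l => norm_refl_le _) N hN c M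
    have h2 := kapL_refl_le f1 β hβ c M
    have h3 := sum_delta_le f1 β hβ hf10
    have h4 := hh_le_mlogL f1 β hβ c M
    have h8 := DL_pow_le N hN c M
    have h5 : ∑ l, -Real.log ‖Len.refl (β l) ^ N‖ = N * ∑ l, -Real.log ‖Len.refl (β l)‖ := by
      rw [Finset.mul_sum]
      refine Finset.sum_congr rfl fun l _ => ?_
      rw [norm_pow, Real.log_pow]
      ring
    rw [h5]
    have h6 : (N : ℝ) * kapL (fun l => Len.refl (β l)) c M ≤ N * (2 * mlogL f1 c M) := by gcongr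
    have h7 : (N : ℝ) * ∑ l, -Real.log ‖Len.refl (β l)‖ ≤ N * (2 * mlogL f1 c M) := by
      gcongr
      linarith only [h3, h4]
    have h9 : DL c' M' / f1.natDegree ≤ N * (DL c M / f1.natDegree) := by
      rw [← mul_div_assoc]
      exact div_le_div_of_nonneg_right h8 hmR.le
    have h10 : 0 ≤ DL c M / f1.natDegree := by (clear * - hDL0 hm; positivity)
    have h11 : 0 ≤ (N : ℝ) * (DL c M / f1.natDegree) := by (clear * - hDL0 hN hm; positivity)
    rw [hk1]
    linarith only [h1, h11, h6, h7, h9]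
  have hk0 : 0 ≤ k1 := by
    have h10 : 0 ≤ DL c M / f1.natDegree := by (clear * - hDL0 hm; positivity)
    have := mlogL_nonneg f1 c M
    rw [hk1]
    linarith only [h10, this]
  have hKnn : 0 ≤ kapL (fun l => Len.refl (β l) ^ N) c' M' + DL c' M' / f1.natDegree +
      ∑ l, -Real.log ‖Len.refl (β l) ^ N‖ := by
    have h1 := kapL_nonneg (fun l => Len.refl (β l) ^ N) c' M'
    have h2 : 0 ≤ DL c' M' / f1.natDegree := div_nonneg (DL_nonneg c' M') hmR.le
    have h3 : 0 ≤ ∑ l, -Real.log ‖Len.refl (β l) ^ N‖ := Finset.sum_nonneg fun l _ => by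
      have := Real.log_nonpos (norm_nonneg _) (hy1 l)
      linarith only [this]
    linarith only [h1, h2, h3]
  obtain ⟨D1, hD1def⟩ : ∃ D1 : ℝ, D1 = f1.natDegree / (e * g.natDegree) := ⟨_, rfl⟩
  have hD11 : 1 ≤ D1 := by
    rw [hD1def, le_div_iff₀ hen, one_mul]
    have : e * g.natDegree ≤ f1.natDegree := by omega
    exact_mod_cast this
  have hmD1 : (f1.natDegree : ℝ) = D1 * (e * g.natDegree) := by
    rw [hD1def, div_mul_cancel₀ _ hen.ne']
  have hfR : (0 : ℝ) < f.natDegree := by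
    rw [hdeg]
    push_cast
    (clear * - hm; positivity)
  have hcmp : D1 * (1 + k1) ≤ D * (1 + mlogL f1 c M + DL c M / f.natDegree) := by
    have h1 : D1 * (DL c M / f1.natDegree) = DL c M / (e * g.natDegree) := by
      rw [hD1def]
      field_simp
    have h2 : D * (DL c M / f.natDegree) = DL c M / (e * g.natDegree) := by
      rw [hD]
      field_simp
    have h3 : D1 ≤ D := by
      rw [hD1def, hD]
      apply div_le_div_of_nonneg_right _ hen.le
      exact_mod_cast (by omega : f1.natDegree ≤ f.natDegree)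
    have h4 := mlogL_nonneg f1 c M
    have h5 : D1 * (1 + mlogL f1 c M) ≤ D * (1 + mlogL f1 c M) :=
      mul_le_mul_of_nonneg_right h3 (by linarith only [h4, hM, hM2])
    rw [hk1]
    calc D1 * (1 + (mlogL f1 c M + DL c M / f1.natDegree)) =
        D1 * (1 + mlogL f1 c M) + D1 * (DL c M / f1.natDegree) := by ring
      _ ≤ D * (1 + mlogL f1 c M) + D * (DL c M / f.natDegree) := by
        rw [h1, h2]
        linarith only [h5]
      _ = _ := by ring
  obtain ⟨b, hb⟩ : ∃ b, b = 96 * C * (D1 * (1 + k1)) := ⟨_, rfl⟩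
  obtain ⟨A, hA⟩ : ∃ A, A = b * (3 + Real.log (4 * C * (1 + k1))) := ⟨_, rfl⟩
  obtain ⟨E0, hE0⟩ : ∃ E0, E0 = A + b * Real.log (A + b) := ⟨_, rfl⟩
  obtain ⟨hA1, hb1, hfin⟩ := red2_numeric C D1 k1 b A E0 hC hD11 hk0 hb hA hE0
  have hcore := core_smooth A b E0 hA1 hb1 hE0 h hhm hhirr hMh hM2h hh0 hhexp hnh γ hγ
    (fun B hB => redL_energy C hC h hhm hhirr hMh hM2h (hhexp 2 Nat.prime_two) γ hγ hm
      (fun l => Len.refl (β l) ^ N) hy0 hy1 _ hKnn
      (hana f1.natDegree (fun l => Len.refl (β l) ^ N) hm hy1 hy0 c' M' _ rfl)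
      S' hS' e N he hN hdec D1 k1 hD11 hk0
      (by
        rw [hgdeg] at hmD1
        push_cast at hmD1
        refine hmD1.le.trans (le_of_eq ?_)
        ring) hK b A hb hA B hB)
  rw [← hmmh, hmlog]
  change _ ≤ Real.log (h.map (Int.castRingHom ℂ)).mahlerMeasure
  refine le_trans ?_ hcore
  rw [mul_assoc]
  refine mul_le_mul_of_nonneg_left ?_ (by positivity)
  refine le_trans ?_ hfin
  have h0 : 0 < D1 * (1 + k1) := by positivity
  have h9 : 1 / (D * (1 + mlogL f1 c M + DL c M / f.natDegree)) ^ 3 ≤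
      1 / (D1 * (1 + k1)) ^ 3 := by
    apply one_div_le_one_div_of_le (by positivity)
    exact pow_le_pow_left₀ h0.le hcmp 3
  exact mul_le_mul_of_nonneg_left h9 (by positivity)

/-- The Mahler measure of `g` is bounded below in terms of the mean of `|log |f| + L|` and of
the energy of `L`, for every harmonic polynomial `L = LL c N`. -/
theorem gen_main : ∃ c0 : ℝ, 0 < c0 ∧ ∀ (u g : ℤ[X]) (e : ℕ), 0 < e →
    (u.map (Int.castRingHom ℂ)).mahlerMeasure = 1 → Irreducible g →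
    1 < (g.map (Int.castRingHom ℂ)).mahlerMeasure → ∀ (f : ℤ[X]) (D : ℝ), f = u * g ^ e →
    D = f.natDegree / (e * g.natDegree) → ∀ (c : ℕ → ℂ) (N : ℕ),
    c0 / (D * (1 + mlogL f c N + DL c N / f.natDegree)) ^ 3 ≤
      Real.log (g.map (Int.castRingHom ℂ)).mahlerMeasure := by
  obtain ⟨C, hC, hana⟩ := analysis_mainL
  refine ⟨1 / 10 ^ 20 * (1 / (288 * C) ^ 3), by positivity, ?_⟩
  intro u g e he hMu hirr hM f D hf hD c M
  change mm u = 1 at hMu
  change 1 < mm g at hM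
  change _ ≤ Real.log (mm g)
  rw [div_eq_mul_one_div]
  have hune : u ≠ 0 := by
    rintro rfl
    unfold mm at hMu
    simp at hMu
  have hgne : g ≠ 0 := hirr.ne_zero
  have hfne : f ≠ 0 := by rw [hf]; exact mul_ne_zero hune (pow_ne_zero e hgne)
  have humon := monic_or u hune (by rw [hMu]; norm_num)
  by_cases hM2 : mm g < 2
  · have hgmon := monic_or g hgne hM2
    obtain ⟨g', hg', hgg'⟩ : ∃ g' : ℤ[X], g'.Monic ∧ (g' = g ∨ g' = -g) := by
      rcases hgmon with h | h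
      · exact ⟨g, h, Or.inl rfl⟩
      · exact ⟨-g, h, Or.inr rfl⟩
    obtain ⟨u', hu', huu'⟩ : ∃ u' : ℤ[X], u'.Monic ∧ (u' = u ∨ u' = -u) := by
      rcases humon with h | h
      · exact ⟨u, h, Or.inl rfl⟩
      · exact ⟨-u, h, Or.inr rfl⟩
    have hmg : mm g' = mm g := by
      rcases hgg' with rfl | rfl
      · rfl
      · exact mm_neg g
    have hmu : mm u' = mm u := by
      rcases huu' with rfl | rfl
      · rfl
      · exact mm_neg u
    have hirr' : Irreducible g' := by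
      rcases hgg' with rfl | rfl
      · exact hirr
      · have := (Associated.refl g).neg_left
        exact this.irreducible_iff.mpr hirr
    have hdg : g'.natDegree = g.natDegree := by
      rcases hgg' with rfl | rfl
      · rfl
      · exact natDegree_neg g
    have hff : u' * g' ^ e = f ∨ u' * g' ^ e = -f := by
      have h1 : g' ^ e = g ^ e ∨ g' ^ e = -g ^ e := by
        rcases hgg' with rfl | rfl
        · exact Or.inl rfl
        · rcases Nat.even_or_odd e with h | h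
          · left; exact h.neg_pow g
          · right; exact h.neg_pow g
      rw [hf]
      rcases h1 with h1 | h1 <;> rcases huu' with h2 | h2 <;> rw [h1, h2]
      · left; rfl
      · right; ring
      · right; ring
      · left; ring
    have hml : mlogL (u' * g' ^ e) c M = mlogL f c M := by
      rcases hff with h | h <;> rw [h]
      exact mlogL_neg f c M
    have hdf : (u' * g' ^ e).natDegree = f.natDegree := by
      rcases hff with h | h <;> rw [h]
      exact natDegree_neg f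
    have hfin := redL_monic C hC hana u' g' e he hu' hg' (by rw [hmu, hMu]) hirr'
      (by rw [hmg]; exact hM) (by rw [hmg]; exact hM2) (u' * g' ^ e) D rfl
      (by rw [hdf, hdg]; exact hD) c M
    rw [hmg, hml, hdf] at hfin
    exact hfin
  · push Not at hM2
    have hlog2 := Real.log_two_gt_d9
    have h1 : Real.log 2 ≤ Real.log (mm g) := Real.log_le_log (by norm_num) hM2
    rcases Nat.eq_zero_or_pos g.natDegree with hn0 | hn
    · have hD0 : D = 0 := by rw [hD, hn0]; simp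
      rw [hD0]
      simp only [zero_mul, ne_eq, OfNat.ofNat_ne_zero, not_false_eq_true, zero_pow, div_zero,
        mul_zero]
      linarith only [h1, hlog2]
    have hnR : (0 : ℝ) < g.natDegree := by exact_mod_cast hn
    have heR : (0 : ℝ) < e := by exact_mod_cast he
    have hen : (0 : ℝ) < e * g.natDegree := by positivity
    have hdeg : f.natDegree = u.natDegree + e * g.natDegree := by
      rw [hf, natDegree_mul hune (pow_ne_zero e hgne), natDegree_pow]
    have hD1 : 1 ≤ D := by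
      rw [hD, le_div_iff₀ hen, one_mul]
      have : e * g.natDegree ≤ f.natDegree := by omega
      exact_mod_cast this
    have hk : 0 ≤ mlogL f c M + DL c M / f.natDegree :=
      add_nonneg (mlogL_nonneg f c M) (div_nonneg (DL_nonneg c M) (Nat.cast_nonneg _))
    have h2 : 1 ≤ D * (1 + mlogL f c M + DL c M / f.natDegree) := by nlinarith only [hD1, hk]
    have h3 : 1 / (D * (1 + mlogL f c M + DL c M / f.natDegree)) ^ 3 ≤ 1 := by
      rw [div_le_one (by (clear * - h2; positivity))]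
      exact one_le_pow₀ h2
    have h4 : 1 / (288 * C) ^ 3 ≤ 1 := by
      rw [div_le_one (by positivity)]
      exact one_le_pow₀ (by linarith)
    have h6 : 1 / 10 ^ 20 * (1 / (288 * C) ^ 3) * (1 / (D * (1 + mlogL f c M + DL c M / f.natDegree)) ^ 3) ≤
        1 / 10 ^ 20 * 1 * 1 := by
      gcongr
    have h7 : (1 : ℝ) / 10 ^ 20 * 1 * 1 ≤ 1 / 2 := by norm_num
    linarith only [h1, h6, hlog2]

end Pool.Agent.Lib.MP_7ab245_nt.TrE
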