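import Mathlib
import Pool.Agent.Lib.MP_7ab245_nt.TrE.PsiMain
import Pool.Agent.Lib.MP_7ab245_nt.TrE.RedL

/-! The lower bound in terms of the power sums of the roots, some of the roots outside the unit
disc being reflected into it. -/

set_option autoImplicit false

open Polynomial Finset

namespace Pool.Agent.Lib.MP_7ab245_nt.TrE

open Pool.Agent.Lib.MP_7ab245_nt.Len
open Pool.Agent.Lib.MP_7ab245_nt.L1

private theorem fin_roots (f : ℤ[X]) {n : ℕ} (β : Fin n → ℂ) (hβ : IsRoots f β) :
    (f.map (Int.castRingHom ℂ)).roots = (univ : Finset (Fin n)).val.map β := by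
  have h : f.map (Int.castRingHom ℂ) =
      (((univ : Finset (Fin n)).val.map β).map fun a => X - C a).prod := by
    rw [hβ, Multiset.map_map]
    rfl
  rw [h, roots_multiset_prod_X_sub_C]

/-- the power sums of the roots do not see the root `0` and the sign -/
private theorem fin_pow_sum (f f1 : ℤ[X]) (r : ℕ) (hf1 : f1 ≠ 0)
    (hf : f = X ^ r * f1 ∨ f = -(X ^ r * f1)) (τ : ℂ → ℂ) (hτ0 : τ 0 = 0)
    {n : ℕ} (β : Fin n → ℂ) (hβ : IsRoots f1 β) (k : ℕ) (hk : 1 ≤ k) :
    ((f.map (Int.castRingHom ℂ)).roots.map (fun z => τ z ^ k)).sum = ∑ i, τ (β i) ^ k := by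
  have hinj : Function.Injective (Int.castRingHom ℂ) := RingHom.injective_int _
  have h1 : (f.map (Int.castRingHom ℂ)).roots =
      ((X ^ r * f1).map (Int.castRingHom ℂ)).roots := by
    rcases hf with h | h
    · rw [h]
    · rw [h, Polynomial.map_neg, roots_neg]
  have hf1' : f1.map (Int.castRingHom ℂ) ≠ 0 := (Polynomial.map_ne_zero_iff hinj).2 hf1
  have h2 : ((X ^ r * f1).map (Int.castRingHom ℂ)).roots =
      r • ({0} : Multiset ℂ) + (univ : Finset (Fin n)).val.map β := by
    rw [Polynomial.map_mul, Polynomial.map_pow, map_X,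
      roots_mul (mul_ne_zero (pow_ne_zero _ X_ne_zero) hf1'), roots_X_pow, fin_roots f1 β hβ]
  rw [h1, h2, Multiset.map_add, Multiset.sum_add, Multiset.map_nsmul, Multiset.sum_nsmul,
    Multiset.map_singleton, Multiset.sum_singleton, hτ0, zero_pow (by omega), smul_zero, zero_add,
    Multiset.map_map]
  rfl

private theorem fin_numeric (n n1 m m1 dg : ℕ) (hdg : 0 < dg) (hn1 : 0 < n1) (hn : n1 ≤ n)
    (hm : 1 ≤ m) (hmn : m ≤ n) (hm1 : m1 = min m n1) (S S1 : ℝ) (hS : S1 ≤ S) :
    (n1 : ℝ) / dg * ((n1 : ℝ) / m1 + S1 / n1) ≤ (n : ℝ) / dg * ((n : ℝ) / m + S / n) := by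
  have hdgR : (0 : ℝ) < dg := by exact_mod_cast hdg
  have hn1R : (0 : ℝ) < n1 := by exact_mod_cast hn1
  have hmR : (0 : ℝ) < m := by exact_mod_cast hm
  have hnR : (0 : ℝ) < n := by
    have : 0 < n := by omega
    exact_mod_cast this
  have hnn : (n1 : ℝ) ≤ n := by exact_mod_cast hn
  have hmnR : (m : ℝ) ≤ n := by exact_mod_cast hmn
  have h1 : (n1 : ℝ) / dg * ((n1 : ℝ) / m1 + S1 / n1) = ((n1 : ℝ) ^ 2 / m1 + S1) / dg := by
    field_simp
  have h2 : (n : ℝ) / dg * ((n : ℝ) / m + S / n) = ((n : ℝ) ^ 2 / m + S) / dg := by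
    field_simp
  rw [h1, h2]
  apply div_le_div_of_nonneg_right _ hdgR.le
  have h3 : (n1 : ℝ) ^ 2 / m1 ≤ (n : ℝ) ^ 2 / m := by
    rcases le_total m n1 with h | h
    · rw [hm1, min_eq_left h]
      gcongr
    · rw [hm1, min_eq_right h]
      have e1 : (n1 : ℝ) ^ 2 / n1 = n1 := by field_simp
      rw [e1, le_div_iff₀ hmR]
      nlinarith
  linarith

theorem trace_main2 : ∃ c0 : ℝ, 0 < c0 ∧ ∀ u g : ℤ[X],
    (u.map (Int.castRingHom ℂ)).mahlerMeasure = 1 → Irreducible g →
    1 < (g.map (Int.castRingHom ℂ)).mahlerMeasure → ∀ (f : ℤ[X]) (D E : ℝ) (m : ℕ) (τ : ℂ → ℂ),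
    f = u * g → D = f.natDegree / g.natDegree →
    (∀ z, τ z = z ∨ (1 < ‖z‖ ∧ τ z = (starRingEnd ℂ z)⁻¹)) → 1 ≤ m → m ≤ f.natDegree →
    E = f.natDegree / m + (∑ k ∈ Finset.Ico 1 m,
      ‖((f.map (Int.castRingHom ℂ)).roots.map (fun z => τ z ^ k)).sum‖ ^ 2 / k) / f.natDegree →
    c0 / (D * E) ^ 3 ≤ Real.log (g.map (Int.castRingHom ℂ)).mahlerMeasure := by
  obtain ⟨c1, hc1, hgen⟩ := gen_main
  refine ⟨min (1 / 2) (c1 / 4003 ^ 3), lt_min (by norm_num) (by positivity), ?_⟩
  intro u g hMu hirr hM f D E m τ hf hD hτ hm hmn hE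
  change mm u = 1 at hMu
  change 1 < mm g at hM
  change _ ≤ Real.log (mm g)
  have hlog0 : 0 ≤ Real.log (mm g) := Real.log_nonneg hM.le
  have hune : u ≠ 0 := by
    rintro rfl
    unfold mm at hMu
    simp at hMu
  have hgne : g ≠ 0 := hirr.ne_zero
  have hfne : f ≠ 0 := by rw [hf]; exact mul_ne_zero hune hgne
  have hdeg : f.natDegree = u.natDegree + g.natDegree := by
    rw [hf, natDegree_mul hune hgne]
  have hmR : (0 : ℝ) < m := by exact_mod_cast hm
  have hnR : (0 : ℝ) < f.natDegree := by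
    have : 0 < f.natDegree := by omega
    exact_mod_cast this
  set Sf : ℝ := ∑ k ∈ Finset.Ico 1 m,
      ‖((f.map (Int.castRingHom ℂ)).roots.map (fun z => τ z ^ k)).sum‖ ^ 2 / k with hSf
  have hSf0 : 0 ≤ Sf := Finset.sum_nonneg fun k _ => by positivity
  have hE1 : 1 ≤ E := by
    have h1 : (1 : ℝ) ≤ f.natDegree / m := by
      rw [le_div_iff₀ hmR, one_mul]
      exact_mod_cast hmn
    have h2 : 0 ≤ Sf / f.natDegree := by positivity
    rw [hE]
    linarith
  rcases Nat.eq_zero_or_pos g.natDegree with hn0 | hgpos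
  · have hD0 : D = 0 := by rw [hD, hn0]; simp
    rw [hD0]
    simpa using hlog0
  have hgR : (0 : ℝ) < g.natDegree := by exact_mod_cast hgpos
  have hD1 : 1 ≤ D := by
    rw [hD, le_div_iff₀ hgR, one_mul]
    exact_mod_cast (by omega : g.natDegree ≤ f.natDegree)
  have hDE : 1 ≤ D * E := by nlinarith
  have hDE3 : 1 ≤ (D * E) ^ 3 := one_le_pow₀ hDE
  by_cases hM2 : mm g < 2
  · have humon := monic_or u hune (by rw [hMu]; norm_num)
    have hgmon := monic_or g hgne hM2
    obtain ⟨g', hg', hgg'⟩ : ∃ g' : ℤ[X], g'.Monic ∧ (g' = g ∨ g' = -g) := by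
      rcases hgmon with h | h
      · exact ⟨g, h, Or.inl rfl⟩
      · exact ⟨-g, h, Or.inr rfl⟩
    obtain ⟨u', hu', huu'⟩ : ∃ u' : ℤ[X], u'.Monic ∧ (u' = u ∨ u' = -u) := by
      rcases humon with h | h
      · exact ⟨u, h, Or.inl rfl⟩
      · exact ⟨-u, h, Or.inr rfl⟩
    have hmg : mm g' = mm g := by
      rcases hgg' with rfl | rfl
      · rfl
      · exact mm_neg g
    have hmu : mm u' = 1 := by
      rcases huu' with rfl | rfl
      · exact hMu
      · rw [mm_neg]; exact hMu
    have hirr' : Irreducible g' := by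
      rcases hgg' with rfl | rfl
      · exact hirr
      · have := (Associated.refl g).neg_left
        exact this.irreducible_iff.mpr hirr
    have hdg : g'.natDegree = g.natDegree := by
      rcases hgg' with rfl | rfl
      · rfl
      · exact natDegree_neg g
    have hff : f = u' * g' ∨ f = -(u' * g') := by
      rw [hf]
      rcases hgg' with rfl | rfl <;> rcases huu' with rfl | rfl
      · left; rfl
      · right; ring
      · right; ring
      · left; ring
    have hM' : 1 < mm g' := by rw [hmg]; exact hM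
    have hg0 := coeff_zero_ne_zero g' hirr' hM'
    obtain ⟨r, u1, hu1, hu10⟩ : ∃ (r : ℕ) (u1 : ℤ[X]), u' = X ^ r * u1 ∧ u1.coeff 0 ≠ 0 := by
      obtain ⟨u1, h1, h2⟩ := exists_eq_pow_rootMultiplicity_mul_and_not_dvd u' hu'.ne_zero 0
      rw [C_0, sub_zero] at h1 h2
      exact ⟨_, u1, h1, fun h => h2 (X_dvd_iff.mpr h)⟩
    have hu1m : u1.Monic := by
      rw [hu1] at hu'
      exact (monic_X_pow r).of_mul_monic_left hu'
    have hMu1 : mm u1 = 1 := by
      have h1 : mm (X ^ r : ℤ[X]) = 1 := by rw [mm_pow, mm_X, one_pow]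
      rw [hu1, mm_mul, h1, one_mul] at hmu
      exact hmu
    set f1 : ℤ[X] := u1 * g' with hf1
    have hf1m : f1.Monic := hu1m.mul hg'
    have hff1 : f = X ^ r * f1 ∨ f = -(X ^ r * f1) := by
      rw [hf1, ← mul_assoc, ← hu1]
      exact hff
    have hf10 : f1.coeff 0 ≠ 0 := by
      rw [hf1, mul_coeff_zero]
      exact mul_ne_zero hu10 hg0
    obtain ⟨β, hβ⟩ := exists_isRoots f1 hf1m
    have hβ0 : ∀ l, β l ≠ 0 := hβ.ne_zero hf10
    have hn1g : f1.natDegree = u1.natDegree + g.natDegree := by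
      rw [hf1, hu1m.natDegree_mul hg', hdg]
    have hn1pos : 0 < f1.natDegree := by omega
    have hn1n : f1.natDegree ≤ f.natDegree := by
      have h1 : f.natDegree = (X ^ r * f1).natDegree := by
        rcases hff1 with h | h
        · rw [h]
        · rw [h, natDegree_neg]
      rw [h1, (monic_X_pow r).natDegree_mul hf1m, natDegree_X_pow]
      omega
    have hhβ : hh β ≤ 1 := by
      rw [hh_eq_log_mahler f1 β hβ]
      change Real.log (mm f1) ≤ 1
      have h1 : mm f1 = mm g := by rw [hf1, mm_mul, hMu1, one_mul, hmg]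
      rw [h1]
      have h2 : Real.log (mm g) ≤ Real.log 2 := Real.log_le_log (by linarith) hM2.le
      have := Real.log_two_lt_d9
      linarith
    obtain ⟨m1, hm1⟩ : ∃ m1, m1 = min m f1.natDegree := ⟨_, rfl⟩
    have hm11 : 1 ≤ m1 := by rw [hm1]; exact le_min hm hn1pos
    have hm1n : m1 ≤ f1.natDegree := by rw [hm1]; exact min_le_right _ _
    have hm1m : m1 ≤ m := by rw [hm1]; exact min_le_left _ _
    -- the partly reflected roots
    have hτ0 : τ 0 = 0 := by
      rcases hτ 0 with h | ⟨h, _⟩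
      · exact h
      · rw [norm_zero] at h
        exact absurd h (by norm_num)
    set y : Fin f1.natDegree → ℂ := fun l => τ (β l) with hy
    have hy0 : ∀ l, y l ≠ 0 := by
      intro l
      rcases hτ (β l) with h | ⟨_, h⟩
      · simp only [hy, h]
        exact hβ0 l
      · simp only [hy, h]
        exact inv_ne_zero ((_root_.map_ne_zero _).2 (hβ0 l))
    have hyr : ∀ l, Len.refl (y l) = Len.refl (β l) := by
      intro l
      rcases hτ (β l) with h | ⟨h1, h⟩
      · simp only [hy, h]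
      · have h2 : ‖y l‖ ≤ 1 := by
          simp only [hy, h]
          rw [norm_inv, RCLike.norm_conj]
          exact inv_le_one_of_one_le₀ h1.le
        rw [refl_of_le h2, refl_of_lt h1]
        simp only [hy, h]
    have hhy : hh y ≤ 1 := by
      refine le_trans (Finset.sum_le_sum fun l _ => ?_) hhβ
      rcases hτ (β l) with h | ⟨h1, h⟩
      · simp only [hy, h]
        exact le_rfl
      · have h2 : ‖y l‖ ≤ 1 := by
          simp only [hy, h]
          rw [norm_inv, RCLike.norm_conj]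
          exact inv_le_one_of_one_le₀ h1.le
        rw [(Real.posLog_eq_zero_iff _).2 (by rw [abs_of_nonneg (norm_nonneg _)]; exact h2)]
        exact Real.posLog_nonneg
    have hkap := kapL_pw_le hn1pos y hy0 hhy m1 hm11 hm1n
    simp only [hyr] at hkap
    have hml := mlogL_le f1 β hβ (pw y) m1
    have hgen1 := hgen u1 g' 1 one_pos hMu1 hirr' hM' f1
      (f1.natDegree / ((1 : ℕ) * g'.natDegree)) (by rw [pow_one]) rfl (pw y) m1
    change _ ≤ Real.log (mm g') at hgen1
    rw [hmg, hdg, Nat.cast_one, one_mul] at hgen1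
    have hn1R : (0 : ℝ) < f1.natDegree := by exact_mod_cast hn1pos
    have hm1R : (0 : ℝ) < m1 := by exact_mod_cast hm11
    have hDL0 : 0 ≤ DL (pw y) m1 := DL_nonneg _ _
    have hENdef : EN y m1 = f1.natDegree / m1 + DL (pw y) m1 / f1.natDegree := rfl
    have hDL1 : 0 ≤ DL (pw y) m1 / f1.natDegree := by positivity
    have hq : (1 : ℝ) ≤ f1.natDegree / m1 := by
      rw [le_div_iff₀ hm1R, one_mul]
      exact_mod_cast hm1n
    have hEN1 : 1 ≤ EN y m1 := by rw [hENdef]; linarith
    -- comparison of the sums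
    have hDLS : DL (pw y) m1 ≤ Sf := by
      have h1 : DL (pw y) m1 ≤ DL (pw y) m :=
        Finset.sum_le_sum_of_subset_of_nonneg (Finset.Ico_subset_Ico_right hm1m)
          fun k _ _ => by positivity
      refine h1.trans (le_of_eq ?_)
      rw [hSf]
      refine Finset.sum_congr rfl fun k hk => ?_
      have hk1 : 1 ≤ k := (Finset.mem_Ico.1 hk).1
      rw [fin_pow_sum f f1 r hf1m.ne_zero hff1 τ hτ0 β hβ k hk1]
      have h2 : pw y k = starRingEnd ℂ (∑ i, τ (β i) ^ k) := by
        unfold pw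
        rw [map_sum]
        simp only [map_pow, hy]
      rw [h2, RCLike.norm_conj]
    have hnum := fin_numeric f.natDegree f1.natDegree m m1 g.natDegree hgpos hn1pos hn1n hm hmn
      hm1 Sf (DL (pw y) m1) hDLS
    have hnum' : (f1.natDegree : ℝ) / g.natDegree * EN y m1 ≤ D * E := by
      rw [hENdef, hD, hE]
      exact hnum
    set D1 : ℝ := f1.natDegree / g.natDegree with hD1def
    have hD1pos : 0 < D1 := by positivity
    have hQ : D1 * (1 + mlogL f1 (pw y) m1 + DL (pw y) m1 / f1.natDegree) ≤ 4003 * (D * E) := by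
      have h1 : 1 + mlogL f1 (pw y) m1 + DL (pw y) m1 / f1.natDegree ≤ 4003 * EN y m1 := by
        have h2 : DL (pw y) m1 / f1.natDegree ≤ EN y m1 := by rw [hENdef]; linarith
        linarith
      calc D1 * (1 + mlogL f1 (pw y) m1 + DL (pw y) m1 / f1.natDegree)
          ≤ D1 * (4003 * EN y m1) := mul_le_mul_of_nonneg_left h1 hD1pos.le
        _ = 4003 * (D1 * EN y m1) := by ring
        _ ≤ _ := mul_le_mul_of_nonneg_left hnum' (by norm_num)
    have hQ0 : 0 < D1 * (1 + mlogL f1 (pw y) m1 + DL (pw y) m1 / f1.natDegree) := by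
      have := mlogL_nonneg f1 (pw y) m1
      positivity
    refine le_trans ?_ hgen1
    calc min (1 / 2) (c1 / 4003 ^ 3) / (D * E) ^ 3 ≤ (c1 / 4003 ^ 3) / (D * E) ^ 3 :=
          div_le_div_of_nonneg_right (min_le_right _ _) (by positivity)
      _ = c1 / (4003 * (D * E)) ^ 3 := by
          rw [mul_pow 4003 (D * E) 3, div_div]
      _ ≤ c1 / (D1 * (1 + mlogL f1 (pw y) m1 + DL (pw y) m1 / f1.natDegree)) ^ 3 := by
          apply div_le_div_of_nonneg_left hc1.le (by positivity)
          exact pow_le_pow_left₀ hQ0.le hQ 3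
  · push Not at hM2
    have hlog2 := Real.log_two_gt_d9
    have h1 : Real.log 2 ≤ Real.log (mm g) := Real.log_le_log (by norm_num) hM2
    have h2 : min (1 / 2) (c1 / 4003 ^ 3) / (D * E) ^ 3 ≤ 1 / 2 := by
      rw [div_le_iff₀ (by positivity)]
      have h3 : min (1 / 2) (c1 / 4003 ^ 3) ≤ 1 / 2 := min_le_left _ _
      nlinarith
    linarith

end Pool.Agent.Lib.MP_7ab245_nt.TrE
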